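import Pool.Agent.P.MP_9321be_ag.SM.Iface

/-! Step LINK. -/

set_option autoImplicit false
set_option linter.unusedSectionVars false

namespace Pool.Agent.P.MP_9321be_ag.SM

open Finset

lemma link_span {n : ℕ} {σ : Finset (Fin n →₀ ℕ)} (h : ND.Contrib σ) (x : Fin n → ℝ)
    (hx : ∀ b ∈ σ, ∑ i, x i * b i = 0) : ∑ i, x i = 0 := by
  have : ∀ y ∈ Submodule.span ℚ (ND.vec '' (σ : Set (Fin n →₀ ℕ))), ∑ i, x i * y i = 0 :=
    fun y hy => by
    induction hy using Submodule.span_induction with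
    | mem y hy =>
      obtain ⟨b, hb, rfl⟩ := hy
      simpa [ND.vec] using hx b hb
    | zero => simp
    | add y z _ _ a b => simp [mul_add, sum_add_distrib, a, b]
    | smul c y _ a => simp [mul_left_comm (x _), ← mul_sum, a]
  simpa using this _ h.2

lemma link_inl {n : ℕ} (x : Fin n → ℝ) (a : Fin n →₀ ℕ) : dt x (pt (.inl a)) = ND.dr a x := by
  simp [dt_apply, dotProduct, rv_pt, wv, ND.dr, mul_comm]

lemma link_inr {n : ℕ} (x : Fin n → ℝ) (i : Fin n) : dt x (pt (.inr i)) = x i * 2 := by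
  simp [dt_apply, dotProduct, rv_pt, wv, Pi.single_apply]

theorem p_LINK :
    S_LINK := by
  classical
  intro n f Φ u ω h s J α A hC hU hα
  have p1 : ∀ a, ps u (pt (.inl a)) = ND.dr a u - 1 := fun a => congrArg (· - 1) (link_inl u a)
  have p2 : ∀ i, ps u (pt (.inr i)) = u i * 2 := fun i => (sub_zero _).trans (link_inr u i)
  obtain ⟨F, hF, f1⟩ := Φ.face u fun g hg => by
    rcases g with a | i
    · rw [p1]; exact sub_nonneg.2 (A.u1 a (inl_mem_gens.1 hg))
    · rw [p2]; linarith [A.u0 i]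
  let S : Gn n → Prop := Sum.elim (· ∈ s) (· ∈ J)
  have s1 : ∀ b ∈ NC.vs s J, ∃ g, S g ∧ wv g = b := fun b hb => by
    rcases mem_union.1 hb with e | e
    · exact ⟨.inl b, e, rfl⟩
    · obtain ⟨j, o, rfl⟩ := mem_image.1 e
      exact ⟨.inr j, o, (Finsupp.single_eq_pi_single _ _).symm⟩
  have s2 : ∀ g, S g → ∃ b ∈ NC.vs s J, wv g = b := by
    rintro (a | j) e
    · exact ⟨a, mem_union_left _ e, rfl⟩
    · exact ⟨_, mem_union_right _ (mem_image_of_mem _ e), (Finsupp.single_eq_pi_single _ _).symm⟩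
  have s3 : ∀ g, S g → g ∈ gens f ∧ ps u (pt g) = 0 := by
    rintro (a | j) e
    · exact ⟨inl_mem_gens.2 (mem_filter.1 (A.sub e)).1, by
        rw [p1, (mem_filter.1 (A.sub e)).2, sub_self]⟩
    · exact ⟨inr_mem_gens f j, by rw [p2, (A.h2 j e).1, zero_mul]⟩
  have s4 := fun g e => f1 g (s3 g e).1 (s3 g e).2
  have s5 := fun g e => Φ.cone F hF g (s3 g e).1 (s4 g e).1
  have sp : ∀ x : Fin n → ℝ, (∀ g, S g → dt x (pt g) = 0) → ∑ i, x i = 0 := fun x hx =>
    link_span hC x fun b hb => by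
      obtain ⟨g, a, e⟩ := s1 b hb
      simpa [dt_apply, dotProduct, rv_pt, e] using hx g a
  refine ⟨⟨Φ, α, F, F.filter fun j => ∃ g, S g ∧ dt (Φ.d F j) (pt g) ≠ 0, hF, filter_subset _ _,
    ?_, fun j hj => ?_, fun a ha i a1 a2 => ?_⟩, rfl⟩
  · have := sp (Φ.u F - u) fun g e => by
      rw [dt_apply, sub_dotProduct]
      exact sub_eq_zero.2 ((sub_eq_zero.1 (s4 g e).1).trans (sub_eq_zero.1 (s3 g e).2).symm)
    simpa [ps_apply, dotProduct, rv, p0, hα] using this
  · by_cases e : j ∈ F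
    · simpa [dt_apply, dotProduct, rv, p0] using sp (Φ.d F j) fun g a =>
        by_contra fun b => hj (mem_filter.2 ⟨e, g, a, b⟩)
    · exact Φ.dt_off e _
  have aF := (mem_filter.1 ha).1
  obtain ⟨a, rfl⟩ : ∃ b, a = .inl b := by
    rcases a with a | j
    · exact ⟨a, rfl⟩
    · simp only [wv, Pi.single_apply] at a1
      split_ifs at a1
      omega
  have K : ∀ g, S g → wv g i ≠ 0 → g = .inl a := fun g e e0 => by
    have m : ∀ i', (wv g i' : ℝ) = _ := fun i' => (rv_pt g i').symm.trans (Φ.mi_expand hF (pt g) i')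
    have k1 := m i
    rw [sum_eq_single_of_mem _ aF fun j hj o => by
      by_cases b : dt (Φ.d F j) (pt g) = 0
      · exact mul_eq_zero_of_left b _
      · rw [a2 j (mem_filter.2 ⟨hj, g, e, b⟩) o, Nat.cast_zero, mul_zero], a1] at k1
    have k2 : (1 : ℝ) ≤ wv g i := by exact_mod_cast Nat.pos_of_ne_zero e0
    have k3 := Φ.k_expand hF (s4 g e).1
    have n1 : ∀ j ∈ F.erase (.inl a), 0 ≤ dt (Φ.d F j) (pt g) * kp j := fun j _ =>
      mul_nonneg (s5 g e j) (by cases j <;> simp [kp])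
    have n2 := sum_nonneg n1
    rw [← add_sum_erase _ _ aF] at k3
    simp only [Nat.cast_one, mul_one, show kp (.inl a : Gn n) = 1 from rfl] at k1 k3
    rcases g with b | j
    swap
    · exact absurd (show (0 : ℝ) = _ from k3) (by linarith)
    replace k3 : (1 : ℝ) = _ := k3
    have z1 := (sum_eq_zero_iff_of_nonneg n1).1 (by linarith)
    have z2 := Φ.dt_expand hF ω (pt (.inl b))
    have z3 : ∀ j, dt (Φ.d F (.inr j)) (pt (.inl b)) ≠ 0 → 0 < dt ω (pt (.inr j)) := fun j o => by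
      have := (s4 _ e).2 _ o
      rw [p2] at this
      rw [link_inr]
      linarith [A.h1 j (by linarith), A.h0 j]
    rw [link_inl, A.w1 b e, eq_comm, sum_eq_zero_iff_of_nonneg fun j hj => by
      by_cases o : dt (Φ.d F j) (pt (.inl b)) = 0
      · rw [o, zero_mul]
      refine mul_nonneg (s5 _ e j) ?_
      rcases j with c | j
      · rw [link_inl]
        exact A.w0 c (mem_filter.2 ⟨inl_mem_gens.1 (Φ.sub F hF hj),
          sub_eq_zero.1 ((p1 c).symm.trans ((s4 _ e).2 _ o))⟩)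
      · exact (z3 j o).le] at z2
    refine congrArg _ (Finsupp.ext fun i' => ?_)
    have := m i'
    rw [sum_eq_single_of_mem _ aF fun j hj o => mul_eq_zero_of_left (by
      rcases j with c | j
      · simpa [kp] using z1 _ (mem_erase.2 ⟨o, hj⟩)
      · exact by_contra fun o => (mul_ne_zero o (z3 j o).ne') (z2 _ hj)) _,
      show dt (Φ.d F (.inl a)) (pt (.inl b)) = 1 by linarith, one_mul] at this
    exact_mod_cast this
  have a3 : S (.inl a) := by_contra fun o => by
    simpa using sp (Pi.single i 1) fun g e => by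
      simpa [dt_apply, rv_pt] using by_contra fun b => o (K g e b ▸ e)
  have := hU a
  simp only [ND.UApex, not_and, not_exists, not_forall] at this
  obtain ⟨i', b1, b2⟩ := this (mem_union_left _ a3) i a1 ⟨a1.trans_ne one_ne_zero, fun b hb o => by
    obtain ⟨g, e, e'⟩ := s1 b hb
    by_contra c
    rw [K g e (by rwa [e'])] at e'
    exact o (DFunLike.coe_injective e').symm⟩
  refine ⟨i', b2, b1.1, fun j hj o => ?_⟩
  obtain ⟨j1, g, e, j2⟩ := mem_filter.1 hj
  obtain ⟨b, hb, e'⟩ := s2 g e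
  have b3 := b1.2 b hb fun c => j2 (by
    rw [K g e (by rw [e', c]; exact a1.trans_ne one_ne_zero), Φ.dual F hF j j1 _ aF, if_neg o])
  have := Φ.mi_expand hF (pt g) i'
  rw [show ((pt g).2.1 i' : ℝ) = 0 by simp [pt, e', b3], eq_comm, sum_eq_zero_iff_of_nonneg
    fun l _ => mul_nonneg (s5 g e l) (Nat.cast_nonneg _)] at this
  simpa [j2] using this j j1

end Pool.Agent.P.MP_9321be_ag.SM
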