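import Pool.Agent.P.MP_9321be_ag.SM.Iface

/-! Step TOR. -/

set_option autoImplicit false
set_option linter.unusedSectionVars false

namespace Pool.Agent.P.MP_9321be_ag.SM

open Finset

section

variable {n : ℕ} {f : MvPolynomial (Fin n) ℂ}

theorem tor_fl {A : Set (L n)} (h : ∀ p, ∀ q ∈ A, p + q ∈ A ↔ p ∈ A) (x : R n) {y : R n}
    (hy : y ∈ sp A) : fl A (x * y) = fl A x * y :=
  map_eq (fl A ∘ₗ LinearMap.mulRight ℂ y) (LinearMap.mulRight ℂ y ∘ₗ fl A) (fun p _ =>
    map_eq (fl A ∘ₗ LinearMap.mulLeft ℂ (e p)) (LinearMap.mulLeft ℂ (fl A (e p))) (fun q hq => by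
      by_cases hp : p ∈ A
      · simp [← e_add, fl_e_mem hp, fl_e_mem ((h p q hq).2 hp)]
      · simp [← e_add, fl_e_not hp, fl_e_not (mt (h p q hq).1 hp)]) hy) (mem_sp_univ x)

open Classical in
theorem tor_th (A : Set (L n)) (ψ : L n →+ ℝ) : fl A (th f ψ) =
    ∑ g ∈ gens f, if pt g ∈ A then (cf f g * ψ (pt g)) • e (pt g) else 0 := by
  rw [th, map_sum]
  refine sum_congr rfl fun g _ => ?_
  split_ifs with h
  · rw [map_smul, fl_e_mem h]
  · rw [map_smul, fl_e_not h, smul_zero]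

theorem tor_dual (Φ : Fan f) {F : Finset (Gn n)} (hF : F ∈ Φ.FF) {g : Gn n} (hg : g ∈ F)
    (j : Gn n) : dt (Φ.d F j) (pt g) = if j = g then 1 else 0 := by
  by_cases h : j ∈ F
  · exact Φ.dual F hF j h g hg
  · rw [Φ.dt_off h, if_neg fun e : j = g => h (e ▸ hg)]

theorem tor_phi (u : Fin n → ℝ) (a : Fin n →₀ ℕ) (c : ℂ) :
    MvPolynomial.aeval (fun i => e ((u i, Pi.single i 1, 0) : L n)) (MvPolynomial.monomial a c) =
      c • e ((u ⬝ᵥ fun i => a i, fun i => a i, 0) : L n) := by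
  have : ∀ s : Finset (Fin n), ∏ i ∈ s, e ((u i, Pi.single i 1, 0) : L n) ^ a i =
      e (∑ i ∈ s, a i • ((u i, Pi.single i 1, 0) : L n)) := fun s => by
    induction s using Finset.induction_on with
    | empty => simp
    | insert i s hi ih => rw [prod_insert hi, sum_insert hi, e_add, ih, e_nsmul]
  rw [MvPolynomial.aeval_monomial, Finsupp.prod_fintype _ _ (by simp), this, Algebra.smul_def]
  congr 2
  ext i <;> simp [Prod.fst_sum, Prod.snd_sum, Pi.single_apply, dotProduct, mul_comm]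

theorem tor_null {g : MvPolynomial (Fin n) ℂ}
    (h : ∀ x : Fin n → ℂ, (∀ i, x i ≠ 0) → ∃ i, MvPolynomial.eval x (MvPolynomial.pderiv i g) ≠ 0) :
    ∃ (N : ℕ) (q : Fin n → MvPolynomial (Fin n) ℂ),
      ∑ i, q i * (MvPolynomial.X i * MvPolynomial.pderiv i g) = (∏ i, MvPolynomial.X i) ^ N := by
  have : ∏ i, MvPolynomial.X i ∈ (Ideal.span (Set.range fun i =>
      MvPolynomial.X i * MvPolynomial.pderiv i g)).radical := by
    rw [← MvPolynomial.vanishingIdeal_zeroLocus_eq_radical (K := ℂ),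
      MvPolynomial.mem_vanishingIdeal_iff]
    intro x hx
    by_contra h0
    simp only [map_prod, MvPolynomial.aeval_X, prod_eq_zero_iff, not_exists, not_and] at h0
    obtain ⟨i, hi⟩ := h x fun i => h0 i (mem_univ i)
    have := hx _ (Ideal.subset_span ⟨i, rfl⟩)
    rw [map_mul, MvPolynomial.aeval_X] at this
    exact mul_ne_zero (h0 i (mem_univ i)) hi this
  obtain ⟨N, hN⟩ := this
  exact ⟨N, Ideal.mem_span_range_iff_exists_fun.1 hN⟩

end

theorem p_TOR (hTW : S_TW) :
    S_TOR := by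
  classical
  intro n f Φ hf F hF S hS hne
  suffices h : ∃ s : Fin n → R n, ∑ i, s i * fl (Φ.Sp F S) (th f (mi i)) = 1 by
    obtain ⟨s, hs⟩ := h
    have m : ∀ x, fl (Φ.Sp F S) x ∈ sp (Φ.Sp F S) := fun x =>
      sp_mono Set.inter_subset_right (fl_mem _ (mem_sp_univ x))
    refine ⟨fun i => fl (Φ.Sp F S) (s i), fun i => m _, ?_⟩
    rw [← e_zero, ← fl_e_mem (A := Φ.Sp F S) (p := 0) ⟨by simp, by simp, by simp⟩, e_zero, ← hs,
      map_sum]
    refine sum_congr rfl fun i _ => (tor_fl (fun p q hq => ?_) _ (m _)).symm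
    refine and_congr (by rw [map_add, hq.1, add_zero]) (and_congr (forall₂_congr fun j hj => by
      rw [map_add, hq.2.1 j hj, add_zero]) ?_)
    simp only [map_add, sum_add_distrib, hq.2.2, Prod.snd_add, add_left_inj]
  by_cases hr : ∃ i, Sum.inr i ∈ S
  · obtain ⟨i0, h0⟩ := hr
    have key : fl (Φ.Sp F S) (th f (dt (Φ.d F (.inr i0)))) = e (pt (.inr i0)) := by
      rw [tor_th, sum_eq_single_of_mem _ (inr_mem_gens f i0), if_pos, tor_dual Φ hF (hS h0)]
      · simp [cf]
      · refine ⟨Φ.tight F hF _ (hS h0), fun j hj => ?_, ?_⟩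
        · rw [tor_dual Φ hF (hS h0), if_neg fun e : j = _ => hj (e ▸ h0)]
        · simp only [tor_dual Φ hF (hS h0)]
          simp [pt, kp]
      · rintro (a | i) hg ne <;> split_ifs with h
        · rw [(sum_eq_zero_iff_of_nonneg fun i _ => Φ.cone F hF _ hg h.1 (.inr i)).1
            (h.2.2.trans (by simp [pt, kp])) i0 (mem_univ _)]
          simp
        · rfl
        · rw [tor_dual Φ hF (Φ.ray F hF i (by
            simpa [ps_apply, pt, kp, rv, wv, dotProduct, Pi.single_apply] using h.1)),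
            if_neg ne.symm]
          simp
        · rfl
    refine ⟨fun i => (Φ.d F (.inr i0) i : ℂ) • e (-pt (.inr i0)), ?_⟩
    rw [th_dt, map_sum] at key
    simp only [smul_mul_assoc, ← mul_smul_comm, ← mul_sum, ← map_smul]
    rw [key, ← e_add, neg_add_cancel, e_zero]
  · push Not at hr
    obtain ⟨w, w0, hw⟩ := hTW n f Φ F hF S hS hne hr
    obtain ⟨N, q, hq⟩ := tor_null (hf w w0)
    let φ : MvPolynomial (Fin n) ℂ →ₐ[ℂ] R n :=
      MvPolynomial.aeval fun i => e ((Φ.u F i, Pi.single i 1, 0) : L n)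
    have key : ∀ i, φ (MvPolynomial.X i * MvPolynomial.pderiv i (ND.facePoly f w)) =
        -fl (Φ.Sp F S) (th f (mi i)) := fun i => by
      rw [tor_th, gens, sum_disjSum, sum_eq_zero (s := univ) fun i' _ => if_neg fun h => ?_,
        add_zero, ND.facePoly, filter_congr hw, sum_filter, map_sum, mul_sum, map_sum,
        ← sum_neg_distrib]
      · refine sum_congr rfl fun a _ => ?_
        split_ifs with h
        · have h1 : (Φ.u F ⬝ᵥ fun i => (a i : ℝ)) = 1 := by
            simpa [ps_apply, pt, kp, rv, wv, sub_eq_zero, dotProduct] using h.1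
          rw [MvPolynomial.X_mul_pderiv_monomial, map_nsmul, tor_phi, h1, mi_pt,
            ← Nat.cast_smul_eq_nsmul ℂ, smul_smul, ← neg_smul]
          simp [cf, wv, pt, kp, mul_comm]
        · simp
      · have := h.2.2
        rw [sum_eq_zero fun i _ => h.2.1 _ (hr i)] at this
        simp [pt, kp] at this
    have hu : IsUnit (φ ((∏ i, MvPolynomial.X i) ^ N)) := by
      rw [map_pow, map_prod]
      refine (IsUnit.prod_iff.2 fun i _ => ?_).pow N
      rw [MvPolynomial.aeval_X]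
      exact .of_mul_eq_one (e (-_)) (by rw [← e_add, add_neg_cancel, e_zero])
    obtain ⟨v, hv⟩ := hu.exists_left_inv
    refine ⟨fun i => -(v * φ (q i)), ?_⟩
    rw [← hv, ← hq, map_sum, mul_sum]
    exact sum_congr rfl fun i _ => by rw [map_mul, key]; ring

end Pool.Agent.P.MP_9321be_ag.SM
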