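import Pool.Agent.P.MP_9321be_ag.SM.Iface

/-! Step FD. -/

set_option autoImplicit false
set_option linter.unusedSectionVars false

namespace Pool.Agent.P.MP_9321be_ag.SM

open Finset

theorem fd_li {n : ℕ} (B : Finset (Gn n))
    (h : ∀ μ : Gn n → ℝ, (∀ i, ∑ b ∈ B, μ b * wv b i = 0) → ∀ b ∈ B, μ b = 0) :
    LinearIndependent ℝ (fun b : B => rv (pt (b : Gn n))) := by
  classical
  rw [Fintype.linearIndependent_iff]
  intro g hg b
  have := h (fun a => if ha : a ∈ B then g ⟨a, ha⟩ else 0) (fun i => by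
    have := congrFun hg i
    rw [Finset.sum_apply] at this
    rw [← Finset.sum_coe_sort]
    simpa [rv_pt] using this) b b.2
  simpa using this

theorem fd_dot {n : ℕ} (φ : (Fin n → ℝ) →ₗ[ℝ] ℝ) (x : Fin n → ℝ) :
    (fun i => φ (Pi.single i 1)) ⬝ᵥ x = φ x := by
  conv_rhs => rw [pi_eq_sum_univ' x]
  simp [dotProduct, mul_comm]

theorem p_FD :
    S_FD := by
  classical
  intro n B h
  have hli := fd_li B h
  refine ⟨by simpa using hli.fintype_card_le_finrank, fun hlt => ?_, fun heq => ?_⟩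
  · let T : (Fin n → ℝ) →ₗ[ℝ] (B → ℝ) :=
      LinearMap.pi fun b => (dotProductBilin ℝ ℝ).flip (rv (pt (b : Gn n)))
    have hk : LinearMap.ker T ≠ ⊥ := LinearMap.ker_ne_bot_of_finrank_lt (by simpa using hlt)
    obtain ⟨x, hx, hx0⟩ := (Submodule.ne_bot_iff _).1 hk
    exact ⟨x, hx0, fun b hb => by simpa [T, dt_apply] using congrFun hx ⟨b, hb⟩⟩
  · let bs : Module.Basis B ℝ (Fin n → ℝ) :=
      basisOfLinearIndependentOfCardEqFinrank' _ hli (by simpa using heq)
    have hbs : ∀ b : B, bs b = rv (pt (b : Gn n)) := fun b => by simp [bs]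
    refine ⟨fun j => if hj : j ∈ B then fun i => bs.coord ⟨j, hj⟩ (Pi.single i 1) else 0,
      fun j hj => by simp [hj], fun j hj j' hj' => ?_, fun x i => ?_⟩
    · simp only [hj, dif_pos, dt_apply, fd_dot]
      rw [← hbs ⟨j', hj'⟩]
      simp [Finsupp.single_apply, eq_comm]
    · have := congrFun (bs.sum_repr x) i
      rw [← this, ← Finset.sum_coe_sort B, Finset.sum_apply]
      refine sum_congr rfl fun j _ => ?_
      simp only [j.2, dif_pos, fd_dot]
      simp [hbs, rv_pt]

end Pool.Agent.P.MP_9321be_ag.SM
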