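import Pool.Agent.P.MP_9321be_ag.SM.Iface

/-! Step ONE. -/

set_option autoImplicit false
set_option linter.unusedSectionVars false

namespace Pool.Agent.P.MP_9321be_ag.SM

open Finset

section

open Polynomial

variable {n : ℕ} (f : MvPolynomial (Fin n) ℂ)

/-- Multiples of `f` modulo the image of `s + 1`. -/
noncomputable def one_M : Submodule ℂ (NN n) := LinearMap.range (EN f + 1) ⊔
  LinearMap.range ((monomial 0).restrictScalars ℂ ∘ₗ LinearMap.mulLeft ℂ f)

theorem one_mem {y : NN n} : y ∈ one_M f ↔ ∃ w h, EN f w + w + monomial 0 (f * h) = y := by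
  simp [one_M, Submodule.mem_sup]

theorem one_st {T : Module.End ℂ (NN n)} (h1 : ∀ j h, T (EN f (monomial j h)) =
    EN f (T (monomial j h))) (h2 : ∀ h, T (monomial 0 (f * h)) ∈ one_M f) :
    ∀ y ∈ one_M f, T y ∈ one_M f := by
  intro y hy
  obtain ⟨w, h, rfl⟩ := (one_mem f).1 hy
  have : T (EN f w) = EN f (T w) := by
    clear hy
    induction w using Polynomial.induction_on' with
    | add p q a b => simp only [map_add, a, b]
    | monomial j h => exact h1 j h
  rw [map_add, map_add, this]
  exact add_mem ((one_mem f).2 ⟨T w, 0, by simp⟩) (h2 h)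

theorem one_AN {T : Module.End ℂ (NN n)} (hT : T ∈ AN f) : ∀ y ∈ one_M f, T y ∈ one_M f := by
  induction hT using Algebra.adjoin_induction with
  | mem T h =>
    rcases h with ⟨i, rfl⟩ | ⟨i, rfl⟩
    · refine one_st f (fun j h => ?_) fun h => (one_mem f).2 ⟨0, MvPolynomial.X i * h, ?_⟩
      · simp only [EN_monomial, map_sub, map_smul, LinearMap.mulLeft_apply, C_mul_monomial,
          mul_left_comm f]
      · simp only [map_zero, zero_add, LinearMap.mulLeft_apply, C_mul_monomial, mul_left_comm f]
    · refine one_st f (fun j h => ?_) fun h => (one_mem f).2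
        ⟨monomial 0 (MvPolynomial.pderiv i f * h), MvPolynomial.pderiv i h, ?_⟩
      · simp only [EN_monomial, dN_monomial, map_sub, map_smul, Derivation.leibniz, smul_eq_mul,
          map_add, mul_left_comm f, mul_comm h, Nat.cast_add, Nat.cast_one]
        module
      · simp only [EN_monomial, dN_monomial, Derivation.leibniz, smul_eq_mul,
          map_add, mul_left_comm f, mul_comm h, Nat.cast_zero]
        module
  | algebraMap c => exact fun y hy => Submodule.smul_mem _ c hy
  | add S T _ _ a b => exact fun y hy => add_mem (a y hy) (b y hy)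
  | mul S T _ _ a b => exact fun y hy => a _ (b y hy)

theorem one_EN (j : ℕ) : ∀ y ∈ one_M f, (EN f ^ j) y ∈ one_M f := by
  induction j with
  | zero => exact fun y hy => hy
  | succ j ih =>
    intro y hy
    rw [pow_succ', Module.End.mul_apply]
    exact one_st f (T := EN f) (fun _ _ => rfl)
      (fun h => (one_mem f).2 ⟨monomial 0 (f * h), -h, by simp⟩) _ (ih y hy)

end

theorem p_ONE (hWN : S_WN) :
    S_ONE := by
  intro n f f0 f1 b hb
  obtain ⟨g, g0, N, Q, hQ, e⟩ := hWN n f b hb
  obtain ⟨c, hc⟩ := Polynomial.X_sub_C_dvd_sub_C_eval (p := b) (a := -1)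
  have h1 : Polynomial.aeval (EN f) b (Polynomial.C g) ∈ one_M f := e ▸ sum_mem fun j _ =>
    one_EN f j _ (one_AN f (hQ j) _ ((one_mem f).2 ⟨0, 1, by simp⟩))
  obtain ⟨w, h, hw⟩ := (one_mem f).1 h1
  rw [sub_eq_iff_eq_add.1 hc] at hw
  simp only [map_add, map_mul, Polynomial.aeval_X, Polynomial.aeval_C, map_neg, map_one,
    LinearMap.add_apply, Module.End.mul_apply, sub_neg_eq_add, Module.End.one_apply,
    Module.algebraMap_end_apply] at hw
  generalize Polynomial.aeval (EN f) c (Polynomial.C g) = y at hw
  have h2 : EN f (w - y) + (w - y) = Polynomial.C (b.eval (-1) • g - f * h) := by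
    rw [map_sub, map_sub, ← Polynomial.smul_C, ← Polynomial.monomial_zero_left (a := f * h)]
    linear_combination hw
  generalize w - y = z at h2
  have h3 := congrArg (Polynomial.coeff · (z.natDegree + 1)) h2
  simp [EN, Polynomial.coeff_derivative, Polynomial.coeff_natDegree_succ_eq_zero, f0] at h3
  subst h3
  have h4 := congrArg (fun p => MvPolynomial.eval 0 (Polynomial.coeff p 0)) h2
  have f2 : MvPolynomial.eval 0 f = 0 := by simpa [MvPolynomial.constantCoeff_eq] using f1
  simp only [map_zero, add_zero, Polynomial.coeff_zero, Polynomial.coeff_C_zero] at h4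
  rw [map_sub, map_mul, MvPolynomial.smul_eval, f2, zero_mul, sub_zero] at h4
  exact (mul_eq_zero.1 h4.symm).resolve_right g0

end Pool.Agent.P.MP_9321be_ag.SM
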