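import Pool.Agent.P.MP_9321be_ag.SM.Iface

/-! Step RX. -/

set_option autoImplicit false
set_option linter.unusedSectionVars false

namespace Pool.Agent.P.MP_9321be_ag.SM

open Finset

section

variable {n : ℕ} {η : Fin n → R n} {A A' : Submodule ℂ (R n)}

lemma rx_mem {k : ℕ} {r : Fin n} (h : r.1 < k) {x : R n} (hx : x ∈ A) : η r * x ∈ Isp η A k :=
  Submodule.mem_iSup_of_mem r (Submodule.mem_iSup_of_mem h ⟨x, hx, rfl⟩)

lemma rx_le {k : ℕ} {U : Submodule ℂ (R n)} (h : ∀ r : Fin n, r.1 < k → ∀ x ∈ A, η r * x ∈ U) :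
    Isp η A k ≤ U := iSup₂_le fun r hr => Submodule.map_le_iff_le_comap.2 (h r hr)

lemma rx_mul (hA : ∀ r, ∀ x ∈ A, η r * x ∈ A) (k : ℕ) (r : Fin n) {w : R n} (hw : w ∈ Isp η A k) :
    η r * w ∈ Isp η A k :=
  rx_le (U := (Isp η A k).comap (LinearMap.mulLeft ℂ (η r))) (fun r' h x hx => by
    rw [Submodule.mem_comap, LinearMap.mulLeft_apply, mul_left_comm]
    exact rx_mem h (hA r x hx)) hw

end

theorem p_RX :
    S_RX := by
  intro n η A A' B h1 h2 hA hA' _ r1 r2
  have key : ∀ k : ℕ, ∀ z ∈ A', z ∈ B ⊔ Isp η A k → z ∈ B ⊔ Isp η A' k := by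
    intro k
    induction k with
    | zero =>
      exact fun z _ h => sup_le_sup_left (rx_le fun r h => absurd h (Nat.not_lt_zero _)) B h
    | succ k ih =>
      intro z hz h
      have up : B ⊔ Isp η A' k ≤ B ⊔ Isp η A' (k + 1) :=
        sup_le_sup_left (rx_le fun r h x hx => rx_mem (h.trans k.lt_succ_self) hx) B
      by_cases hk : k < n
      · have : B ⊔ Isp η A (k + 1) ≤ (B ⊔ Isp η A k) ⊔ A.map (LinearMap.mulLeft ℂ (η ⟨k, hk⟩)) :=
          sup_le (le_sup_left.trans le_sup_left) (rx_le fun r h x hx => by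
            rcases Nat.lt_succ_iff_lt_or_eq.1 h with h | rfl
            · exact Submodule.mem_sup_left (Submodule.mem_sup_right (rx_mem h hx))
            · exact Submodule.mem_sup_right ⟨x, hx, rfl⟩)
        obtain ⟨u, hu, _, ⟨a, ha, rfl⟩, e⟩ := Submodule.mem_sup.1 (this h)
        rw [LinearMap.mulLeft_apply] at e
        obtain ⟨a', ha', w, hw, rfl⟩ := Submodule.mem_sup.1 (r1 ⟨k, hk⟩ a ha (by
          rw [eq_sub_of_add_eq' e]
          exact sub_mem (Submodule.mem_sup_left hz) (sup_le_sup_right h1 _ hu)))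
        rw [← sub_add_cancel z (η ⟨k, hk⟩ * a')]
        refine add_mem (up (ih _ (sub_mem hz (hA' _ _ ha')) ?_))
          (Submodule.mem_sup_right (rx_mem k.lt_succ_self ha'))
        rw [← e, mul_add, add_sub_assoc, add_sub_cancel_left]
        exact add_mem hu (Submodule.mem_sup_right (rx_mul hA k _ hw))
      · exact up (ih z hz (sup_le_sup_left (rx_le fun r _ x hx => rx_mem (by omega) hx) B h))
  intro r x hx h
  obtain ⟨a, ha, w, hw, rfl⟩ := Submodule.mem_sup.1 (r1 r x hx (sup_le_sup_right h1 _ h))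
  refine add_mem (sup_le_sup_left (rx_le fun r h x hx => rx_mem h (h2 hx)) B
    (r2 r a ha (key r _ (hA' r a ha) ?_))) (Submodule.mem_sup_right hw)
  simpa [mul_add] using sub_mem h (Submodule.mem_sup_right (rx_mul hA r r hw))

end Pool.Agent.P.MP_9321be_ag.SM
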