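import Pool.Agent.P.MP_9321be_ag.SM.Iface

/-! Step WN. -/

set_option autoImplicit false
set_option linter.unusedSectionVars false

namespace Pool.Agent.P.MP_9321be_ag.SM

open Finset

section

variable {n : ℕ} (f : MvPolynomial (Fin n) ℂ) (k : ℕ)

/-- Evaluation at `s = k`. -/
noncomputable def wn_ev : NN n →ₗ[ℂ] MvPolynomial (Fin n) ℂ :=
  Polynomial.lsum (R := ℂ) fun j =>
    ((-1) ^ j * k.descFactorial j : ℂ) • LinearMap.mulRight ℂ (f ^ (k - j))

theorem wn_mono (j : ℕ) (h : MvPolynomial (Fin n) ℂ) : wn_ev f k (Polynomial.monomial j h) =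
    ((-1) ^ j * k.descFactorial j : ℂ) • (h * f ^ (k - j)) := by
  simp [wn_ev, Polynomial.sum_monomial_index]

theorem wn_C (h : MvPolynomial (Fin n) ℂ) : wn_ev f k (Polynomial.C h) = h * f ^ k := by
  simpa using wn_mono f k 0 h

theorem wn_step (j : ℕ) (h : MvPolynomial (Fin n) ℂ) : wn_ev f k (Polynomial.monomial (j + 1) h) =
    -(((-1) ^ j * k.descFactorial j : ℂ) • (h * (((k - j : ℕ) : MvPolynomial (Fin n) ℂ) *
      f ^ (k - j - 1)))) := by
  rw [wn_mono, Nat.descFactorial_succ, Nat.sub_sub, ← nsmul_eq_mul, mul_smul_comm,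
    ← Nat.cast_smul_eq_nsmul ℂ, smul_smul, ← neg_smul]
  congr 1
  push_cast
  ring

theorem wn_d (i : Fin n) (y : NN n) :
    wn_ev f k (dN f i y) = MvPolynomial.pderiv i (wn_ev f k y) := by
  induction y using Polynomial.induction_on' with
  | add p q h h' => simp only [map_add, h, h']
  | monomial j h =>
    rw [dN_monomial, map_sub, wn_step, wn_mono, wn_mono, Derivation.map_smul, sub_neg_eq_add,
      ← smul_add, Derivation.leibniz, Derivation.leibniz_pow]
    congr 1
    simp only [smul_eq_mul, nsmul_eq_mul]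
    ring

theorem wn_E (y : NN n) : wn_ev f k (EN f y) = (k : ℂ) • wn_ev f k y := by
  induction y using Polynomial.induction_on' with
  | add p q h h' => simp only [map_add, h, h', smul_add]
  | monomial j h =>
    rw [EN_monomial, map_sub, map_smul, wn_step, wn_mono, sub_neg_eq_add]
    rcases lt_or_ge k j with e | e
    · simp [Nat.descFactorial_eq_zero_iff_lt.2 e]
    obtain ⟨m, rfl⟩ := Nat.exists_eq_add_of_le e
    have : f * h * ((m : MvPolynomial (Fin n) ℂ) * f ^ (m - 1)) = (m : ℂ) • (h * f ^ m) := by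
      rw [Nat.cast_smul_eq_nsmul, nsmul_eq_mul]
      cases m with
      | zero => simp
      | succ m =>
        rw [Nat.add_sub_cancel]
        ring
    rw [Nat.add_sub_cancel_left, this, Nat.cast_add, add_smul, smul_comm (m : ℂ)]

theorem wn_X (g : MvPolynomial (Fin n) ℂ) (y : NN n) :
    wn_ev f k (Polynomial.C g * y) = g * wn_ev f k y := by
  induction y using Polynomial.induction_on' with
  | add p q h h' => simp only [mul_add, map_add, h, h']
  | monomial j h => rw [Polynomial.C_mul_monomial, wn_mono, wn_mono, mul_smul_comm, mul_assoc]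

theorem wn_pow (j : ℕ) (y : NN n) : wn_ev f k ((EN f ^ j) y) = (k : ℂ) ^ j • wn_ev f k y := by
  induction j with
  | zero => simp
  | succ j ih => rw [pow_succ', Module.End.mul_apply, wn_E, ih, smul_smul, pow_succ']

theorem wn_inj {y : NN n} (h : ∀ k, wn_ev f k y = 0) : y = 0 := by
  ext1 j
  induction j using Nat.strong_induction_on with
  | _ j ih =>
    have := h j
    rw [y.as_sum_support, map_sum, sum_eq_single j (fun i _ e => ?_) fun e => by
      rw [Polynomial.notMem_support_iff.1 e, map_zero, map_zero], wn_mono, Nat.descFactorial_self,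
      Nat.sub_self, pow_zero, mul_one, smul_eq_zero] at this
    · exact this.resolve_left (mul_ne_zero (pow_ne_zero _ (by simp))
        (Nat.cast_ne_zero.2 j.factorial_ne_zero))
    · rcases e.lt_or_gt with e | e
      · rw [ih i e, Polynomial.coeff_zero, map_zero, map_zero]
      · simp [wn_mono, Nat.descFactorial_eq_zero_iff_lt.2 e]

theorem wn_lift {P : Module.End ℂ (MvPolynomial (Fin n) ℂ)} (h : P ∈ weyl (Fin n)) :
    ∃ Q ∈ AN f, ∀ k y, wn_ev f k (Q y) = P (wn_ev f k y) := by
  induction h using Algebra.adjoin_induction with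
  | mem P h =>
    rcases h with ⟨i, rfl⟩ | ⟨i, rfl⟩
    · exact ⟨_, Algebra.subset_adjoin (.inl ⟨i, rfl⟩), fun k y => wn_X f k _ y⟩
    · exact ⟨_, Algebra.subset_adjoin (.inr ⟨i, rfl⟩), fun k y => wn_d f k i y⟩
  | algebraMap c => exact ⟨_, Subalgebra.algebraMap_mem _ c, fun k y => by simp⟩
  | add P P' _ _ h h' =>
    obtain ⟨Q, a, b⟩ := h
    obtain ⟨Q', a', b'⟩ := h'
    exact ⟨_, add_mem a a', fun k y => by simp [b, b']⟩
  | mul P P' _ _ h h' =>
    obtain ⟨Q, a, b⟩ := h
    obtain ⟨Q', a', b'⟩ := h'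
    exact ⟨_, Subalgebra.mul_mem _ a a', fun k y => by simp [b, b']⟩

end

theorem p_WN :
    S_WN := by
  rintro n f b ⟨g, N, P, g0, hP, h⟩
  choose Q hQ e using fun j => wn_lift f (hP j)
  refine ⟨g, g0, N, Q, hQ, sub_eq_zero.1 (wn_inj f fun k => ?_)⟩
  simp only [map_sub, map_sum, wn_pow, e, wn_C, ← pow_succ', ← h k]
  rw [Polynomial.aeval_eq_sum_range, LinearMap.sum_apply, map_sum, Polynomial.eval_eq_sum_range,
    sum_smul, sub_eq_zero]
  exact sum_congr rfl fun j _ => by rw [LinearMap.smul_apply, map_smul, wn_pow, wn_C, smul_smul]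

end Pool.Agent.P.MP_9321be_ag.SM
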