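import Pool.Agent.P.MP_9321be_ag.SM.Iface

/-! Step WP. -/

set_option autoImplicit false
set_option linter.unusedSectionVars false

namespace Pool.Agent.P.MP_9321be_ag.SM

open Finset

/-- A Weyl pair with `d` nilpotent on `z`: multiplication by `y` is injective modulo `I`. -/
theorem wp_abs {V : Type} [AddCommGroup V] [Module ℂ V] {S I : Submodule ℂ V}
    (d y : Module.End ℂ V) (hS : ∀ x ∈ S, d x ∈ S) (hc : ∀ x ∈ S, d (y x) = y (d x) + x)
    (hd : ∀ x ∈ I, d x ∈ I) (hy : ∀ x ∈ I, y x ∈ I) {z : V} (hz : z ∈ S) {m : ℕ}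
    (hm : (d ^ m) z = 0) (h : y z ∈ I) : z ∈ I := by
  have h1 : ∀ k : ℕ, (d ^ k) z ∈ S := fun k => by
    induction k with
    | zero => simpa using hz
    | succ k ih => rw [pow_succ']; exact hS _ ih
  have h2 : ∀ k : ℕ, y ((d ^ (k + 1)) z) + ((k : ℂ) + 1) • (d ^ k) z ∈ I := fun k => by
    induction k with
    | zero => simpa [hc z hz] using hd _ h
    | succ k ih =>
      have := hd _ ih
      rw [map_add, map_smul, hc _ (h1 _)] at this
      convert this using 1
      rw [pow_succ' d (k + 1), pow_succ' d k]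
      simp only [Module.End.mul_apply, Nat.cast_add, Nat.cast_one, add_smul, one_smul]
      abel
  have h3 : ∀ k : ℕ, (d ^ k) z ∈ I → z ∈ I := fun k => by
    induction k with
    | zero => simp
    | succ k ih =>
      intro hk
      refine ih ((I.smul_mem_iff (Nat.cast_add_one_ne_zero (R := ℂ) k)).1 ?_)
      simpa using sub_mem (h2 k) (hy _ hk)
  exact h3 m (hm ▸ zero_mem _)

/-- The dual coefficients of a Vandermonde matrix. -/
theorem wp_van {ι : Type} {n : ℕ} (F : Finset ι) (t : ι → ℂ) (hF : F.card = n)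
    (ht : Set.InjOn t F) (r : Fin n) :
    ∃ c : ι → ℂ, ∀ r' : Fin n, ∑ j ∈ F, c j * t j ^ r'.1 = if r = r' then 1 else 0 := by
  classical
  let σ : F ≃ Fin n := F.equivFinOfCardEq hF
  let V := Matrix.vandermonde fun i => t (σ.symm i)
  have hV : IsUnit V.det := by
    rw [isUnit_iff_ne_zero, Matrix.det_vandermonde_ne_zero_iff]
    intro i j h
    exact σ.symm.injective (Subtype.ext (ht (σ.symm i).2 (σ.symm j).2 h))
  refine ⟨fun j => if h : j ∈ F then V⁻¹ r (σ ⟨j, h⟩) else 0, fun r' => ?_⟩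
  have := congrFun (congrFun (Matrix.nonsing_inv_mul V hV) r) r'
  rw [Matrix.mul_apply, Matrix.one_apply] at this
  rw [← this, ← sum_coe_sort, ← σ.symm.sum_comp]
  refine sum_congr rfl fun i _ => ?_
  simp [V]

theorem wp_mem_Isp {n : ℕ} (η : Fin n → R n) {A : Submodule ℂ (R n)} {r : ℕ} {r' : Fin n}
    (h : r'.1 < r) {x : R n} (hx : x ∈ A) : η r' * x ∈ Isp η A r :=
  Submodule.mem_iSup_of_mem r' (Submodule.mem_iSup_of_mem h ⟨x, hx, rfl⟩)

theorem wp_Isp_map {n : ℕ} (η : Fin n → R n) {A S : Submodule ℂ (R n)} {r : ℕ}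
    (T : R n →ₗ[ℂ] R n) (h : ∀ r' : Fin n, r'.1 < r → ∀ x ∈ A, T (η r' * x) ∈ S) {y : R n}
    (hy : y ∈ Isp η A r) : T y ∈ S := by
  have : Isp η A r ≤ S.comap T := iSup₂_le fun r' hr => by
    rintro _ ⟨x, hx, rfl⟩
    exact h r' hr x hx
  exact this hy

theorem p_WP :
    S_WP := by
  classical
  intro n η W B F b ν t hF ht hWB hW hη hB r x hx hr
  obtain ⟨c, hc⟩ := wp_van F t hF ht r
  let η' : Fin n → R n := fun r => ∑ j ∈ F, t j ^ r.1 • e (b j)
  let d : Module.End ℂ (R n) := lin fun p => ∑ j ∈ F, (c j * ν j p) • e (p - b j)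
  have e1 : ∀ r p, η' r * e p = ∑ j ∈ F, t j ^ r.1 • e (p + b j) := fun r p => by
    simp only [η', sum_mul, smul_mul_assoc, ← e_add, add_comm]
  have e2 : ∀ p, d (e p) = ∑ j ∈ F, (c j * ν j p) • e (p - b j) := fun p => lin_e _ _
  have hηW : ∀ r, ∀ y ∈ sp W, η' r * y ∈ sp W := fun r y hy =>
    map_mem (LinearMap.mulLeft ℂ (η' r)) (fun p hp => by
      rw [LinearMap.mulLeft_apply, e1]
      exact sum_mem fun j hj => Submodule.smul_mem _ _ (e_mem (hW p hp j hj).1)) hy
  have hlow : ∀ m, ∀ y ∈ sp {p | p ∈ W ∧ ∑ j ∈ F, ν j p < m + 1},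
      d y ∈ sp {p | p ∈ W ∧ ∑ j ∈ F, ν j p < m} := fun m y hy =>
    map_mem d (fun p hp => by
      rw [e2]
      refine sum_mem fun j hj => ?_
      by_cases h0 : ν j p = 0
      · simp [h0]
      have hq := (hW p hp.1 j hj).2.2.2 h0
      obtain ⟨-, h1, h2, -⟩ := hW _ hq j hj
      rw [sub_add_cancel] at h1 h2
      refine Submodule.smul_mem _ _ (e_mem ⟨hq, ?_⟩)
      have h3 : ∑ k ∈ F, ν k (p - b j) < ∑ k ∈ F, ν k p :=
        sum_lt_sum (fun k hk => by
          by_cases hkj : k = j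
          · rw [hkj]; omega
          · exact (h2 k hk hkj).ge) ⟨j, hj, by omega⟩
      have := hp.2
      omega) hy
  have hlev : ∀ y ∈ sp W, ∃ m, y ∈ sp {p | p ∈ W ∧ ∑ j ∈ F, ν j p < m} := fun y hy =>
    ⟨y.coeff.support.sup (fun p => ∑ j ∈ F, ν j p) + 1, mem_sp.2 fun p hp =>
      ⟨mem_sp.1 hy p hp, Nat.lt_succ_of_le (le_sup (f := fun p => ∑ j ∈ F, ν j p) hp)⟩⟩
  have hdW : ∀ y ∈ sp W, d y ∈ sp W := fun y hy => by
    obtain ⟨m, hm⟩ := hlev y hy
    exact sp_mono (fun p hp => hp.1)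
      (hlow m y (sp_mono (fun p hp => And.intro hp.1 (Nat.lt_succ_of_lt hp.2)) hm))
  have hnil : ∀ m, ∀ y ∈ sp {p | p ∈ W ∧ ∑ j ∈ F, ν j p < m}, (d ^ m) y = 0 := fun m => by
    induction m with
    | zero =>
      intro y hy
      exact map_eq (d ^ 0) 0 (fun p hp => absurd hp.2 (Nat.not_lt_zero _)) hy
    | succ m ih =>
      intro y hy
      rw [pow_succ]
      exact ih _ (hlow m y hy)
  have hcom : ∀ r', ∀ y ∈ sp W,
      d (η' r' * y) = η' r' * d y + (if r = r' then (1 : ℂ) else 0) • y := fun r' y hy => by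
    rw [← hc r']
    exact map_eq (d ∘ₗ LinearMap.mulLeft ℂ (η' r'))
      (LinearMap.mulLeft ℂ (η' r') ∘ₗ d + (∑ j ∈ F, c j * t j ^ r'.1) • LinearMap.id)
      (fun p hp => by
        rw [LinearMap.add_apply, LinearMap.smul_apply, LinearMap.id_apply]
        simp only [LinearMap.comp_apply, LinearMap.mulLeft_apply, e1, e2, map_sum, map_smul,
          smul_sum, sum_smul]
        rw [sum_comm, ← sum_add_distrib]
        refine sum_congr rfl fun j hj => ?_
        have : ∀ k ∈ F, t k ^ r'.1 • (c j * ν j (p + b k)) • e (p + b k - b j) =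
            (c j * ν j p) • t k ^ r'.1 • e (p - b j + b k) +
              if j = k then (c j * t j ^ r'.1) • e p else 0 := fun k hk => by
          by_cases hjk : j = k
          · subst hjk
            rw [if_pos rfl, (hW p hp j hj).2.1, add_sub_cancel_right, sub_add_cancel]
            push_cast
            module
          · rw [if_neg hjk, (hW p hp k hk).2.2.1 j hj hjk, add_zero, smul_comm, add_sub_right_comm]
        rw [sum_congr rfl this, sum_add_distrib, sum_ite_eq, if_pos hj]) hy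
  have hdiff : ∀ r', ∀ y ∈ sp W, η r' * y - η' r' * y ∈ sp B := fun r' y hy =>
    map_mem (LinearMap.mulLeft ℂ (η r') - LinearMap.mulLeft ℂ (η' r')) (fun p hp => by
      simpa [e1] using hη r' p hp) hy
  have hπB : ∀ y ∈ sp B, fl W y = 0 := fun y hy =>
    fl_of_disj (fun p hp h => Set.disjoint_left.1 hWB h hp) hy
  have hπW : ∀ y ∈ sp (W ∪ B), fl W y ∈ sp W := fun y hy =>
    sp_mono Set.inter_subset_right (fl_mem W hy)
  have hrest : ∀ y ∈ sp (W ∪ B), y - fl W y ∈ sp B := fun y hy =>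
    sp_mono (fun p hp => hp.1.resolve_left hp.2) (sub_fl_mem W hy)
  have hπ : ∀ r', ∀ y ∈ sp (W ∪ B), fl W (η r' * y) = η' r' * fl W y := fun r' y hy => by
    have h1 := hπB _ (add_mem (hB r' _ (hrest y hy)) (hdiff r' _ (hπW y hy)))
    rw [mul_sub, sub_add_sub_cancel, map_sub, fl_of_mem (hηW r' _ (hπW y hy))] at h1
    exact sub_eq_zero.1 h1
  have key : fl W x ∈ Isp η' (sp W) r := by
    obtain ⟨m, hm⟩ := hlev _ (hπW x hx)
    refine wp_abs d (LinearMap.mulLeft ℂ (η' r)) hdW (fun y hy => by simpa using hcom r y hy)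
      (fun y hy => wp_Isp_map η' d (fun r' hr' y hy => ?_) hy)
      (fun y hy => wp_Isp_map η' _ (fun r' hr' y hy => ?_) hy) (hπW x hx) (hnil m _ hm) ?_
    · rw [hcom r' y hy, if_neg (fun h => by rw [h] at hr'; exact lt_irrefl _ hr'), zero_smul,
        add_zero]
      exact wp_mem_Isp η' hr' (hdW y hy)
    · rw [LinearMap.mulLeft_apply, mul_left_comm]
      exact wp_mem_Isp η' hr' (hηW r y hy)
    · obtain ⟨u, hu, v, hv, huv⟩ := Submodule.mem_sup.1 hr
      rw [LinearMap.mulLeft_apply, ← hπ r x hx, ← huv, map_add, hπB u hu, zero_add]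
      refine wp_Isp_map η _ (fun r' hr' y hy => ?_) hv
      rw [hπ r' y hy]
      exact wp_mem_Isp η' hr' (hπW y hy)
  have : fl W x ∈ sp B ⊔ Isp η (sp (W ∪ B)) r :=
    wp_Isp_map η' LinearMap.id (fun r' hr' y hy => by
      have := sub_mem (Submodule.mem_sup_right (S := sp B)
        (wp_mem_Isp η hr' (sp_mono Set.subset_union_left hy : y ∈ sp (W ∪ B))))
        (Submodule.mem_sup_left (hdiff r' y hy))
      simpa using this) key
  simpa using add_mem (Submodule.mem_sup_left (hrest x hx)) this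

end Pool.Agent.P.MP_9321be_ag.SM
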