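import Pool.Agent.P.MP_9321be_ag.SM.Iface

/-! Step CHI. -/

set_option autoImplicit false
set_option linter.unusedSectionVars false

namespace Pool.Agent.P.MP_9321be_ag.SM

open Finset

variable {n : ℕ} {f : MvPolynomial (Fin n) ℂ} {D : Dat f} {i : Fin n}

lemma chi_sub : D.Z i ⊆ D.F0 := (filter_subset _ _).trans D.hG

lemma chi_inl {j : Gn n} (h : j ∈ D.Z i) : ∃ b, j = .inl b := by
  rcases j with b | i'
  · exact ⟨b, rfl⟩
  have := (mem_filter.1 h).2.2.1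
  simp only [wv, Pi.single_apply] at this
  split_ifs at this
  omega

lemma chi_two (hi : i ∈ D.I0) (h : 1 ≤ ∑ j ∈ D.Z i, D.l j) :
    ∃ b b', Sum.inl b ∈ D.Z i ∧ Sum.inl b' ∈ D.Z i ∧ b ≠ b' := by
  have h1 : (1 : ℝ) = ∑ j ∈ D.F0, D.l j * wv j i := by
    simpa [p0, Dat.l] using D.mi_expand D.hF0 (p0 n D.α) i
  have h2 : ∀ j, 0 ≤ D.l j * wv j i := fun j => by
    by_cases e : j ∈ D.Gs
    · simp [Dat.mem_I0.1 hi j e]
    · exact mul_nonneg (Dat.l_nonneg e) (Nat.cast_nonneg _)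
  rw [← sum_sdiff (chi_sub (i := i)), sum_congr (s₁ := D.Z i) (g := D.l) rfl fun j hj => by
    simp [(mem_filter.1 hj).2.2.1]] at h1
  have h3 : ∀ j ∈ D.G, j ∉ D.Z i → wv j i = 0 := fun j hj e => by
    rcases mul_eq_zero.1 ((sum_eq_zero_iff_of_nonneg fun j _ => h2 j).1 (le_antisymm (by linarith)
      (sum_nonneg fun j _ => h2 j)) j (mem_sdiff.2 ⟨D.hG hj, e⟩)) with e' | e'
    · exact Dat.mem_I0.1 hi j (Dat.mem_Gs.2 ⟨hj, e'.le⟩)
    · exact_mod_cast e'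
  obtain ⟨a, ha⟩ : (D.Z i).Nonempty := nonempty_of_sum_ne_zero (f := D.l) (by linarith)
  obtain ⟨a1, a2, a3, a4⟩ := mem_filter.1 ha
  obtain ⟨a', ha', e⟩ : ∃ a' ∈ D.Z i, a' ≠ a := by
    by_contra! e
    obtain ⟨i', b1, b2, b3⟩ := D.noU a a1 i a3 fun j hj e' => h3 j hj fun h => e' (e j h)
    exact b2 (a4 i' (Dat.mem_I0.2 fun j hj => b3 j (Dat.mem_Gs.1 hj).1 fun e' =>
      (Dat.mem_Gs.1 hj).2.not_gt (e' ▸ a2)) b1)
  obtain ⟨b, rfl⟩ := chi_inl ha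
  obtain ⟨b', rfl⟩ := chi_inl ha'
  exact ⟨b', b, ha', ha, fun h => e (h ▸ rfl)⟩

lemma chi_PZ {b : Fin n →₀ ℕ} (h : Sum.inl b ∈ D.Z i) : b ∈ D.PZ i := by
  classical
  refine mem_filter.2 ⟨inl_mem_gens.1 (D.sub _ D.hF0 (chi_sub h)), D.tight _ D.hF0 _ (chi_sub h),
    fun j hj => ?_⟩
  by_cases e : j ∈ D.F0
  · rw [D.dual _ D.hF0 j e _ (chi_sub h), if_neg fun e' : j = .inl b => hj (e' ▸ h)]
  · exact D.dt_off e _

lemma chi_lam {a : Fin n →₀ ℕ} (ha : a ∈ D.PZ i) : (∀ j, 0 ≤ dt (D.d D.F0 j) (pt (.inl a))) ∧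
    ∀ b, Sum.inl b ∈ D.Z i → a ≠ b → dt (D.d D.F0 (.inl b)) (pt (.inl a)) < 1 := by
  classical
  obtain ⟨a1, a2, a3⟩ := mem_filter.1 ha
  have h0 := D.cone _ D.hF0 _ (inl_mem_gens.2 a1) a2
  refine ⟨h0, fun b hb e => not_le.1 fun h => e (Finsupp.ext fun i' => ?_)⟩
  have h1 := D.k_expand D.hF0 a2
  rw [← sum_subset (chi_sub (i := i)) fun j _ hj => by rw [a3 j hj, zero_mul],
    sum_congr (g := fun j => dt (D.d D.F0 j) (pt (.inl a))) rfl fun j hj => by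
      obtain ⟨c, rfl⟩ := chi_inl hj
      exact mul_one _, ← add_sum_erase _ _ hb, show (pt (.inl a : Gn n)).1 = 1 from rfl] at h1
  have h2 := sum_nonneg fun j (_ : j ∈ (D.Z i).erase (.inl b)) => h0 j
  have h3 := D.mi_expand D.hF0 (pt (.inl a)) i'
  rw [sum_eq_single_of_mem _ (chi_sub hb) fun j _ e' => by
    by_cases hj : j ∈ D.Z i
    · rw [(sum_eq_zero_iff_of_nonneg fun j _ => h0 j).1 (le_antisymm (by linarith) h2) j
        (mem_erase.2 ⟨e', hj⟩), zero_mul]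
    · rw [a3 j hj, zero_mul], le_antisymm (by linarith : _ ≤ (1 : ℝ)) h] at h3
  simpa [pt, wv] using h3

theorem p_CHI (hINT : S_INT) (hROOT : S_ROOT) :
    S_CHI := by
  classical
  intro n f D
  obtain ⟨N, N0, hw⟩ := hINT n f D.toFan _ D.hF0
  choose w hw using hw
  have hN : (0 : ℝ) < N := by exact_mod_cast N0
  have key : ∀ i, ∃ (y : ℂ) (W : Fin n → ℤ), y ≠ 0 ∧ (i ∈ D.I0 → 1 ≤ ∑ j ∈ D.Z i, D.l j →
      ∑ a ∈ D.PZ i, MvPolynomial.coeff a f * y ^ (W ⬝ᵥ fun r => a r) = 0) ∧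
      ∀ i', i' ≠ i → i ∈ D.I0 → ∀ a ∈ D.PZ i', (W ⬝ᵥ fun r => a r) = 0 := fun i => by
    by_cases h : i ∈ D.I0 ∧ 1 ≤ ∑ j ∈ D.Z i, D.l j
    swap
    · exact ⟨1, 0, one_ne_zero, fun a b => absurd ⟨a, b⟩ h, fun _ _ _ _ _ => zero_dotProduct _⟩
    obtain ⟨b, b', hb, hb', e⟩ := chi_two h.1 h.2
    have hk : ∀ a : Fin n →₀ ℕ, (((w (.inl b) - w (.inl b')) ⬝ᵥ fun r => a r : ℤ) : ℝ) =
        N * (dt (D.d D.F0 (.inl b)) (pt (.inl a)) - dt (D.d D.F0 (.inl b')) (pt (.inl a))) :=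
      fun a => by simp [dotProduct, hw, dt_apply, rv_pt, wv, mul_sub, sub_mul, mul_sum, mul_assoc]
    have du := fun j hj j' hj' => D.dual _ D.hF0 j (chi_sub (i := i) hj) j' (chi_sub (i := i) hj')
    have c0 : ∀ a ∈ D.PZ i, MvPolynomial.coeff a f ≠ 0 := fun a ha =>
      MvPolynomial.mem_support_iff.1 (mem_filter.1 ha).1
    obtain ⟨y, y0, hy⟩ := hROOT _ (D.PZ i) (fun a => MvPolynomial.coeff a f)
      (fun a => (w (.inl b) - w (.inl b')) ⬝ᵥ fun r => a r) b b' (chi_PZ hb) (chi_PZ hb') e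
      (c0 _ (chi_PZ hb)) (c0 _ (chi_PZ hb')) (fun a ha e' => by
        rw [← Int.cast_lt (R := ℝ), hk, hk, du _ hb _ hb', du _ hb' _ hb', if_pos rfl,
          if_neg (Sum.inl_injective.ne e)]
        exact mul_lt_mul_of_pos_left
          (by linarith [(chi_lam ha).1 (.inl b), (chi_lam ha).2 b' hb' e']) hN) fun a ha e' => by
        refine ne_of_lt ?_
        rw [← Int.cast_lt (R := ℝ), hk, hk, du _ hb _ hb, du _ hb' _ hb, if_pos rfl,
          if_neg (Sum.inl_injective.ne e.symm)]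
        exact mul_lt_mul_of_pos_left
          (by linarith [(chi_lam ha).1 (.inl b'), (chi_lam ha).2 b hb e']) hN
    refine ⟨y, _, y0, fun _ _ => hy, fun i' e' hi a ha => ?_⟩
    have h1 : ∀ j ∈ D.Z i, dt (D.d D.F0 j) (pt (.inl a)) = 0 := fun j hj =>
      (mem_filter.1 ha).2.2 j fun hj' => one_ne_zero
        ((mem_filter.1 hj).2.2.1.symm.trans ((mem_filter.1 hj').2.2.2 i hi e'.symm))
    rw [← Int.cast_eq_zero (α := ℝ), hk, h1 _ hb, h1 _ hb', sub_zero, mul_zero]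
  choose y W y0 h1 h2 using key
  refine ⟨fun m => ∏ i ∈ D.I0, y i ^ (W i ⬝ᵥ m),
    fun m => prod_ne_zero_iff.2 fun i _ => zpow_ne_zero _ (y0 i), fun m m' => ?_, fun i hi h => ?_⟩
  · simp only [dotProduct_add, zpow_add₀ (y0 _), prod_mul_distrib]
  · refine (sum_congr rfl fun a ha => ?_).trans (h1 i hi h)
    exact congrArg _ (prod_eq_single_of_mem i hi fun i' hi' e => by
      rw [h2 i' i e.symm hi' a ha, zpow_zero])

end Pool.Agent.P.MP_9321be_ag.SM
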