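import Pool.Agent.P.MP_9321be_ag.SM.Iface

/-! Step EV. -/

set_option autoImplicit false
set_option linter.unusedSectionVars false

namespace Pool.Agent.P.MP_9321be_ag.SM

open Finset

section

variable {n : ℕ} {f : MvPolynomial (Fin n) ℂ} {D : Dat f} {p q : L n} {i : Fin n}
  {a a' : Fin n →₀ ℕ}

/-- The points seen by the evaluation. -/
structure ev_Good (D : Dat f) (p : L n) : Prop where
  k : p.1 = D.α
  r : p.2.2 = 0
  on : ps (D.u D.F0) p = 0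
  m : ∀ i ∈ D.I0, p.2.1 i = 1
  l : ∀ j, (∀ i ∈ D.I0, j ∉ D.Z i) → dt (D.d D.F0 j) p = D.l j

lemma ev_Z {j : Gn n} :
    j ∈ D.Z i ↔ j ∈ D.G ∧ 0 < D.l j ∧ wv j i = 1 ∧ ∀ i' ∈ D.I0, i' ≠ i → wv j i' = 0 := mem_filter

lemma ev_kp {j : Gn n} (h : wv j i = 1) : kp j = 1 := by
  cases j with
  | inl a => rfl
  | inr k =>
    simp only [wv, Pi.single_apply] at h
    split_ifs at h
    omega

lemma ev_mem : a ∈ D.PZ i ↔ a ∈ f.support ∧ ps (D.u D.F0) (pt (Sum.inl a)) = 0 ∧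
    ∀ j ∉ D.Z i, dt (D.d D.F0 j) (pt (Sum.inl a)) = 0 := by
  classical
  exact mem_filter

lemma ev_B0 (h : ev_Good D p) : p ∉ D.B0 ∪ {p | wt p ≤ D.α - 1} := by
  rintro (e | e)
  · have := e.2 ⟨_, D.F0_mem, h.on⟩
    rw [Dat.o0, Dat.od_eq e.1 D.F0_mem h.on, Dat.od_eq D.p0_R0 D.F0_mem D.on0, h.r,
      sum_congr rfl fun i _ => h.l _ fun _ _ e => by simpa [kp] using ev_kp (ev_Z.1 e).2.2.1] at this
    exact this.false
  · have : p.1 + p.2.2 ≤ _ := e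
    linarith [h.k, h.r]

lemma ev_sum (i : Fin n) (c : Gn n → ℝ) (h : ∀ j ∈ D.F0, j ∉ D.Z i → c j = 0) :
    ∑ j ∈ D.F0, c j = ∑ j ∈ D.Z i, c j :=
  (sum_subset ((filter_subset _ _).trans D.hG) h).symm

lemma ev_PZ (h : a ∈ D.PZ i) : ∑ j ∈ D.Z i, dt (D.d D.F0 j) (pt (Sum.inl a)) = 1 ∧ a i = 1 ∧
    ∀ i' ∈ D.I0, i' ≠ i → a i' = 0 := by
  obtain ⟨-, h1, h2⟩ := ev_mem.1 h
  have h3 := D.k_expand D.hF0 h1
  have h4 := fun i' => D.mi_expand D.hF0 (pt (Sum.inl a)) i'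
  rw [ev_sum i _ fun j _ e => by rw [h2 j e, zero_mul],
    sum_congr rfl fun j e => by rw [ev_kp (ev_Z.1 e).2.2.1, mul_one]] at h3
  refine ⟨h3.symm, ?_, fun i' e e' => ?_⟩
  · have := h4 i
    rw [ev_sum i _ fun j _ e => by rw [h2 j e, zero_mul],
      sum_congr rfl fun j e => by rw [(ev_Z.1 e).2.2.1, Nat.cast_one, mul_one], ← h3] at this
    simpa [pt, wv, kp] using this
  · have := h4 i'
    rw [ev_sum i _ fun j _ e => by rw [h2 j e, zero_mul],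
      sum_eq_zero fun j e'' => by rw [(ev_Z.1 e'').2.2.2 i' e e', Nat.cast_zero, mul_zero]] at this
    simpa [pt, wv] using this

lemma ev_swap (hi : i ∈ D.I0) (ha : a ∈ D.PZ i) (ha' : a' ∈ D.PZ i)
    (h : ev_Good D (q + pt (Sum.inl a))) : ev_Good D (q + pt (Sum.inl a')) := by
  refine ⟨h.k, h.r, ?_, fun i' e => ?_, fun j e => ?_⟩
  · rw [← h.on, map_add, map_add, (ev_mem.1 ha).2.1, (ev_mem.1 ha').2.1]
  · rw [← h.m i' e]
    change _ + ((a' i' : ℕ) : ℤ) = _ + ((a i' : ℕ) : ℤ)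
    by_cases e' : i' = i
    · rw [e', (ev_PZ ha).2.1, (ev_PZ ha').2.1]
    · rw [(ev_PZ ha).2.2 i' e e', (ev_PZ ha').2.2 i' e e']
  · rw [← h.l j e, map_add, map_add, (ev_mem.1 ha).2.2 j (e i hi), (ev_mem.1 ha').2.2 j (e i hi)]

lemma ev_act (hi : i ∈ D.I0) (ha : a ∈ D.PZ i) (hq : q ∈ D.R0)
    (h : ev_Good D (q + pt (Sum.inl a))) : 1 ≤ ∑ j ∈ D.Z i, D.l j := by
  have h1 := D.mi_expand D.hF0 (q + pt (Sum.inl a)) i
  have h2 : ((1 : ℤ) : ℝ) = ∑ j ∈ D.F0, D.l j * wv j i := D.mi_expand D.hF0 (p0 n D.α) i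
  rw [h.m i hi, h2, ← sub_eq_zero, ← sum_sub_distrib, ev_sum i _ fun j _ e => by
    by_cases e' : ∀ i ∈ D.I0, j ∉ D.Z i
    · rw [h.l j e', sub_self]
    · push Not at e'
      obtain ⟨i', e1, e2⟩ := e'
      rw [(ev_Z.1 e2).2.2.2 i hi fun e3 => e (e3 ▸ e2)]
      simp, sum_sub_distrib, sub_eq_zero] at h1
  have h3 := h.on
  rw [map_add, (ev_mem.1 ha).2.1, add_zero] at h3
  rw [sum_congr rfl fun j e => by rw [(ev_Z.1 e).2.2.1, Nat.cast_one, mul_one]] at h1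
  rw [← (ev_PZ ha).1, h1]
  refine sum_le_sum fun j e => ?_
  rw [(ev_Z.1 e).2.2.1, Nat.cast_one, mul_one, map_add]
  exact le_add_of_nonneg_left (Dat.dt_nonneg hq D.F0_mem h3
    fun e' => (Dat.mem_Gs.1 e').2.not_gt (ev_Z.1 e).2.1)

lemma ev_key {g : Gn n} (hq : q ∈ D.A (D.PP False Set.univ) {i}) (hg : g ∈ gens f)
    (h0 : wv g i ≠ 0) (h : ev_Good D (q + pt g)) : i ∈ D.I0 ∧ ∃ a ∈ D.PZ i, g = Sum.inl a := by
  obtain ⟨h1, h2⟩ := Dat.ps_add_zero hq.1.1 (Dat.pt_R0 hg) D.F0_mem h.on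
  have c := D.cone _ D.hF0 g hg h2
  obtain ⟨p1, p2, -⟩ := hq.1.2 ⟨_, D.F0_mem, h1⟩
  simp only [Dat.lm_eq hq.1.1 D.F0_mem h1] at p1 p2
  have hm : ∀ i' ∈ D.I0, q.2.1 i' + wv g i' = 1 := h.m
  have x : ∀ i', (wv g i' : ℝ) = ∑ j ∈ D.F0, dt (D.d D.F0 j) (pt g) * wv j i' := fun i' => by
    simpa [pt] using D.mi_expand D.hF0 (pt g) i'
  have h4 : ∀ j, dt (D.d D.F0 j) (pt g) ≠ 0 →
      j ∈ D.G ∧ 0 < D.l j ∧ ∃ i' ∈ D.I0, wv j i' ≠ 0 := fun j e => by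
    by_contra e'
    have e1 := h.l j fun i' a b => e' ⟨(ev_Z.1 b).1, (ev_Z.1 b).2.1, i', a,
      (ev_Z.1 b).2.2.1 ▸ one_ne_zero⟩
    rw [map_add] at e1
    refine e (le_antisymm ?_ (c j))
    suffices D.l j ≤ dt (D.d D.F0 j) q by linarith
    by_cases a : j ∈ D.Gs
    · exact p1 j a
    by_cases b : j ∈ D.G
    · have := not_le.1 fun e => a (Dat.mem_Gs.2 ⟨b, e⟩)
      exact p2 not_false j (Dat.mem_t2.2 ⟨b, this, fun i' a => not_not.1 fun d =>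
        e' ⟨b, this, i', a, d⟩⟩)
    · exact (Dat.l_off b).trans_le (Dat.dt_nonneg hq.1.1 D.F0_mem h1 a)
  have h5 : ∀ j, dt (D.d D.F0 j) (pt g) ≠ 0 → ∀ i' ∈ D.I0, i' ≠ i → wv j i' = 0 :=
    fun j e i' a b => by
      have e1 := hq.2 i' a (by simpa using b)
      have e2 := hm i' a
      have e3 := x i'
      rw [show wv g i' = 0 by omega, Nat.cast_zero, eq_comm, sum_eq_zero_iff_of_nonneg fun j _ =>
        mul_nonneg (c j) (Nat.cast_nonneg _)] at e3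
      simpa [e] using e3 j (D.hG (h4 j e).1)
  have h6 : ∀ j, dt (D.d D.F0 j) (pt g) ≠ 0 → i ∈ D.I0 ∧ wv j i ≠ 0 := fun j e => by
    obtain ⟨i', a, b⟩ := (h4 j e).2.2
    obtain rfl : i' = i := not_not.1 fun d => b (h5 j e i' a d)
    exact ⟨a, b⟩
  obtain ⟨j, -, e⟩ := exists_ne_zero_of_sum_ne_zero ((x i).symm.trans_ne (Nat.cast_ne_zero.2 h0))
  have hi := (h6 j (left_ne_zero_of_mul e)).1
  have h7 : wv g i = 1 := by
    have := hq.1.1.2 i hi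
    have := hm i hi
    omega
  have h8 : ∑ j ∈ D.F0, dt (D.d D.F0 j) (pt g) * (wv j i - kp j) = 0 := by
    simp only [mul_sub, sum_sub_distrib]
    rw [← x i, ← D.k_expand D.hF0 h2, h7, Nat.cast_one, sub_eq_zero]
    exact (ev_kp h7).symm
  have k1 : ∀ j : Gn n, kp j ≤ 1 := by rintro (_ | _) <;> simp [kp]
  rw [sum_eq_zero_iff_of_nonneg fun j _ => by
    by_cases e : dt (D.d D.F0 j) (pt g) = 0
    · rw [e, zero_mul]
    · exact mul_nonneg (c j) (sub_nonneg.2 ((k1 j).trans (Nat.one_le_cast.2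
        (Nat.pos_of_ne_zero (h6 j e).2))))] at h8
  cases g with
  | inr k => simpa [kp] using ev_kp h7
  | inl a =>
    refine ⟨hi, a, ev_mem.2 ⟨inl_mem_gens.1 hg, h2, fun j b => not_not.1 fun e => b
      (ev_Z.2 ⟨(h4 j e).1, (h4 j e).2.1, ?_, h5 j e⟩)⟩, rfl⟩
    have e1 := sub_eq_zero.1 ((mul_eq_zero.1 (h8 j (D.hG (h4 j e).1))).resolve_left e)
    have e2 : wv j i ≤ 1 := by exact_mod_cast e1.trans_le (k1 j)
    have := (h6 j e).2
    omega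

end

theorem p_EV (hCHI : S_CHI) :
    S_EV := by
  classical
  intro n f D z hz h
  obtain ⟨χ, c0, c1, c2⟩ := hCHI n f D
  let E : R n →ₗ[ℂ] ℂ := lin fun p => if ev_Good D p then χ p.2.1 else 0
  have e0 : ∀ p, ¬ ev_Good D p → E (e p) = 0 := fun p a => (lin_e _ p).trans (if_neg a)
  have e1 : ∀ p, ev_Good D p → E (e p) = χ p.2.1 := fun p a => (lin_e _ p).trans (if_pos a)
  have e2 : ∀ x ∈ sp (D.B0 ∪ {p | wt p ≤ D.α - 1}), E x = 0 := fun x hx =>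
    map_eq E 0 (fun p a => e0 p fun b => ev_B0 b a) hx
  have e3 : ∀ i, E (th f (mi i) * z i) = 0 := fun i =>
    map_eq (E ∘ₗ LinearMap.mulLeft ℂ (th f (mi i))) 0 (fun q hq => by
      change E (th f (mi i) * e q) = 0
      simp only [th_mul_e, map_sum, map_smul, mi_pt]
      have z0 : ∀ g, ¬ (wv g i ≠ 0 ∧ ev_Good D (q + pt g)) →
          (cf f g * ((wv g i : ℝ) : ℂ)) • E (e (q + pt g)) = 0 := fun g a => by
        by_cases b : wv g i = 0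
        · simp [b]
        · rw [e0 _ fun d => a ⟨b, d⟩, smul_zero]
      by_cases a : ∃ g ∈ gens f, wv g i ≠ 0 ∧ ev_Good D (q + pt g)
      swap
      · exact sum_eq_zero fun g hg => z0 g fun b => a ⟨g, hg, b⟩
      obtain ⟨g, hg, a1, a2⟩ := a
      obtain ⟨hi, a, ha, rfl⟩ := ev_key hq hg a1 a2
      rw [← sum_subset (s₁ := (D.PZ i).map .inl) (fun g b => by
        obtain ⟨a, d, rfl⟩ := mem_map.1 b
        exact inl_mem_gens.2 (ev_mem.1 d).1) fun g b d => z0 g fun b' => by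
          obtain ⟨-, a, ha, rfl⟩ := ev_key hq b b'.1 b'.2
          exact d (mem_map_of_mem _ ha), sum_map, ← mul_zero (-χ q.2.1),
        ← c2 i hi (ev_act hi ha hq.1.1 a2), mul_sum]
      refine sum_congr rfl fun a' b => ?_
      change (cf f (.inl a') * ((a' i : ℝ) : ℂ)) • E (e (q + pt (.inl a'))) = _
      rw [e1 _ (ev_swap hi ha b a2), (ev_PZ b).2.1]
      change _ • χ (q.2.1 + fun i' => (a' i' : ℤ)) = _
      rw [c1]
      simp [cf]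
      ring) (mem_sp_inter.1 (hz i)).1
  have := e2 _ (sp_mono Set.subset_union_left h)
  rw [map_sub, map_sum, sum_eq_zero fun i _ => by
    rw [Dp_apply, map_add, e3, add_zero, nd, e2 _ (dg_mem _ (mem_sp_inter.1 (hz i)).2)], sub_zero,
    e1 _ ⟨rfl, rfl, D.on0, fun _ _ => rfl, fun _ _ => rfl⟩] at this
  exact c0 _ this

end Pool.Agent.P.MP_9321be_ag.SM
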