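import Pool.Agent.P.MP_9321be_ag.SM.Iface

/-! Step FAN. -/

set_option autoImplicit false
set_option linter.unusedSectionVars false

namespace Pool.Agent.P.MP_9321be_ag.SM

open Finset

lemma fan_lin {n : ℕ} {g : Gn n} {S : Finset (Gn n)} {μ : Gn n → ℝ}
    (h : ∀ i, (wv g i : ℝ) = ∑ b ∈ S, μ b * wv b i) (x : Fin n → ℝ) :
    dt x (pt g) = ∑ b ∈ S, μ b * dt x (pt b) := by
  simp only [dt_apply, dotProduct, rv_pt, h, mul_sum]
  rw [sum_comm]
  exact sum_congr rfl fun _ _ => sum_congr rfl fun _ _ => by ring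

lemma fan_ray {n : ℕ} (x : Fin n → ℝ) (i : Fin n) : dt x (pt (Sum.inr i)) = x i * 2 := by
  simp [dt_apply, dotProduct, rv_pt, wv, Pi.single_apply]

theorem p_FAN (hFB : S_FB) (hFE : S_FE) (hFM : S_FM) (hFD : S_FD) :
    S_FAN := by
  classical
  intro n f hf
  have M := hFM n f (hFB n f hf)
  obtain ⟨FF, mem⟩ : ∃ FF : Finset (Finset (Gn n)), ∀ F, F ∈ FF ↔
      F.card = n ∧ ∃ v, Feas f v ∧ IsB f v F :=
    ⟨(gens f).powerset.filter fun F => F.card = n ∧ ∃ v, Feas f v ∧ IsB f v F, fun F =>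
      mem_filter.trans (and_iff_right_of_imp fun ⟨_, _, _, h⟩ => mem_powerset.2 h.sub)⟩
  choose! u u1 u2 using fun F h => ((mem F).1 h).2
  obtain ⟨d, d1, d2⟩ : ∃ d : Finset (Gn n) → Gn n → Fin n → ℝ, (∀ F, ∀ j ∉ F, d F j = 0) ∧
      ∀ F ∈ FF, (∀ j ∈ F, ∀ j' ∈ F, dt (d F j) (pt j') = if j = j' then 1 else 0) ∧
        ∀ (x : Fin n → ℝ) (i : Fin n), x i = ∑ j ∈ F, (d F j ⬝ᵥ x) * wv j i := by
    choose d d1 d2 using fun F h => (hFD n F (u2 F h).ind).2.2 ((mem F).1 h).1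
    exact ⟨fun F => if h : F ∈ FF then d F h else 0, fun F j hj => by
      by_cases h : F ∈ FF <;> simp [h, d1, hj], fun F h => by simpa only [dif_pos h] using d2 F h⟩
  have uq : ∀ F ∈ FF, ∀ S ⊆ F, ∀ (g : Gn n) (μ : Gn n → ℝ),
      (∀ i, (wv g i : ℝ) = ∑ b ∈ S, μ b * wv b i) → ∀ j,
      dt (d F j) (pt g) = if j ∈ S then μ j else 0 := fun F hF S hS g μ h j => by
    by_cases hj : j ∈ F
    · rw [fan_lin h, sum_congr rfl fun b hb => by rw [(d2 F hF).1 j hj b (hS hb)]]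
      simp
    · simp [dt_apply, d1 F j hj, mt (@hS j) hj]
  have up : ∀ k v B, Feas f v → IsB f v B → n ≤ #B + k → ∃ F ∈ FF, B ⊆ F := fun k => by
    induction k with
    | zero => exact fun v B a b c =>
      ⟨B, (mem B).2 ⟨(hFD n B b.ind).1.antisymm c, v, a, b⟩, Subset.rfl⟩
    | succ k ih =>
      intro v B a b c
      rcases le_or_gt n #B with e | e
      · exact ih v B a b (by omega)
      obtain ⟨x, i, x1, x2⟩ : ∃ (x : Fin n → ℝ) (i : Fin n), x i < 0 ∧ ∀ b ∈ B, dt x (pt b) = 0 := by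
        obtain ⟨x, x1, x2⟩ := (hFD n B b.ind).2.1 e
        obtain ⟨i, hi⟩ := Function.ne_iff.1 x1
        rcases lt_or_gt_of_ne hi with o | o
        · exact ⟨x, i, o, x2⟩
        · exact ⟨-x, i, neg_lt_zero.2 o, fun b hb => by simpa [dt_apply] using x2 b hb⟩
      obtain ⟨v', B', a', b', c', g, g1, g2⟩ := M v B a b x (fun b hb => (x2 b hb).ge)
        ⟨_, inr_mem_gens f i, by rw [fan_ray]; linarith⟩
      have s : B ⊆ B' := fun b hb => (c' b hb).2 (x2 b hb)
      have := card_lt_card ((ssubset_iff_of_subset s).2 ⟨g, g1, g2⟩)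
      exact (ih v' B' a' b' (by omega)).imp fun F h => ⟨h.1, s.trans h.2⟩
  refine ⟨⟨FF, u, d, fun F h => (u2 F h).sub, fun F h => ((mem F).1 h).1, u1,
    fun F h => (u2 F h).tight, d1, fun F h => (d2 F h).1, fun F h => (d2 F h).2,
    fun F h g a b j => ?_, fun F h F' h' => (hFE n f _ F (u2 F h)).2 _ F' (u1 F' h') (u2 F' h'),
    fun F h => (hFE n f _ F (u2 F h)).1, fun F h j hj => ?_, fun v hv => ?_⟩⟩
  · obtain ⟨μ, m1, m2⟩ := (u2 F h).cone g a b
    rw [uq F h F Subset.rfl g μ m2]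
    split_ifs
    exacts [m1 j, le_rfl]
  · have e := (d2 F h).1 j hj
    by_cases o : ∃ g ∈ gens f, dt (d F j) (pt g) < 0
    · obtain ⟨v', B', a', b', c', g, g1, g2⟩ := M _ F (u1 F h) (u2 F h) _
        (fun b hb => by rw [e b hb]; split_ifs <;> norm_num) o
      have s : F.erase j ⊆ B' := fun b hb => (c' b (mem_of_mem_erase hb)).2 (by
        rw [e b (mem_of_mem_erase hb), if_neg (ne_of_mem_erase hb).symm])
      have := card_le_card (insert_subset g1 s)
      rw [card_insert_of_notMem (mt mem_of_mem_erase g2), card_erase_add_one hj,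
        ((mem F).1 h).1] at this
      exact .inl ⟨B', (mem B').2 ⟨(hFD n B' b'.ind).1.antisymm this, v', a', b'⟩, s,
        fun a => by simpa [e j hj] using (c' j hj).1 a⟩
    · have p : ∀ i, 0 ≤ d F j i := fun i => by
        have := not_lt.1 fun a => o ⟨_, inr_mem_gens f i, a⟩
        rw [fan_ray] at this
        linarith
      obtain ⟨i, -, hi⟩ := exists_ne_zero_of_sum_ne_zero
        (show ∑ i, d F j i * rv (pt j) i ≠ 0 from (e j hj).trans_ne (by simp))
      refine .inr ⟨i, by simpa [rv_pt] using right_ne_zero_of_mul hi, fun b hb => ?_⟩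
      have := (sum_eq_zero_iff_of_nonneg fun i _ => mul_nonneg (p i) (by simp [rv_pt])).1
        (show ∑ i, d F j i * rv (pt b) i = 0 from
          (e b (mem_of_mem_erase hb)).trans (if_neg (ne_of_mem_erase hb).symm)) i (mem_univ _)
      simpa [rv_pt, left_ne_zero_of_mul hi] using this
  · obtain ⟨B, hB⟩ := hFB n f hf v hv
    obtain ⟨F, h, s⟩ := up n v B hv hB (by omega)
    refine ⟨F, h, fun g a b => ?_⟩
    obtain ⟨μ, -, m⟩ := hB.cone g a b
    refine ⟨?_, fun j hj => hB.tight j (by_contra fun o => hj (by rw [uq F h B s g μ m, if_neg o]))⟩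
    have : dt (u F) (pt g) = dt v (pt g) := by
      rw [fan_lin m, fan_lin m]
      exact sum_congr rfl fun b hb => congrArg _ ((sub_eq_zero.1 ((u2 F h).tight b (s hb))).trans
        (sub_eq_zero.1 (hB.tight b hb)).symm)
    exact (congrArg (· - _) this).trans b

end Pool.Agent.P.MP_9321be_ag.SM
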