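import Pool.Agent.P.MP_9321be_ag.SM.Iface

/-! Step FB. -/

set_option autoImplicit false
set_option linter.unusedSectionVars false

namespace Pool.Agent.P.MP_9321be_ag.SM

open Finset

section

variable {n : ℕ} {f : MvPolynomial (Fin n) ℂ} {v : Fin n → ℝ}

/-- The primitive direction of a generator. -/
noncomputable def fb_dir : Gn n → Fin n → ℝ
  | .inl a => fun i => a i
  | .inr i => Pi.single i 1

theorem fb_wv (g : Gn n) (i : Fin n) : (wv g i : ℝ) = (2 - kp g) * fb_dir g i := by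
  cases g with
  | inl a => norm_num [wv, kp, fb_dir]
  | inr j => by_cases h : i = j <;> simp [wv, kp, fb_dir, h]

theorem fb_pos (g : Gn n) : 0 < 2 - kp g := by cases g <;> norm_num [kp]

theorem fb_ps (g : Gn n) : ps v (pt g) = (2 - kp g) * ∑ i, fb_dir g i * v i - kp g := by
  rw [ps_apply, dotProduct, mul_sum]
  congr 1
  exact sum_congr rfl fun i _ => by rw [rv_pt, fb_wv]; ring

theorem fb_inl (a : Fin n →₀ ℕ) : ps v (pt (.inl a)) = ∑ i, (a i : ℝ) * v i - 1 := by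
  norm_num [fb_ps, kp, fb_dir]

theorem fb_inr (i : Fin n) : ps v (pt (.inr i)) = 2 * v i := by
  simp [fb_ps, kp, fb_dir, Pi.single_apply]

theorem fb_mem {x : Fin n → ℝ} :
    x ∈ faceGens f v ↔ ∃ g ∈ gens f, ps v (pt g) = 0 ∧ fb_dir g = x := by
  refine ⟨?_, ?_⟩
  · rintro (⟨a, h1, h2, rfl⟩ | ⟨i, h1, rfl⟩)
    · exact ⟨.inl a, inl_mem_gens.2 h1, by rw [fb_inl, h2, sub_self], rfl⟩
    · exact ⟨.inr i, inr_mem_gens f i, by rw [fb_inr, h1, mul_zero], rfl⟩
  · rintro ⟨a | i, h1, h2, rfl⟩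
    · exact Or.inl ⟨a, inl_mem_gens.1 h1, by rwa [fb_inl, sub_eq_zero] at h2, rfl⟩
    · exact Or.inr ⟨i, by simpa [fb_inr] using h2, rfl⟩

theorem fb_inj {g g' : Gn n} (h : ps v (pt g) = 0) (h' : ps v (pt g') = 0)
    (e : fb_dir g = fb_dir g') : g = g' := by
  rw [fb_ps] at h h'
  rw [e] at h
  rcases g with a | i <;> rcases g' with a' | i'
  · exact congrArg _ (Finsupp.ext fun i => Nat.cast_injective (R := ℝ) (congrFun e i))
  · simp only [kp] at h h'
    linarith
  · simp only [kp] at h h'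
    linarith
  · by_contra h1
    simpa [fb_dir, show i ≠ i' from fun e => h1 (e ▸ rfl)] using congrFun e i

end

open Classical in
theorem p_FB :
    S_FB := by
  intro n f hf v hv
  obtain ⟨S, h1, h2, h3⟩ := hf v
    (fun i => by simpa [fb_inr] using hv _ (inr_mem_gens f i))
    fun a ha => by simpa [fb_inl] using hv _ (inl_mem_gens.2 ha)
  have e : S = fb_dir '' ↑{g ∈ gens f | ps v (pt g) = 0 ∧ fb_dir g ∈ S} := by
    refine Set.ext fun x => ⟨fun hx => ?_, ?_⟩
    · obtain ⟨g, a, b, rfl⟩ := fb_mem.1 (h1 hx)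
      exact ⟨g, mem_filter.2 ⟨a, b, hx⟩, rfl⟩
    · rintro ⟨g, a, rfl⟩
      exact (mem_filter.1 a).2.2
  rw [e] at h2 h3
  refine ⟨{g ∈ gens f | ps v (pt g) = 0 ∧ fb_dir g ∈ S}, filter_subset _ _,
    fun b hb => (mem_filter.1 hb).2.1, fun μ h b hb => ?_, fun g a b => ?_⟩
  · refine (mul_eq_zero.1 (linearIndepOn_finset_iff.1 (h2.comp_of_image fun g a g' a' =>
      fb_inj (mem_filter.1 a).2.1 (mem_filter.1 a').2.1) (fun g => μ g * (2 - kp g))
        (funext fun i => ?_) b hb)).resolve_right (fb_pos b).ne'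
    simpa [fb_wv, mul_assoc] using h i
  · obtain ⟨c, hc⟩ := (Submodule.mem_span_image_finset_iff_exists_fun' NNReal).1
      (h3 (fb_mem.2 ⟨g, a, b, rfl⟩))
    refine ⟨fun j => (2 - kp g) * c j / (2 - kp j),
      fun j => div_nonneg (mul_nonneg (fb_pos g).le (c j).2) (fb_pos j).le, fun i => ?_⟩
    rw [fb_wv, ← hc, Finset.sum_apply, mul_sum]
    refine sum_congr rfl fun j _ => ?_
    have := (fb_pos j).ne'
    rw [fb_wv, Pi.smul_apply, NNReal.smul_def, smul_eq_mul]
    field_simp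

end Pool.Agent.P.MP_9321be_ag.SM
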