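import Pool.Agent.P.MP_9321be_ag.SM.Iface

/-! Step FE. -/

set_option autoImplicit false
set_option linter.unusedSectionVars false

namespace Pool.Agent.P.MP_9321be_ag.SM

open Finset

theorem fe_lin {n : ℕ} {v : Fin n → ℝ} {B : Finset (Gn n)} {g : Gn n} {μ : Gn n → ℝ}
    (hB : ∀ b ∈ B, ps v (pt b) = 0) (hg : ps v (pt g) = 0)
    (h : ∀ i, (wv g i : ℝ) = ∑ b ∈ B, μ b * wv b i) :
    kp g = ∑ b ∈ B, μ b * kp b ∧ ∀ v', ps v' (pt g) = ∑ b ∈ B, μ b * ps v' (pt b) := by
  have h1 (x : Fin n → ℝ) : dt x (pt g) = ∑ b ∈ B, μ b * dt x (pt b) := by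
    simp only [dt_apply, dotProduct, rv_pt, h, mul_sum]
    rw [sum_comm]
    exact sum_congr rfl fun _ _ => sum_congr rfl fun _ _ => by ring
  have h2 : kp g = ∑ b ∈ B, μ b * kp b :=
    (sub_eq_zero.1 hg).symm.trans ((h1 v).trans (sum_congr rfl fun b hb =>
      congrArg (μ b * ·) (sub_eq_zero.1 (hB b hb))))
  refine ⟨h2, fun x => (congrArg₂ (· - ·) (h1 x) h2).trans ?_⟩
  rw [← sum_sub_distrib]
  exact sum_congr rfl fun b _ => (mul_sub _ _ _).symm

theorem p_FE :
    S_FE := by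
  classical
  intro n f v B hB
  refine ⟨fun i hi => ?_, fun v' B' hv hB' j hj h0 => ?_⟩
  · have t : ps v (pt (Sum.inr i)) = 0 := by
      simp [ps_apply, pt, kp, rv, wv, dotProduct, Pi.single_apply, hi]
    obtain ⟨μ, h1, h2⟩ := hB.cone _ (inr_mem_gens f i) t
    have h3 := (sum_eq_zero_iff_of_nonneg fun b _ => mul_nonneg (h1 b)
      (by cases b <;> simp [kp])).1 (fe_lin hB.tight t h2).1.symm
    obtain ⟨b, hb, h4⟩ := exists_ne_zero_of_sum_ne_zero ((h2 i).symm.trans_ne (by simp [wv]))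
    rcases b with a | i'
    · exact absurd (by simpa [kp] using h3 _ hb) (left_ne_zero_of_mul h4)
    · obtain rfl : i = i' := by_contra fun e => h4 (by simp [wv, e])
      exact hb
  · obtain ⟨μ, h1, h2⟩ := hB.cone _ (hB'.sub hj) h0
    have h3 := (sum_eq_zero_iff_of_nonneg fun b hb => mul_nonneg (h1 b) (hv b (hB.sub hb))).1
      (((fe_lin hB.tight h0 h2).2 v').symm.trans (hB'.tight j hj))
    have h4 (b) : ∃ ν : Gn n → ℝ, (∀ c, 0 ≤ ν c) ∧ (b ∈ B → μ b ≠ 0 →
        ∀ i, (wv b i : ℝ) = ∑ c ∈ B', ν c * wv c i) := by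
      by_cases h : b ∈ B ∧ μ b ≠ 0
      · obtain ⟨ν, a, a'⟩ := hB'.cone b (hB.sub h.1) ((mul_eq_zero.1 (h3 b h.1)).resolve_left h.2)
        exact ⟨ν, a, fun _ _ => a'⟩
      · exact ⟨0, fun _ => le_rfl, fun a a' => (h ⟨a, a'⟩).elim⟩
    choose ν h5 h6 using h4
    have h7 := hB'.ind (fun c => ∑ b ∈ B, μ b * ν b c - if c = j then 1 else 0) fun i => by
      simp only [sub_mul, sum_sub_distrib, ite_mul, one_mul, zero_mul, sum_ite_eq', if_pos hj,
        sum_mul, h2 i]
      rw [sum_comm, sub_eq_zero]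
      refine sum_congr rfl fun b hb => ?_
      by_cases e : μ b = 0
      · simp [e]
      · simp only [h6 b hb e i, mul_sum, mul_assoc]
    obtain ⟨b, hb, h8⟩ := exists_ne_zero_of_sum_ne_zero
      ((sub_eq_zero.1 (h7 j hj)).trans_ne (by simp))
    have e := left_ne_zero_of_mul h8
    have h9 (F : Gn n → ℝ) : ∑ c ∈ B', ν b c * F c = ν b j * F j :=
      sum_eq_single_of_mem j hj fun c hc a => mul_eq_zero_of_left ((mul_eq_zero.1
        ((sum_eq_zero_iff_of_nonneg fun b _ => mul_nonneg (h1 b) (h5 b c)).1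
          (by simpa [a] using h7 c hc) b hb)).resolve_left e) _
    have k1 := (fe_lin hB'.tight ((mul_eq_zero.1 (h3 b hb)).resolve_left e) (h6 b hb e)).1
    have k2 (i) := (h6 b hb e i).trans (h9 fun c => wv c i)
    have k3 := right_ne_zero_of_mul h8
    rw [h9] at k1
    convert hb
    rcases j with a | i <;> rcases b with a' | i' <;> simp only [kp, mul_one, mul_zero] at k1
    · congr 1
      ext i
      simpa [← k1, wv] using (k2 i).symm
    · exact absurd k1.symm k3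
    · exact absurd k1 one_ne_zero
    · congr 1
      by_contra a
      simpa [wv, a, k3] using k2 i

end Pool.Agent.P.MP_9321be_ag.SM
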