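import Pool.Agent.P.MP_9321be_ag.SM.Iface

/-! Step FM. -/

set_option autoImplicit false
set_option linter.unusedSectionVars false

namespace Pool.Agent.P.MP_9321be_ag.SM

open Finset

theorem fm_dt {n : ℕ} (x : Fin n → ℝ) (g : Gn n) (B : Finset (Gn n)) (μ : Gn n → ℝ)
    (h : ∀ i, (wv g i : ℝ) = ∑ b ∈ B, μ b * wv b i) :
    dt x (pt g) = ∑ b ∈ B, μ b * dt x (pt b) := by
  simp only [dt_apply, dotProduct, rv_pt, h, mul_sum]
  rw [sum_comm]
  exact sum_congr rfl fun b _ => sum_congr rfl fun i _ => by ring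

theorem fm_ps {n : ℕ} (v x : Fin n → ℝ) (t : ℝ) (p : L n) :
    ps (v + t • x) p = ps v p + t * dt x p := by
  simp only [ps_apply, dt_apply, add_dotProduct, smul_dotProduct, smul_eq_mul]
  ring

theorem fm_diff {n : ℕ} (u v : Fin n → ℝ) (p : L n) : ps u p = ps v p + dt (u - v) p := by
  simp only [ps_apply, dt_apply, sub_dotProduct]
  ring

theorem p_FM (hFE : S_FE) :
    S_FM := by
  intro n f hex v B hv hB x hx hneg
  classical
  have hpos : ∀ g ∈ gens f, dt x (pt g) < 0 → 0 < ps v (pt g) := by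
    intro g hg hlt
    rcases (hv g hg).lt_or_eq with h | h
    · exact h
    · obtain ⟨μ, hμ, hw⟩ := hB.cone g hg h.symm
      have : 0 ≤ dt x (pt g) := by
        rw [fm_dt x g B μ hw]
        exact sum_nonneg fun b hb => mul_nonneg (hμ b) (hx b hb)
      linarith
  obtain ⟨g1, hg1, hg1n⟩ := hneg
  obtain ⟨g0, hg0, hmin⟩ := exists_min_image ((gens f).filter fun g => dt x (pt g) < 0)
    (fun g => ps v (pt g) / (-dt x (pt g))) ⟨g1, mem_filter.2 ⟨hg1, hg1n⟩⟩
  obtain ⟨hg0g, hg0n⟩ := mem_filter.1 hg0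
  set t : ℝ := ps v (pt g0) / (-dt x (pt g0)) with ht
  have htpos : 0 < t := div_pos (hpos g0 hg0g hg0n) (by linarith)
  have hfeas : Feas f (v + t • x) := by
    intro g hg
    rw [fm_ps]
    by_cases hlt : dt x (pt g) < 0
    · have h1 := hmin g (mem_filter.2 ⟨hg, hlt⟩)
      have h2 : 0 < -dt x (pt g) := by linarith
      rw [le_div_iff₀ h2] at h1
      linarith
    · have := mul_nonneg htpos.le (not_lt.1 hlt)
      linarith [hv g hg]
  obtain ⟨B', hB'⟩ := hex _ hfeas
  have hg0t : ps (v + t • x) (pt g0) = 0 := by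
    rw [fm_ps, ht]
    have h2 : dt x (pt g0) ≠ 0 := hg0n.ne
    field_simp
    ring
  refine ⟨v + t • x, B', hfeas, hB', fun b hb => ⟨fun h => ?_, fun h => ?_⟩, ?_⟩
  · have h1 := hB'.tight b h
    rw [fm_ps, hB.tight b hb, zero_add] at h1
    exact (mul_eq_zero.1 h1).resolve_left htpos.ne'
  · refine (hFE n f _ B' hB').2 v B hv hB b hb ?_
    rw [fm_ps, hB.tight b hb, h]
    ring
  · by_contra hcon
    push Not at hcon
    obtain ⟨μ, hμ, hw⟩ := hB'.cone g0 hg0g hg0t
    have h1 : ps v (pt g0) = ∑ b ∈ B', μ b * dt (v - (v + t • x)) (pt b) := by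
      rw [fm_diff v (v + t • x), hg0t, zero_add, fm_dt _ g0 B' μ hw]
    have h2 : ∀ b ∈ B', dt (v - (v + t • x)) (pt b) = 0 := by
      intro b hb
      have h3 := fm_diff v (v + t • x) (pt b)
      rw [hB.tight b (hcon b hb), hB'.tight b hb, zero_add] at h3
      exact h3.symm
    rw [sum_eq_zero fun b hb => by rw [h2 b hb, mul_zero]] at h1
    exact (hpos g0 hg0g hg0n).ne' h1

end Pool.Agent.P.MP_9321be_ag.SM
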