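import Pool.Agent.P.MP_9321be_ag.SM.Iface

/-! Step G0. -/

set_option autoImplicit false
set_option linter.unusedSectionVars false

namespace Pool.Agent.P.MP_9321be_ag.SM

open Finset

variable {n : ℕ} {f : MvPolynomial (Fin n) ℂ}

theorem g0_ps (u : Fin n → ℝ) (a : Fin n →₀ ℕ) :
    ps u ((0, fun i => a i, 0) : L n) = ∑ i, u i * a i := by
  simp [ps_apply, rv, dotProduct]

theorem g0_R0 (D : Dat f) (a : Fin n →₀ ℕ) : ((0, fun i => a i, 0) : L n) ∈ D.R0 :=
  ⟨fun F hF => by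
    rw [g0_ps]
    exact sum_nonneg fun i _ => mul_nonneg (D.u_nonneg (Dat.FS_FF hF) i) (Nat.cast_nonneg _),
    fun i _ => Nat.cast_nonneg _⟩

theorem g0_od (D : Dat f) {a : Fin n →₀ ℕ} (ha : a ≠ 0)
    (h : D.ON ((0, fun i => a i, 0) : L n)) : 0 < D.od ((0, fun i => a i, 0) : L n) := by
  obtain ⟨F, hF, h⟩ := h
  have h1 := h
  rw [g0_ps, sum_eq_zero_iff_of_nonneg fun i _ =>
    mul_nonneg (D.u_nonneg (Dat.FS_FF hF) i) (Nat.cast_nonneg _)] at h1
  have h2 := D.dt_unique (Dat.FS_FF hF) (p := ((0, fun i => a i, 0) : L n))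
    (c := Sum.elim 0 fun i => (a i : ℝ) / 2) (S := a.support.image Sum.inr) (fun j hj => by
      obtain ⟨i, hi, rfl⟩ := mem_image.1 hj
      exact D.ray F (Dat.FS_FF hF) i ((mul_eq_zero.1 (h1 i (mem_univ i))).resolve_right
        (Nat.cast_ne_zero.2 (Finsupp.mem_support_iff.1 hi)))) fun i => by
      rw [sum_image fun _ _ _ _ => Sum.inr.inj]
      by_cases e : a i = 0 <;> simp [wv, Pi.single_apply, e]
  obtain ⟨i, hi⟩ := Finsupp.ne_iff.1 ha
  rw [Dat.od_eq (g0_R0 D a) hF h, sub_zero]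
  refine sum_pos' (fun i _ => ?_) ⟨i, mem_univ i, ?_⟩
  · rw [h2]
    split_ifs
    exacts [by simp only [Sum.elim_inr]; positivity, le_rfl]
  · rw [h2, if_pos (mem_image_of_mem _ (Finsupp.mem_support_iff.2 hi)), Sum.elim_inr]
    exact half_pos (Nat.cast_pos.2 (Nat.pos_of_ne_zero hi))

theorem p_G0 :
    S_G0 := by
  intro n f g D
  induction g using MvPolynomial.induction_on' with
  | add g g' h h' =>
    refine ⟨by simpa only [map_add, add_mul] using add_mem h.1 h'.1, ?_⟩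
    convert add_mem h.2 h'.2 using 1
    simp only [map_add, add_mul, add_smul]
    abel
  | monomial a c =>
    have h1 := Dat.R0_add D.p0_R0 (g0_R0 D a)
    rw [em_monomial, smul_mul_assoc, mul_comm, ← e_add]
    refine ⟨Submodule.smul_mem _ _ (e_mem ⟨⟨h1, fun _ => trivial⟩,
      Dat.DJ_add (fun i _ _ => le_rfl) (g0_R0 D a)⟩), ?_⟩
    by_cases ha : a = 0
    · subst ha
      have : ((0, fun i => (0 : Fin n →₀ ℕ) i, 0) : L n) = 0 := rfl
      rw [this]
      simp
    · obtain ⟨i, hi⟩ := Finsupp.ne_iff.1 ha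
      rw [MvPolynomial.eval_monomial, Finsupp.prod, prod_eq_zero (Finsupp.mem_support_iff.2 hi)
        (zero_pow hi), mul_zero, zero_smul, sub_zero]
      refine Submodule.smul_mem _ _ (e_mem ⟨h1, fun h => ?_⟩)
      obtain ⟨-, h2, -, h3⟩ := Dat.on_add D.p0_R0 (g0_R0 D a) h
      rw [h3]
      exact lt_add_of_pos_right _ (g0_od D ha h2)

end Pool.Agent.P.MP_9321be_ag.SM
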