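import Pool.Agent.P.MP_9321be_ag.SM.Iface

/-! Step GR1. -/

set_option autoImplicit false
set_option linter.unusedSectionVars false

namespace Pool.Agent.P.MP_9321be_ag.SM

open Finset

variable {n : ℕ} {f : MvPolynomial (Fin n) ℂ}

/-- A window of weights. -/
def gr1_H (a : ℝ) : Set (L n) := {p | a - 1 < wt p ∧ wt p ≤ a}

theorem gr1_fl (a : ℝ) (ψ : L n →+ ℝ) (x : R n) :
    fl (gr1_H (a + 1)) (th f ψ * x) = th f ψ * fl (gr1_H a) x := by
  have := map_eq (fl (gr1_H (a + 1)) ∘ₗ LinearMap.mulLeft ℂ (th f ψ))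
    (LinearMap.mulLeft ℂ (th f ψ) ∘ₗ fl (gr1_H a)) (fun p _ => by
      have e1 : ∀ g, p + pt g ∈ gr1_H (a + 1) ↔ p ∈ gr1_H a := fun g => by
        simp only [gr1_H, Set.mem_ofPred_eq, map_add, wt_pt]
        constructor <;> rintro ⟨h, h'⟩ <;> constructor <;> linarith
      simp only [LinearMap.comp_apply, LinearMap.mulLeft_apply]
      by_cases h : p ∈ gr1_H a
      · rw [fl_e_mem h, th_mul_e, map_sum]
        exact sum_congr rfl fun g _ => by rw [map_smul, fl_e_mem ((e1 g).2 h)]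
      · rw [fl_e_not h, th_mul_e, map_sum, mul_zero]
        exact sum_eq_zero fun g _ => by rw [map_smul, fl_e_not (mt (e1 g).1 h), smul_zero])
    (mem_sp_univ x)
  simpa only [LinearMap.comp_apply, LinearMap.mulLeft_apply] using this

theorem gr1_step {A : Finset (Fin n) → Set (L n)} {B : Set (L n)} (hE : EX f A B)
    (hA : ∀ i j, ∀ x ∈ sp (A {i, j}), Dp f (mi j) x ∈ sp (A {i})) {w t : ℝ} (h : w ≤ t)
    (z : Fin n → R n) (h1 : ∀ i, z i ∈ sp (A {i})) (h2 : ∀ i, z i ∈ sp (B ∪ {p | wt p ≤ t}))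
    (h3 : ∑ i, Dp f (mi i) (z i) ∈ sp (B ∪ {p | wt p ≤ w})) :
    ∃ z' : Fin n → R n, (∀ i, z' i ∈ sp (A {i})) ∧ (∀ i, z' i ∈ sp (B ∪ {p | wt p ≤ t - 1})) ∧
      ∑ i, Dp f (mi i) (z' i) = ∑ i, Dp f (mi i) (z i) := by
  have k : ∀ a ≤ t, ∀ x ∈ sp (B ∪ {p | wt p ≤ a}), fl (gr1_H (t + 1)) x ∈ sp B :=
    fun a ha x hx => sp_mono (fun p hp => hp.1.resolve_right fun e => by
      have h4 : wt p ≤ a := e
      have := hp.2.1
      linarith) (fl_mem _ hx)
  have a1 : ∑ i, th f (mi i) * fl (gr1_H t) (z i) ∈ sp B := by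
    convert sub_mem (k w h _ h3) (sum_mem (t := univ) fun (i : Fin n) _ =>
      k t le_rfl _ (dg_mem (fun p => (mi i p : ℂ)) (h2 i))) using 1
    simp only [map_sum, Dp_apply, map_add, gr1_fl, sum_add_distrib, nd, add_sub_cancel_left]
  obtain ⟨v, v1, v2, v3⟩ := hE _ (fun i => sp_mono Set.inter_subset_left (fl_mem _ (h1 i))) a1
  refine ⟨fun i => z i - ∑ j, Dp f (mi j) (fl (gr1_H (t - 1)) (v i j)), fun i => sub_mem (h1 i)
    (sum_mem fun j _ => hA i j _ (sp_mono Set.inter_subset_left (fl_mem _ (v2 i j)))),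
    fun i => ?_, ?_⟩
  · have b1 : z i - fl (gr1_H t) (z i) ∈ sp (B ∪ {p | wt p ≤ t - 1}) :=
      sp_mono (fun p hp => hp.1.imp_right fun e => not_lt.1 fun e' => hp.2 ⟨e', e⟩)
        (sub_fl_mem _ (h2 i))
    have b2 := sp_mono (Set.inter_subset_left.trans (Set.subset_union_left (t := {p | wt p ≤ t - 1})))
      (fl_mem (gr1_H t) (v3 i))
    have b3 : ∑ j, nd (mi j) (fl (gr1_H (t - 1)) (v i j)) ∈ sp (B ∪ {p | wt p ≤ t - 1}) :=
      sum_mem fun j _ => dg_mem _ (sp_mono (fun p hp => .inr hp.2.2) (fl_mem _ (mem_sp_univ _)))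
    have e := fun j => gr1_fl (f := f) (t - 1) (mi j) (v i j)
    rw [sub_add_cancel] at e
    rw [map_sub, fl_of_mem (sp_mono Set.inter_subset_right (fl_mem _ (h1 i))), map_sum] at b2
    convert sub_mem (add_mem b1 b2) b3 using 1
    simp only [Dp_apply, e, sum_add_distrib]
    abel
  · have e : ∑ i, ∑ j, Dp f (mi i) (Dp f (mi j) (fl (gr1_H (t - 1)) (v i j))) =
        -∑ i, ∑ j, Dp f (mi i) (Dp f (mi j) (fl (gr1_H (t - 1)) (v i j))) := by
      conv_rhs => rw [sum_comm]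
      simp only [← sum_neg_distrib]
      exact sum_congr rfl fun i _ => sum_congr rfl fun j _ => by
        rw [v1 i j, Dp_comm, map_neg, map_neg, map_neg]
    rw [eq_neg_iff_add_eq_zero, ← two_smul ℂ, smul_eq_zero, or_iff_right two_ne_zero] at e
    simp only [map_sub, map_sum, sum_sub_distrib, e, sub_zero]

theorem p_GR1 :
    S_GR1 := by
  intro n f A B hE _ hA w z h1 h3
  obtain ⟨M, hM⟩ := ((univ.biUnion fun i => (z i).coeff.support).image wt).bddAbove
  obtain ⟨N, hN⟩ := exists_nat_ge (M - (w - 1))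
  have h2 : ∀ i, z i ∈ sp (B ∪ {p | wt p ≤ w - 1 + N}) := fun i => mem_sp.2 fun p hp => .inr (by
    have : wt p ≤ M := hM (mem_coe.2 (mem_image_of_mem _ (mem_biUnion.2 ⟨i, mem_univ i, hp⟩)))
    exact this.trans (by linarith))
  clear hN hM
  induction N generalizing z with
  | zero => exact ⟨z, fun i => mem_sp_inter.2 ⟨h1 i, by simpa using h2 i⟩, rfl⟩
  | succ N ih =>
    obtain ⟨z', a, b, c⟩ := gr1_step hE hA (by push_cast; linarith [N.cast_nonneg (α := ℝ)])
      z h1 h2 h3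
    rw [← c] at h3 ⊢
    exact ih z' a h3 (by simpa only [Nat.cast_succ, ← add_assoc, add_sub_cancel_right] using b)

end Pool.Agent.P.MP_9321be_ag.SM
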