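import Pool.Agent.P.MP_9321be_ag.SM.Iface

/-! Step GR2. -/

set_option autoImplicit false
set_option linter.unusedSectionVars false

namespace Pool.Agent.P.MP_9321be_ag.SM

open Finset

theorem gr2_anti {n : ℕ} (t : Fin n → R n) (v : Fin n → Fin n → R n)
    (hv : ∀ i j, v i j = -v j i) : ∑ i, t i * ∑ j, t j * v i j = 0 := by
  have h : ∑ i, t i * ∑ j, t j * v i j = -∑ i, t i * ∑ j, t j * v i j := by
    simp only [mul_sum]
    conv_lhs => rw [sum_comm]
    rw [← sum_neg_distrib]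
    refine sum_congr rfl fun i _ => ?_
    rw [← sum_neg_distrib]
    refine sum_congr rfl fun j _ => ?_
    rw [hv j i]
    ring
  have h2 : (2 : ℂ) • ∑ i, t i * ∑ j, t j * v i j = 0 := by
    rw [two_smul]
    exact eq_neg_iff_add_eq_zero.1 h
  exact (smul_eq_zero.1 h2).resolve_left two_ne_zero

theorem gr2_step (hWIN : S_WIN) {n : ℕ} {f : MvPolynomial (Fin n) ℂ} (D : Dat f)
    (hf : ND.Nondeg f) (c : Prop) {U V W : Set ℝ} (hU : IsUpperSet U) (hV : IsUpperSet V)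
    (hW : IsUpperSet W) (hUV : U ⊆ V) (hVW : V ⊆ W) (h1 : ∀ o ∈ W, o + 1 ∈ V)
    (ih : EX f (D.A (D.PP c V)) (D.Rg (D.QQ c U))) :
    EX f (D.A (D.PP c W)) (D.Rg (D.QQ c U)) := by
  intro z hz hs
  obtain ⟨v, a1, a2, a3⟩ := hWIN n f D hf c W V hW hV h1 z hz
    (sp_mono (Dat.Rg_mono fun a o h => h.imp id fun h => hUV h) hs)
  set z' : Fin n → R n := fun i => z i - ∑ j, th f (mi j) * v i j with hz'
  have b1 : ∀ i, z' i ∈ sp (D.A (D.PP c W) {i}) := fun i =>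
    sub_mem (hz i) (sum_mem fun j _ =>
      Dat.th_A (Dat.mono_PP c hW) j (by rw [pair_comm]; exact a2 i j))
  have b2 : ∀ i, z' i - fl (D.Rg (D.QQ c U)) (z' i) ∈ sp (D.A (D.PP c V) {i}) := fun i => by
    refine sp_mono ?_ (sub_fl_mem _ (mem_sp_inter.2 ⟨b1 i, a3 i⟩))
    rintro p ⟨⟨⟨⟨p1, p2⟩, p3⟩, -, p4⟩, p5⟩
    refine ⟨⟨p1, fun h => ⟨(p2 h).1, (p2 h).2.1, ?_⟩⟩, p3⟩
    exact (p4 h).resolve_left fun e => p5 ⟨p1, fun _ => Or.inl e⟩
  have b3 : ∀ i, fl (D.Rg (D.QQ c U)) (z' i) ∈ sp (D.Rg (D.QQ c U)) := fun i =>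
    sp_mono Set.inter_subset_right (fl_mem _ (b1 i))
  have b4 : ∑ i, th f (mi i) * (z' i - fl (D.Rg (D.QQ c U)) (z' i)) ∈ sp (D.Rg (D.QQ c U)) := by
    have e : ∑ i, th f (mi i) * z' i = ∑ i, th f (mi i) * z i := by
      simp only [hz', mul_sub, sum_sub_distrib, gr2_anti _ v a1, sub_zero]
    simp only [mul_sub, sum_sub_distrib, e]
    exact sub_mem hs (sum_mem fun i _ => (Dat.cl_Rg (Dat.mono_QQ c hU)).th _ (b3 i))
  obtain ⟨w, c1, c2, c3⟩ := ih _ b2 b4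
  refine ⟨fun i j => v i j + w i j, fun i j => by
    beta_reduce; rw [a1 i j, c1 i j, neg_add], fun i j =>
    add_mem (a2 i j) (sp_mono (Dat.A_mono (fun a o h => ⟨h.1, h.2.1, hVW h.2.2⟩) subset_rfl)
      (c2 i j)), fun i => ?_⟩
  convert add_mem (b3 i) (c3 i) using 1
  simp only [hz', mul_add, sum_add_distrib]
  abel

theorem p_GR2 (hWIN : S_WIN) :
    S_GR2 := by
  intro n f D hf c U hU ⟨o, ho⟩
  have hup : ∀ N : ℕ, IsUpperSet (U ∪ Set.Ici (o - N)) := fun N => hU.union (isUpperSet_Ici _)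
  have key : ∀ N : ℕ, EX f (D.A (D.PP c (U ∪ Set.Ici (o - N)))) (D.Rg (D.QQ c U)) := fun N => by
    induction N with
    | zero =>
      intro z hz _
      refine ⟨0, fun _ _ => by simp, fun _ _ => zero_mem _, fun i => ?_⟩
      simp only [Pi.zero_apply, mul_zero, sum_const_zero, sub_zero]
      refine sp_mono (Set.inter_subset_left.trans (Dat.Rg_mono fun a o' h => Or.inr ?_)) (hz i)
      exact h.2.2.elim id fun h => hU (by simpa using h) ho
    | succ N ih =>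
      refine gr2_step hWIN D hf c hU (hup N) (hup (N + 1)) Set.subset_union_left
        (Set.union_subset_union_right _ (Set.Ici_subset_Ici.2 (by push_cast; linarith)))
        (fun o' h => h.imp (hU (by linarith)) fun h => ?_) ih
      have : o - ((N + 1 : ℕ) : ℝ) ≤ o' := h
      push_cast at this
      exact (by linarith : o - N ≤ o' + 1)
  intro z hz hs
  obtain ⟨b, hb⟩ := ((univ.biUnion fun i => (z i).coeff.support).image fun p => o - D.od p).bddAbove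
  obtain ⟨N, hN⟩ := exists_nat_ge b
  obtain ⟨v, a1, a2, a3⟩ := key N z (fun i => mem_sp.2 fun p hp => by
    obtain ⟨⟨p1, p2⟩, p3⟩ := mem_sp.1 (hz i) p hp
    refine ⟨⟨p1, fun h => ⟨(p2 h).1, (p2 h).2.1, Or.inr ?_⟩⟩, p3⟩
    have := hb (mem_coe.2 (mem_image_of_mem _ (mem_biUnion.2 ⟨i, mem_univ _, hp⟩)))
    exact (by linarith : o - N ≤ D.od p)) hs
  exact ⟨v, a1, fun i j => sp_mono
    (Dat.A_mono (fun a o h => ⟨h.1, h.2.1, trivial⟩) subset_rfl) (a2 i j), a3⟩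

end Pool.Agent.P.MP_9321be_ag.SM
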