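import Pool.Agent.P.MP_9321be_ag.SM.Iface

/-! Step INT. -/

set_option autoImplicit false
set_option linter.unusedSectionVars false

namespace Pool.Agent.P.MP_9321be_ag.SM

open Finset

theorem p_INT :
    S_INT := by
  intro n f Φ F hF
  obtain ⟨e⟩ : Nonempty (Fin n ≃ F) := ⟨(F.equivFinOfCardEq (Φ.card F hF)).symm⟩
  obtain ⟨W, hW⟩ : ∃ W : Matrix (Fin n) (Fin n) ℤ, ∀ i k, W i k = wv (e k).1 i :=
    ⟨.of fun i k => wv (e k).1 i, fun _ _ => rfl⟩
  have h1 : (Matrix.of fun k i => Φ.d F (e k) i) * (Int.castRingHom ℝ).mapMatrix W = 1 := by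
    ext k k'
    have := Φ.dual F hF _ (e k).2 _ (e k').2
    simpa [Matrix.mul_apply, Matrix.one_apply, hW, dt_apply, dotProduct, rv_pt] using this
  have h2 := congrArg (· * ((Int.castRingHom ℝ).mapMatrix W).adjugate) h1
  have h3 := congrArg Matrix.det h1
  simp only [Matrix.mul_assoc, Matrix.mul_adjugate, Matrix.one_mul, Matrix.mul_smul,
    Matrix.mul_one] at h2
  rw [← RingHom.map_det, ← RingHom.map_adjugate] at h2
  rw [Matrix.det_mul, ← RingHom.map_det, Matrix.det_one] at h3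
  have h4 : W.det ≠ 0 := fun h => by simp [h] at h3
  refine ⟨W.det.natAbs * W.det.natAbs, by positivity, fun j => ?_⟩
  by_cases hj : j ∈ F
  · refine ⟨fun i => W.det * W.adjugate (e.symm ⟨j, hj⟩) i, fun i => ?_⟩
    have h5 : (W.det : ℝ) * Φ.d F j i = W.adjugate (e.symm ⟨j, hj⟩) i := by
      simpa using congrFun₂ h2 (e.symm ⟨j, hj⟩) i
    simp [← h5, ← mul_assoc]
  · exact ⟨0, fun i => by simp [Φ.off F j hj]⟩

end Pool.Agent.P.MP_9321be_ag.SM
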