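import Pool.Agent.P.MP_9321be_ag.SM.Iface

/-! Step MAINB. -/

set_option autoImplicit false
set_option linter.unusedSectionVars false

namespace Pool.Agent.P.MP_9321be_ag.SM

open Finset

theorem mainb_dp {n : ℕ} {f : MvPolynomial (Fin n) ℂ} (D : Dat f)
    {P : (Gn n → ℝ) → ℝ → Prop} (hP : Mono P) (i j : Fin n) (x : R n)
    (hx : x ∈ sp (D.A P {i, j})) : Dp f (mi j) x ∈ sp (D.A P {i}) := by
  rw [pair_comm] at hx
  exact add_mem (Dat.nd_A j hx) (Dat.th_A hP j hx)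

theorem mainb_low {n : ℕ} {f : MvPolynomial (Fin n) ℂ} (D : Dat f) {c : Prop} {p : L n}
    (hp : p ∈ D.Rg (D.PP c Set.univ)) (h : wt p ≤ ∑ j ∈ D.Gs, D.l j - D.o0 - 1) : p ∈ D.B0 := by
  refine ⟨hp.1, fun ho => ?_⟩
  obtain ⟨F, hF, h0⟩ := id ho
  rw [Dat.wt_eq hp.1 hF h0, ← sum_sdiff (Dat.mem_FS.1 hF).2] at h
  have h1 : 0 ≤ ∑ j ∈ F \ D.Gs, D.lm p j :=
    sum_nonneg fun j hj => Dat.lm_nonneg hp.1 ho (mem_sdiff.1 hj).2
  have h2 : ∑ j ∈ D.Gs, D.l j ≤ ∑ j ∈ D.Gs, D.lm p j := sum_le_sum fun j hj => (hp.2 ho).1 j hj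
  linarith

theorem p_MAINB (hWN : S_WN) (hWEYL : S_WEYL) (hS2 : S_S2) (hG0 : S_G0) (hRAISE : S_RAISE) (hGR2 : S_GR2) (hGR1 : S_GR1) (hEV : S_EV) :
    S_MAINB := by
  intro n f D hn b hb
  by_contra hne
  obtain ⟨g, g0, hg⟩ := hWN n f b hb
  have up : IsUpperSet (Set.univ : Set ℝ) := isUpperSet_univ
  have up0 : IsUpperSet (Set.Ioi D.o0) := isUpperSet_Ioi _
  have h1 := (hS2 n f D).2 _ _ (by simpa using hne) (hG0 n f g D).1
    (hWEYL n f g b D.α D.B0 hg Dat.cl_B0 (hS2 n f D).1)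
  have h2 : e (p0 n D.α) ∈ EE f (fun i => D.A (fun _ _ => True) {i}) D.B0 := by
    have := sub_mem h1 (EE_of_mem (hG0 n f g D).2)
    rw [sub_sub_cancel] at this
    exact (Submodule.smul_mem_iff _ g0).1 this
  have h3 := hRAISE n f D _ D.Gs (fun _ _ _ _ _ _ h => h)
    (fun a o _ j hj h => (h.trans_le (Dat.mem_Gs.1 hj).2).ne) trivial h2
  obtain ⟨z, z1, z2⟩ := EE_mono (A' := fun i => D.A (D.PP True Set.univ) {i})
    (fun i => Dat.A_mono (fun a o h => ⟨h.2, fun h => absurd trivial h, trivial⟩) subset_rfl)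
    subset_rfl h3
  have b0 : ∀ c, D.B0 ⊆ D.Rg (D.QQ c (Set.Ioi D.o0)) := fun c => Dat.Rg_mono fun a o h => Or.inr h
  have lp : ∀ j ∈ D.t2, 0 < D.l j := fun j hj => (Dat.mem_t2.1 hj).2.1
  obtain ⟨z', z3, z4⟩ := hGR1 n f _ _ (hGR2 n f D hn True _ up0 Set.nonempty_Ioi)
    (Dat.cl_Rg (Dat.mono_QQ True up0)) (mainb_dp D (Dat.mono_PP True up))
    (∑ j ∈ D.Gs, D.l j - D.o0) z z1 (by
      refine sp_mono Set.subset_union_left ?_
      have := sub_mem (e_mem (A := D.Rg (D.QQ True (Set.Ioi D.o0))) ⟨D.p0_R0, fun _ =>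
        Or.inl ⟨trivial, D.lm_p0 ▸ lp⟩⟩) (sp_mono (b0 True) z2)
      rwa [sub_sub_cancel] at this)
  have h4 : e (p0 n D.α) ∈ EE f (fun i => D.A (fun a o => D.PP True Set.univ a o ∧
      ∀ j ∈ D.t2, 0 < a j) {i}) D.B0 := by
    refine ⟨fun i => z' i - fl D.B0 (z' i), fun i => sp_mono ?_ (sub_fl_mem D.B0 (z3 i)), ?_⟩
    · rintro p ⟨⟨h5, h6⟩, h7⟩
      refine ⟨⟨h5.1.1, fun ho => ⟨h5.1.2 ho, ?_⟩⟩, h5.2⟩
      have h8 := (h6.resolve_right fun h => h7 (mainb_low D h5.1 h)).2 ho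
      exact (h8.resolve_right fun h => h7 ⟨h5.1.1, fun _ => h⟩).2
    · simp only [map_sub, sum_sub_distrib, z4]
      rw [← sub_add]
      exact add_mem z2 (sum_mem fun i _ => Dat.cl_B0.Dp _
        (sp_mono Set.inter_subset_right (fl_mem D.B0 (z3 i))))
  have h5 := hRAISE n f D _ D.t2
    (fun _ _ _ _ h1 h2 h => ⟨Dat.mono_PP True up h1 h2 h.1, fun j hj => (h.2 j hj).trans_le (h1 j)⟩)
    (fun a o h j hj _ => (h.2 j hj).ne')
    ⟨⟨fun _ _ => le_rfl, fun h => absurd trivial h, trivial⟩, lp⟩ h4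
  obtain ⟨y, y1, y2⟩ := EE_mono (A' := fun i => D.A (D.PP False Set.univ) {i})
    (fun i => Dat.A_mono (fun a o h => ⟨h.1.1.1, fun _ => h.2, trivial⟩) subset_rfl)
    subset_rfl h5
  have b1 : D.Rg (D.QQ False (Set.Ioi D.o0)) = D.B0 :=
    (Dat.Rg_mono fun a o h => h.resolve_left fun h => h.1).antisymm (b0 False)
  have ex := hGR2 n f D hn False _ up0 Set.nonempty_Ioi
  rw [b1] at ex
  obtain ⟨y', y3, y4⟩ := hGR1 n f _ _ ex Dat.cl_B0 (mainb_dp D (Dat.mono_PP False up)) D.α y y1 (by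
    have := sub_mem (e_mem (A := D.B0 ∪ {p | wt p ≤ D.α}) (p := p0 n D.α)
      (Or.inr (by simp [wt_apply, p0]))) (sp_mono Set.subset_union_left y2)
    rwa [sub_sub_cancel] at this)
  exact hEV n f D y' y3 (y4 ▸ y2)

end Pool.Agent.P.MP_9321be_ag.SM
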