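import Pool.Agent.P.MP_9321be_ag.SM.Iface

/-! Step NST. -/

set_option autoImplicit false
set_option linter.unusedSectionVars false

namespace Pool.Agent.P.MP_9321be_ag.SM

open Finset Dat

variable {n : ℕ} {f : MvPolynomial (Fin n) ℂ}

/-- The ideal of the `th`, modulo order one. -/
def nst_I (D : Dat f) : Submodule ℂ (R n) where
  carrier := {x | ∃ s : Fin n → R n, (∀ i, s i ∈ sp (D.Gam 0)) ∧
    x - ∑ i, s i * th f (mi i) ∈ sp (D.Gam 1)}
  zero_mem' := ⟨0, fun _ => zero_mem _, by simp⟩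
  add_mem' := by
    rintro x y ⟨z, h1, h2⟩ ⟨w, h3, h4⟩
    refine ⟨z + w, fun i => add_mem (h1 i) (h3 i), ?_⟩
    convert add_mem h2 h4 using 1
    simp only [Pi.add_apply, add_mul, sum_add_distrib]
    abel
  smul_mem' := by
    rintro c x ⟨z, h1, h2⟩
    refine ⟨c • z, fun i => Submodule.smul_mem _ _ (h1 i), ?_⟩
    convert Submodule.smul_mem _ c h2 using 1
    simp only [Pi.smul_apply, smul_mul_assoc, smul_sub, smul_sum]

variable {D : Dat f}

theorem nst_mul0 {c : ℝ} {x y : R n} (hx : x ∈ sp (D.Gam 0)) (hy : y ∈ sp (D.Gam c)) :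
    x * y ∈ sp (D.Gam c) := mul_mem (fun p hp q hq => by simpa using Gam_add hp hq) hx hy

theorem nst_pow {x : R n} (hx : x ∈ sp (D.Gam 0)) (k : ℕ) : x ^ k ∈ sp (D.Gam 0) := by
  induction k with
  | zero => simpa using e_mem (zero_Gam (D := D))
  | succ k ih => rw [pow_succ]; exact nst_mul0 ih hx

theorem nst_mulI {x y : R n} (hx : x ∈ sp (D.Gam 0)) (hy : y ∈ nst_I D) : x * y ∈ nst_I D := by
  obtain ⟨s, h1, h2⟩ := hy
  refine ⟨fun i => x * s i, fun i => nst_mul0 hx (h1 i), ?_⟩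
  convert nst_mul0 hx h2 using 1
  simp only [mul_sub, mul_sum, mul_assoc]

theorem nst_ge {x : R n} (hx : x ∈ sp (D.Gam 0)) {N M : ℕ} (h : x ^ N ∈ nst_I D) (hM : N ≤ M) :
    x ^ M ∈ nst_I D := by
  rw [← Nat.sub_add_cancel hM, pow_add]; exact nst_mulI (nst_pow hx _) h

/-- Its radical. -/
def nst_R (D : Dat f) : Submodule ℂ (R n) where
  carrier := {x | x ∈ sp (D.Gam 0) ∧ ∃ N, x ^ N ∈ nst_I D}
  zero_mem' := ⟨zero_mem _, 1, by simp⟩
  add_mem' := by
    rintro x y ⟨h1, N, h2⟩ ⟨h3, M, h4⟩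
    refine ⟨add_mem h1 h3, N + M, ?_⟩
    rw [add_pow]
    refine sum_mem fun m _ => ?_
    rw [mul_comm, ← nsmul_eq_mul]
    refine nsmul_mem ?_ _
    by_cases h : N ≤ m
    · rw [mul_comm]; exact nst_mulI (nst_pow h3 _) (nst_ge h1 h2 h)
    · exact nst_mulI (nst_pow h1 _) (nst_ge h3 h4 (by omega))
  smul_mem' := by
    rintro c x ⟨h1, N, h2⟩
    exact ⟨Submodule.smul_mem _ _ h1, N, by rw [smul_pow]; exact Submodule.smul_mem _ _ h2⟩

theorem nst_hi {q : L n} (hq : q ∈ D.Gam 0) (h : D.ON q → 0 < D.od q) : e q ∈ nst_R D := by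
  refine ⟨e_mem hq, ?_⟩
  have one : ∀ p ∈ D.Gam 1, e p ∈ nst_I D := fun p hp => ⟨0, fun _ => zero_mem _, by
    simpa using e_mem hp⟩
  by_cases ho : D.ON q
  · have h1 : ∀ N : ℕ, N • q ∈ D.Gam (N * D.od q) := fun N => by
      induction N with
      | zero => simpa using zero_Gam
      | succ N ih =>
        rw [succ_nsmul, Nat.cast_succ, add_mul, one_mul]
        exact Gam_add ih ⟨hq.1, fun h' => ⟨(hq.2 h').1, le_rfl⟩⟩
    obtain ⟨N, hN⟩ := exists_nat_ge (1 / D.od q)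
    rw [div_le_iff₀ (h ho)] at hN
    exact ⟨N, e_nsmul N q ▸ one _ (Rg_mono (fun a o h => ⟨h.1, hN.trans h.2⟩) (h1 N))⟩
  · exact ⟨1, by simpa using one q ⟨hq.1, fun h' => absurd h' ho⟩⟩

variable {F S : Finset (Gn n)}

/-- The span of a face is a subgroup. -/
def nst_G (D : Dat f) (F S : Finset (Gn n)) : AddSubgroup (L n) where
  carrier := D.Sp F S
  zero_mem' := by simp [Fan.Sp]
  add_mem' := by
    rintro p q ⟨a1, a2, a3⟩ ⟨b1, b2, b3⟩
    exact ⟨by simp [a1, b1], fun j hj => by simp [a2 j hj, b2 j hj],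
      by simp [sum_add_distrib, a3, b3]⟩
  neg_mem' := by
    rintro p ⟨a1, a2, a3⟩
    exact ⟨by simp [a1], fun j hj => by simp [a2 j hj], by simp [a3]⟩

theorem nst_in (hF : F ∈ D.FS) {p : L n} (hp : p ∈ D.Sp F S)
    (h : ∀ j ∈ S, 0 ≤ dt (D.d F j) p) : p ∈ D.Gam 0 := by
  have h0 : ∀ j, 0 ≤ dt (D.d F j) p := fun j => by
    by_cases hj : j ∈ S
    exacts [h j hj, (hp.2.1 j hj).ge]
  have hR : p ∈ D.R0 := by
    refine ⟨fun F' hF' => ?_, fun i _ => ?_⟩
    · rw [D.ps_expand (FS_FF hF), hp.1, zero_add]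
      exact sum_nonneg fun j hj =>
        mul_nonneg (h0 j) (D.pos F' (FS_FF hF') j (D.sub F (FS_FF hF) hj))
    · have : (0 : ℝ) ≤ p.2.1 i := by
        rw [D.mi_expand (FS_FF hF)]
        exact sum_nonneg fun j _ => mul_nonneg (h0 j) (Nat.cast_nonneg _)
      exact_mod_cast this
  exact ⟨hR, fun _ => ⟨fun j => by rw [lm_eq hR hF hp.1]; exact h0 j,
    by rw [od_eq hR hF hp.1, hp.2.2, sub_self]⟩⟩

theorem nst_gen (hF : F ∈ D.FS) (hS : S ⊆ F) {p : L n} (hp : p ∈ D.R0) (ho : D.ON p)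
    (h : ∀ j ∉ S, D.lm p j = 0) (h0 : D.od p = 0) : p ∈ D.Sp F S := by
  have h1 : ps (D.u F) p = 0 := by
    rw [D.ps_expand (FS_FF (D.ch_mem p)), ch_on ho, zero_add]
    refine sum_eq_zero fun j _ => ?_
    by_cases hj : j ∈ S
    · rw [D.tight F (FS_FF hF) j (hS hj), mul_zero]
    · exact mul_eq_zero_of_left (h j hj) _
  exact ⟨h1, fun j hj => by rw [← lm_eq hp hF h1, h j hj],
    by rw [od_eq hp hF h1] at h0; linarith⟩

/-- The support of the coordinates. -/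
noncomputable def nst_S (D : Dat f) (q : L n) : Finset (Gn n) :=
  (D.ch q).filter fun j => D.lm q j ≠ 0

theorem nst_mem {q : L n} {j : Gn n} : j ∈ nst_S D q ↔ D.lm q j ≠ 0 :=
  ⟨fun h => (mem_filter.1 h).2, fun h => mem_filter.2 ⟨by_contra fun e => h (D.dt_off e q), h⟩⟩

theorem nst_main (hTOR : S_TOR) (hf : ND.Nondeg f) (k : ℕ) : ∀ q ∈ D.Gam 0, D.ON q →
    (nst_S D q).Nonempty → n < (nst_S D q).card + k → e q ∈ nst_R D := by
  induction k with
  | zero =>
    intro q _ _ _ h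
    have := (card_filter_le (D.ch q) fun j => D.lm q j ≠ 0).trans
      (D.card _ (FS_FF (D.ch_mem q))).le
    exact absurd h (not_lt.2 this)
  | succ k ih =>
    intro q hq ho hne hk
    by_cases h0 : 0 < D.od q
    · exact nst_hi hq fun _ => h0
    have hF := D.ch_mem q
    have hS : nst_S D q ⊆ D.ch q := filter_subset _ _
    have hqS : q ∈ nst_G D (D.ch q) (nst_S D q) := nst_gen hF hS hq.1 ho
      (fun j hj => by_contra fun e => hj (nst_mem.2 e)) (le_antisymm (not_lt.1 h0) (hq.2 ho).2)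
    have hqp : ∀ j ∈ nst_S D q, 0 < dt (D.d (D.ch q) j) q := fun j hj =>
      ((hq.2 ho).1 j).lt_of_ne' (nst_mem.1 hj)
    generalize D.ch q = F at hF hS hqS hqp
    generalize nst_S D q = S at hS hqS hqp hne hk
    obtain ⟨s, h1, h2⟩ := hTOR n f D.toFan hf F (FS_FF hF) S hS hne
    have hY : ∑ j ∈ S, pt j ∈ nst_G D F S := sum_mem fun j hj =>
      nst_gen hF hS (pt_R0 (D.sub F (FS_FF hF) (hS hj))) ⟨F, hF, D.tight F (FS_FF hF) j (hS hj)⟩
        (fun g hg => by rw [lm_vertex hF (hS hj), if_neg fun e : g = j => hg (e ▸ hj)])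
        (od_vertex hF (hS hj))
    have hY1 : ∀ j ∈ S, dt (D.d F j) (∑ j ∈ S, pt j) = 1 := fun j hj => by
      rw [map_sum, sum_congr rfl fun g hg => D.dual F (FS_FF hF) j (hS hj) g (hS hg)]
      simp [hj]
    obtain ⟨M, hM⟩ : ∃ M : ℕ, ∀ i, ∀ p ∈ (s i).coeff.support, ∀ j ∈ S, -dt (D.d F j) p < M :=
      (Filter.eventually_all.2 fun i => (Filter.eventually_all_finset _).2 fun p _ =>
        (Filter.eventually_all_finset _).2 fun j _ =>
          tendsto_natCast_atTop_atTop.eventually_gt_atTop _).exists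
    obtain ⟨N, hN⟩ : ∃ N : ℕ, ∀ j ∈ S, M / dt (D.d F j) q ≤ N :=
      ((Filter.eventually_all_finset _).2 fun j _ =>
        tendsto_natCast_atTop_atTop.eventually_ge_atTop _).exists
    set y := M • ∑ j ∈ S, pt j with hy
    have hy0 : y ∈ nst_G D F S := nsmul_mem hY M
    have hy1 : ∀ j ∈ S, dt (D.d F j) y = M := fun j hj => by
      rw [hy, map_nsmul, hY1 j hj]; simp
    have c1 : ∀ i, e y * s i ∈ sp {p | p ∈ D.Sp F S ∧ ∀ j ∈ S, 0 < dt (D.d F j) p} := fun i =>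
      mul_mem (A := {y}) (fun p hp r hr => by
        rw [Set.mem_singleton_iff.1 hp]
        refine ⟨add_mem hy0 (mem_sp.1 (h1 i) r hr), fun j hj => ?_⟩
        rw [map_add, hy1 j hj]
        linarith [hM i r hr j hj]) (e_mem rfl) (mem_sp_self _)
    have c2 : ∀ i, e y * s i ∈ sp (D.Gam 0) := fun i =>
      sp_mono (fun p hp => nst_in hF hp.1 fun j hj => (hp.2 j hj).le) (c1 i)
    have c3 : ∀ i, th f (mi i) ∈ sp (pt '' (gens f : Set (Gn n))) := fun i =>
      sum_mem fun g hg => Submodule.smul_mem _ _ (e_mem ⟨g, hg, rfl⟩)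
    have c4 : ∀ i, e y * s i * (th f (mi i) - fl (D.Sp F S) (th f (mi i))) ∈ nst_R D := by
      intro i
      refine map_mem (A := {r | e r ∈ nst_R D}) LinearMap.id (fun _ h => h)
        (mul_mem ?_ (c1 i) (sub_fl_mem _ (c3 i)))
      rintro p ⟨p1, p2⟩ _ ⟨⟨g, hg, rfl⟩, g1⟩
      have a1 := nst_in hF p1 fun j hj => (p2 j hj).le
      have a2 := pt_Gam (D := D) hg
      have a3 : p + pt g ∈ D.Gam 0 := by simpa using Gam_add a1 a2
      by_cases b0 : D.ON (p + pt g) → 0 < D.od (p + pt g)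
      · exact nst_hi a3 b0
      obtain ⟨b1, b2⟩ := Classical.not_imp.1 b0
      obtain ⟨o1, o2, o3, o4⟩ := on_add a1.1 a2.1 b1
      have b3 : S ⊆ nst_S D (p + pt g) := fun j hj => nst_mem.2 (by
        rw [o3, Pi.add_apply, lm_eq a1.1 hF p1.1]
        exact (add_pos_of_pos_of_nonneg (p2 j hj) ((a2.2 o2).1 j)).ne')
      refine ih _ a3 b1 (hne.mono b3) ?_
      have : S ⊂ nst_S D (p + pt g) := by
        refine ⟨b3, fun b4 => g1 (nst_gen hF hS a2.1 o2 (fun j hj => ?_) ?_)⟩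
        · have b5 : D.lm (p + pt g) j = 0 := by_contra fun e => hj (b4 (nst_mem.2 e))
          rw [o3, Pi.add_apply] at b5
          have b6 : 0 ≤ D.lm p j := (a1.2 o1).1 j
          have b7 : 0 ≤ D.lm (pt g) j := (a2.2 o2).1 j
          linarith
        · linarith [(a1.2 o1).2, (a2.2 o2).2]
      have := card_lt_card this
      omega
    have c5 : ∑ i, e y * s i * th f (mi i) ∈ nst_R D :=
      ⟨sum_mem fun i _ => nst_mul0 (c2 i) (sp_mono (by rintro _ ⟨g, hg, rfl⟩; exact pt_Gam hg)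
        (c3 i)), 1, _, c2, by simp⟩
    have c6 : e y ∈ nst_R D := by
      convert sub_mem c5 (sum_mem fun i (_ : i ∈ univ) => c4 i) using 1
      simp only [mul_sub, sum_sub_distrib, sub_sub_cancel, mul_assoc, ← mul_sum, h2, mul_one]
    have c7 : N • q - y ∈ D.Gam 0 := nst_in hF (sub_mem (nsmul_mem hqS N) hy0) fun j hj => by
      have := hN j hj
      rw [div_le_iff₀ (hqp j hj)] at this
      rw [map_sub, map_nsmul, hy1 j hj, nsmul_eq_mul]
      linarith
    obtain ⟨-, K, hK⟩ := c6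
    refine ⟨e_mem hq, N * K, ?_⟩
    rw [pow_mul, ← e_nsmul, ← sub_add_cancel (N • q) y, e_add, mul_pow]
    exact nst_mulI (nst_pow (e_mem c7) _) hK

theorem p_NST (hTOR : S_TOR) :
    S_NST := by
  intro n f D hf
  have h : ∀ j ∈ D.VS, e (pt j) ∈ nst_R D := fun j hj => by
    obtain ⟨F, hF, hj⟩ := mem_VS.1 hj
    have : j ∈ nst_S D (pt j) := nst_mem.2 (by simp [lm_vertex hF hj])
    exact nst_main hTOR hf n _ (pt_Gam (D.sub F (FS_FF hF) hj))
      ⟨F, hF, D.tight F (FS_FF hF) j hj⟩ ⟨j, this⟩ (by have := card_pos.2 ⟨j, this⟩; omega)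
  obtain ⟨M, h1, h2⟩ := ((Filter.eventually_gt_atTop 0).and ((Filter.eventually_all_finset _).2
    fun j hj => ((h j hj).2.elim fun N hN => (Filter.eventually_ge_atTop N).mono
      fun M hM => nst_ge (h j hj).1 hN hM : ∀ᶠ M in Filter.atTop, e (pt j) ^ M ∈ nst_I D))).exists
  exact ⟨M, h1, fun j hj => e_nsmul M (pt j) ▸ h2 j hj⟩

end Pool.Agent.P.MP_9321be_ag.SM
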