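import Pool.Agent.P.MP_9321be_ag.SM.Iface

/-! Step PUSH. -/

set_option autoImplicit false
set_option linter.unusedSectionVars false

namespace Pool.Agent.P.MP_9321be_ag.SM

open Finset

open Polynomial in
theorem push_dvd {n : ℕ} {S : Submodule ℂ (R n)} {T : Module.End ℂ (R n)} (h : ∀ x ∈ S, T x ∈ S)
    {β γ : ℂ[X]} {x : R n} (hx : aeval T β x ∈ S) (e : β ∣ γ) : aeval T γ x ∈ S := by
  obtain ⟨c, rfl⟩ := e
  rw [mul_comm, map_mul]
  exact aeval_mem h c hx

open Polynomial in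
/-- Elements that a polynomial in `T` with nonzero constant term sends into `S`. -/
def push_G {n : ℕ} {S : Submodule ℂ (R n)} {T : Module.End ℂ (R n)} (h : ∀ x ∈ S, T x ∈ S) :
    Submodule ℂ (R n) where
  carrier := {x | ∃ β : ℂ[X], β.eval 0 ≠ 0 ∧ aeval T β x ∈ S}
  zero_mem' := ⟨1, by simp, by simp⟩
  add_mem' := fun ⟨β, a, b⟩ ⟨γ, c, d⟩ => ⟨β * γ, by simp [a, c], by
    rw [map_add]
    exact add_mem (push_dvd h b (dvd_mul_right _ _)) (push_dvd h d (dvd_mul_left _ _))⟩
  smul_mem' := fun c _ ⟨β, a, b⟩ => ⟨β, a, by rw [map_smul]; exact S.smul_mem c b⟩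

open Polynomial in
theorem push_comm {n : ℕ} {T U : Module.End ℂ (R n)} (h : Commute U T) (β : ℂ[X]) (x : R n) :
    aeval T β (U x) = U (aeval T β x) :=
  LinearMap.congr_fun (Algebra.commute_of_mem_adjoin_singleton_of_commute
    (aeval_mem_adjoin_singleton ℂ T) h).symm.eq x

open Polynomial in
theorem p_PUSH :
    S_PUSH := by
  intro n f ψ On θ A B hA hB h1 h2 y ⟨z, z1, z2⟩
  obtain ⟨δ, d0, d1⟩ := exists_gap_aux (gens f) fun g => ψ (pt g)
  have cl0 : ∀ i, Cl f {p | p ∈ A i ∧ (On p → θ ≤ ψ p)} := fun i p hp g hg =>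
    ⟨hA i p hp.1 g hg, fun o => by
      obtain ⟨a, b⟩ := h1 i p hp.1 g hg o
      rw [map_add]
      linarith [hp.2 a]⟩
  have cl := fun i (x : R n) hx => (cl0 i).Dp ψ (x := x) hx
  have bs : ∀ i, ∀ p ∈ A i, (On p → θ ≤ ψ p) → e p ∈ push_G (cl i) := fun i p hp h =>
    ⟨1, by simp, by rw [map_one]; exact e_mem (A := {p | p ∈ A i ∧ (On p → θ ≤ ψ p)}) ⟨hp, h⟩⟩
  have key : ∀ i (N : ℕ), ∀ p ∈ A i, (On p → θ - N * δ ≤ ψ p) → e p ∈ push_G (cl i) := by
    intro i N
    induction N with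
    | zero => exact fun p hp h => bs i p hp (by simpa using h)
    | succ N ih =>
      intro p hp h
      by_cases c : On p → θ ≤ ψ p
      · exact bs i p hp c
      push Not at c
      obtain ⟨β, a, b⟩ : th f ψ * e p ∈ push_G (cl i) := by
        rw [th_mul_e]
        refine sum_mem fun g hg => ?_
        by_cases o : ψ (pt g) = 0
        · simp [o]
        refine Submodule.smul_mem _ _ (ih _ (hA i p hp g hg) fun o' => ?_)
        have := d1 g hg (lt_of_le_of_ne (h1 i p hp g hg o').2 (Ne.symm o))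
        have := h c.1
        rw [map_add]
        push_cast at this
        linarith
      refine ⟨β * (X - C (ψ p : ℂ)), by simp [a, h2 i p hp c.1 c.2], ?_⟩
      rwa [map_mul, Module.End.mul_apply, map_sub, aeval_X, aeval_C, LinearMap.sub_apply,
        Module.algebraMap_end_apply, Dp_apply, nd_e, add_sub_cancel_left]
  choose β b1 b2 using fun i => show z i ∈ push_G (cl i) from map_mem LinearMap.id (fun p hp => by
    obtain ⟨N, hN⟩ := exists_nat_ge ((θ - ψ p) / δ)
    rw [div_le_iff₀ d0] at hN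
    exact key i N p hp fun _ => by linarith) (z1 i)
  refine ⟨∏ i, β i, by simpa [eval_prod, prod_eq_zero_iff] using b1, fun i => aeval (Dp f ψ)
    (∏ i, β i) (z i), fun i => push_dvd (cl i) (b2 i) (dvd_prod_of_mem β (mem_univ i)), ?_⟩
  have := aeval_mem (fun x hx => hB.Dp ψ hx) (∏ i, β i) z2
  rwa [map_sub, map_sum (aeval (Dp f ψ) (∏ i, β i)),
    sum_congr rfl fun i _ => push_comm (Dp_commute f (mi i) ψ) _ (z i)] at this

end Pool.Agent.P.MP_9321be_ag.SM
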