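import Pool.Agent.P.MP_9321be_ag.SM.Iface

/-! Step RAISE. -/

set_option autoImplicit false
set_option linter.unusedSectionVars false

namespace Pool.Agent.P.MP_9321be_ag.SM

open Finset

theorem p_RAISE (hPUSH : S_PUSH) :
    S_RAISE := by
  intro n f D P S hP hS hl h0
  classical
  let A : Finset (Finset (Gn n) × Gn n) → Fin n → Set (L n) := fun Q i =>
    {p | p ∈ D.A P {i} ∧ ∀ z ∈ Q, ps (D.u z.1) p = 0 → D.l z.2 ≤ dt (D.d z.1 z.2) p}
  have hP' : Mono fun a o => P a o ∧ ∀ j ∈ S, D.l j ≤ a j := fun _ _ _ _ h1 h2 h =>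
    ⟨hP h1 h2 h.1, fun j hj => (h.2 j hj).trans (h1 j)⟩
  have hy : e (p0 n D.α) ∈ sp (D.A (fun a o => P a o ∧ ∀ j ∈ S, D.l j ≤ a j) ∅) :=
    e_mem ⟨⟨D.p0_R0, fun _ => by rw [D.lm_p0]; exact ⟨hl, fun _ _ => le_rfl⟩⟩, fun _ _ _ => le_rfl⟩
  have key : ∀ Q ⊆ D.FS ×ˢ S, e (p0 n D.α) ∈ EE f (A Q) D.B0 := fun Q hQ => by
    induction Q using Finset.induction_on with
    | empty => exact EE_mono (fun i p hp => by exact ⟨hp, by simp⟩) le_rfl h0
    | insert z Q _ ih =>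
      have hQ' := (subset_insert z Q).trans hQ
      obtain ⟨hF, hj⟩ := mem_product.1 (hQ (mem_insert_self z Q))
      obtain ⟨β, h1, h2⟩ := hPUSH n f (dt (D.d z.1 z.2)) (fun p => ps (D.u z.1) p = 0) (D.l z.2)
        (A Q) D.B0 (fun i p hp g hg => ⟨Dat.cl_A hP _ p hp.1 g hg, fun w hw h => by
          have hF' := (mem_product.1 (hQ' hw)).1
          obtain ⟨a1, a2⟩ := Dat.ps_add_zero hp.1.1.1 (Dat.pt_R0 hg) hF' h
          rw [map_add]
          exact le_add_of_le_of_nonneg (hp.2 w hw a1) (D.cone _ (Dat.FS_FF hF') g hg a2 _)⟩)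
        Dat.cl_B0 (fun i p hp g hg h => by
          obtain ⟨a1, a2⟩ := Dat.ps_add_zero hp.1.1.1 (Dat.pt_R0 hg) hF h
          exact ⟨a1, D.cone _ (Dat.FS_FF hF) g hg a2 _⟩)
        (fun i p hp h => Dat.lm_eq hp.1.1.1 hF h z.2 ▸ hS _ _ (hp.1.1.2 ⟨_, hF, h⟩) _ hj) _
        (ih hQ')
      have h3 : _ ∈ EE f (A (insert z Q)) D.B0 := EE_mono (fun i p hp => by
        exact ⟨hp.1.1, forall_mem_insert _ _ _ |>.2 ⟨hp.2, hp.1.2⟩⟩) le_rfl h2
      have h4 : Dp f (dt (D.d z.1 z.2)) (Polynomial.aeval (Dp f (dt (D.d z.1 z.2))) β.divX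
          (e (p0 n D.α))) ∈ EE f (A (insert z Q)) D.B0 := Dp_dt_mem _ fun i => sp_mono
        (fun p hp => by exact ⟨Dat.A_mono (fun _ _ h => h.1) (empty_subset _) hp, fun w hw h =>
          Dat.lm_eq hp.1.1 (mem_product.1 (hQ hw)).1 h w.2 ▸
            (hp.1.2 ⟨_, (mem_product.1 (hQ hw)).1, h⟩).2 _ (mem_product.1 (hQ hw)).2⟩)
        (aeval_mem (fun x hx => (Dat.cl_A hP' ∅).Dp _ hx) _ hy)
      rw [← β.X_mul_divX_add, map_add, map_mul, Polynomial.aeval_X, Polynomial.aeval_C,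
        LinearMap.add_apply, Module.End.mul_apply, Module.algebraMap_end_apply] at h3
      rw [← Polynomial.coeff_zero_eq_eval_zero] at h1
      exact (Submodule.smul_mem_iff _ h1).1 ((Submodule.add_mem_iff_right _ h4).1 h3)
  refine EE_mono (fun i p hp => ?_) le_rfl (key _ Subset.rfl)
  exact ⟨⟨hp.1.1.1, fun h => ⟨hp.1.1.2 h, fun j hj => hp.2 (D.ch p, j)
    (mem_product.2 ⟨D.ch_mem p, hj⟩) (Dat.ch_on h)⟩⟩, hp.1.2⟩

end Pool.Agent.P.MP_9321be_ag.SM
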