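import Pool.Agent.P.MP_9321be_ag.SM.Iface

/-! Step ROOT. -/

set_option autoImplicit false
set_option linter.unusedSectionVars false

namespace Pool.Agent.P.MP_9321be_ag.SM

open Finset

theorem p_ROOT :
    S_ROOT := by
  intro ι P c k b b' hb hb' ne h0 h0' h1 h2
  have le : ∀ a ∈ P, k b' ≤ k a := fun a ha => by
    by_cases e : a = b'
    · exact e ▸ le_rfl
    · exact (h1 a ha e).le
  set q : Polynomial ℂ := ∑ a ∈ P, Polynomial.monomial (k a - k b').toNat (c a) with hq
  have co : ∀ a ∈ P, (∀ a' ∈ P, a' ≠ a → k a' ≠ k a) → q.coeff (k a - k b').toNat = c a :=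
    fun a ha h => by
      rw [hq, Polynomial.finsetSum_coeff, sum_eq_single_of_mem a ha fun a' ha' e => ?_,
        Polynomial.coeff_monomial_same]
      refine Polynomial.coeff_monomial_of_ne _ fun e' => h a' ha' e ?_
      have := le a ha
      have := le a' ha'
      omega
  have c0 := co b' hb' fun a ha e => (h1 a ha e).ne'
  rw [sub_self, Int.toNat_zero] at c0
  obtain ⟨y, hy⟩ := Complex.exists_root (f := q) (Polynomial.natDegree_pos_iff_degree_pos.1
    (lt_of_lt_of_le (by have := h1 b hb ne; omega)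
      (Polynomial.le_natDegree_of_ne_zero ((co b hb h2).trans_ne h0))))
  have y0 : y ≠ 0 := by
    rintro rfl
    exact h0' (c0.symm.trans ((Polynomial.coeff_zero_eq_eval_zero q).trans hy))
  refine ⟨y, y0, ?_⟩
  rw [← zero_mul (y ^ k b'), ← hy.eq_zero, hq, Polynomial.eval_finsetSum, sum_mul]
  refine sum_congr rfl fun a ha => ?_
  rw [Polynomial.eval_monomial, mul_assoc, ← zpow_natCast, ← zpow_add₀ y0,
    Int.toNat_of_nonneg (sub_nonneg.2 (le a ha)), sub_add_cancel]

end Pool.Agent.P.MP_9321be_ag.SM
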