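import Pool.Agent.P.MP_9321be_ag.SM.Iface

/-! Step S2. -/

set_option autoImplicit false
set_option linter.unusedSectionVars false

namespace Pool.Agent.P.MP_9321be_ag.SM

open Finset

variable {n : ℕ} {f : MvPolynomial (Fin n) ℂ}

theorem s2_cong {E Y : Submodule ℂ (R n)} {T T' : Module.End ℂ (R n)} (hY : ∀ x ∈ Y, T x ∈ Y)
    (hE : ∀ x ∈ E, T' x ∈ E) (h : ∀ x ∈ Y, T x - T' x ∈ E) (β : Polynomial ℂ) {y : R n}
    (hy : y ∈ Y) : Polynomial.aeval T β y - Polynomial.aeval T' β y ∈ E := by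
  induction β using Polynomial.induction_on with
  | C a => simp
  | add p q a b =>
    convert add_mem a b using 1
    simp only [map_add, LinearMap.add_apply]
    abel
  | monomial k a ih =>
    rw [pow_succ, ← mul_assoc, mul_comm, map_mul (Polynomial.aeval T),
      map_mul (Polynomial.aeval T'), Polynomial.aeval_X, Polynomial.aeval_X, Module.End.mul_apply,
      Module.End.mul_apply]
    convert add_mem (h _ (aeval_mem hY (Polynomial.C a * Polynomial.X ^ k) hy)) (hE _ ih) using 1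
    rw [map_sub, sub_add_sub_cancel]

/-- The supports of the primitives after the facets of `S` have been treated. -/
def s2A (D : Dat f) (S : Finset (Finset (Gn n))) (i : Fin n) : Set (L n) :=
  {p | ((∀ j ∈ D.I0, 0 ≤ p.2.1 j) ∧ p ∈ D.DJ {i}) ∧ ∀ F ∈ S, 0 ≤ ps (D.u F) p}

/-- The points that are off the facets of `S`. -/
def s2W (D : Dat f) (S : Finset (Finset (Gn n))) : Set (L n) :=
  {p | p ∈ D.A (fun _ _ => True) ∅ ∧ ∀ F ∈ S, 0 < ps (D.u F) p}

variable {D : Dat f} {S : Finset (Finset (Gn n))}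

theorem s2_mono : Mono (n := n) fun _ _ => True := fun _ _ _ _ _ _ h => h

theorem s2_cl (h : S ⊆ D.FS) (i : Fin n) : Cl f (s2A D S i) := fun _ hp _ hg =>
  ⟨⟨fun j hj => add_nonneg (hp.1.1 j hj) ((Dat.pt_R0 hg).2 j hj), Dat.DJ_add hp.1.2 (Dat.pt_R0 hg)⟩,
    fun F hF => by
      rw [map_add]
      exact add_nonneg (hp.2 F hF) ((Dat.pt_R0 hg).1 F (h hF))⟩

theorem s2_ps (u : Fin n → ℝ) (x : R n) : Dp f (ps u) x = Dp f (dt u) x - Dp f kk x := by
  rw [ps, Dp_sub, LinearMap.sub_apply]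

theorem s2_push (hPUSH : S_PUSH) {y : R n} (hy : y ∈ sp (D.A (fun _ _ => True) ∅))
    (h0 : ∃ γ : Polynomial ℂ, γ.eval 0 ≠ 0 ∧
      Polynomial.aeval (Dp f kk) γ y ∈ EE f (s2A D ∅) D.B0) (h : S ⊆ D.FS) :
    ∃ γ : Polynomial ℂ, γ.eval 0 ≠ 0 ∧ Polynomial.aeval (Dp f kk) γ y ∈ EE f (s2A D S) D.B0 := by
  induction S using Finset.induction_on with
  | empty => exact h0
  | insert F S _ ih =>
    have h1 := (subset_insert F S).trans h
    obtain ⟨γ, a, b⟩ := ih h1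
    obtain ⟨β, c, d⟩ := hPUSH n f (ps (D.u F)) (fun _ => True) 0 _ _ (s2_cl h1) Dat.cl_B0
      (fun _ _ _ g hg _ => ⟨trivial, (Dat.pt_R0 hg).1 F (h (mem_insert_self F S))⟩)
      (fun _ _ _ _ e => e.ne) _ b
    have cl := fun ψ (x : R n) => (Dat.cl_A (D := D) s2_mono ∅).Dp ψ (x := x)
    have e := s2_cong (E := EE f (s2A D (insert F S)) D.B0) (T' := -Dp f kk) (cl (ps (D.u F)))
      (fun x hx => neg_mem (EE_Dp (s2_cl h) Dat.cl_B0 kk hx)) (fun x hx => by
        rw [s2_ps, LinearMap.neg_apply, sub_neg_eq_add, sub_add_cancel]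
        refine Dp_dt_mem _ fun i => sp_mono (fun p hp => ?_) hx
        exact ⟨⟨hp.1.1.2, Dat.DJ_mono (empty_subset _) hp.2⟩, fun F hF => hp.1.1.1 F (h hF)⟩)
      β (aeval_mem (cl kk) γ hy)
    refine ⟨β.comp (-Polynomial.X) * γ, by simpa [Polynomial.eval_comp] using ⟨c, a⟩, ?_⟩
    have := sub_mem (EE_mono (A' := s2A D (insert F S)) (fun i p hp => ⟨hp.1.1,
      forall_mem_insert _ _ _ |>.2 ⟨hp.2 trivial, hp.1.2⟩⟩) subset_rfl d) e
    rw [sub_sub_cancel] at this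
    rwa [map_mul, Polynomial.aeval_comp, map_neg, Polynomial.aeval_X, Module.End.mul_apply]

theorem s2_step {F : Finset (Gn n)} (h : insert F S ⊆ D.FS) {z : R n} (hz : z ∈ sp (s2W D S)) :
    Dp f (ps (D.u F)) z ∈ sp (s2W D (insert F S)) :=
  map_mem _ (fun p hp => by
    have hF := h (mem_insert_self F S)
    have h0 := hp.1.1.1.1 F hF
    rw [Dp_apply, nd_e, th_mul_e]
    refine add_mem ?_ (sum_mem fun g hg => ?_)
    · rcases h0.eq_or_lt with e | e
      · simp [← e]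
      · exact Submodule.smul_mem _ _ (e_mem ⟨hp.1, (forall_mem_insert _ _ _).2 ⟨e, hp.2⟩⟩)
    · rcases ((Dat.pt_R0 hg).1 F hF).eq_or_lt with e | e
      · simp [← e]
      · refine Submodule.smul_mem _ _ (e_mem ⟨Dat.cl_A s2_mono ∅ p hp.1 g hg,
          (forall_mem_insert _ _ _).2 ⟨?_, fun F' hF' => ?_⟩⟩) <;> rw [map_add]
        · exact add_pos_of_nonneg_of_pos h0 e
        · exact add_pos_of_pos_of_nonneg (hp.2 F' hF')
            ((Dat.pt_R0 hg).1 F' (h (mem_insert_of_mem hF')))) hz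

theorem s2_nil {y : R n} (hy : y ∈ sp (D.A (fun _ _ => True) ∅)) (h : S ⊆ D.FS) :
    ∃ N : ℕ, ∃ z ∈ sp (s2W D S),
      (Dp f kk ^ N) y - z ∈ EE f (fun i => D.A (fun _ _ => True) {i}) D.B0 := by
  induction S using Finset.induction_on with
  | empty => exact ⟨0, y, sp_mono (fun p hp => by exact ⟨hp, by simp⟩) hy, by simp⟩
  | insert F S _ ih =>
    obtain ⟨N, z, a, b⟩ := ih ((subset_insert F S).trans h)
    refine ⟨N + 1, _, neg_mem (s2_step h a), ?_⟩
    convert add_mem (EE_Dp (fun i => Dat.cl_A s2_mono {i}) Dat.cl_B0 kk b) (Dp_dt_mem (D.u F)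
      fun i => sp_mono (fun p hp => Dat.A_mono (fun _ _ => id) (empty_subset _) hp.1) a) using 1
    rw [s2_ps, pow_succ', Module.End.mul_apply, map_sub]
    abel

theorem p_S2 (hPUSH : S_PUSH) :
    S_S2 := by
  refine fun n f D => ⟨fun p h1 h2 => ?_, fun y γ h0 hy h => ?_⟩
  · have key : ∀ F ∈ D.FS, 0 < ps (D.u F) p := fun F hF => by
      have a := D.p0_R0.1 F hF
      have b : D.u F ⬝ᵥ rv (p0 n D.α) ≤ D.u F ⬝ᵥ rv p := sum_le_sum fun i _ =>
        mul_le_mul_of_nonneg_left (Int.cast_le.2 (h2 i)) (D.u_nonneg (Dat.FS_FF hF) i)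
      rw [ps_apply] at a ⊢
      have c : (p0 n D.α).1 = D.α := rfl
      linarith
    exact ⟨⟨fun F hF => (key F hF).le, fun i _ => zero_le_one.trans (h2 i)⟩,
      fun ⟨F, a, b⟩ => absurd b (key F a).ne'⟩
  have h1 : ∀ i, TT i ⊆ s2A D ∅ i := fun i p hp => by
    refine ⟨⟨fun j _ => ?_, fun j _ e => hp.2 j (by simpa using e)⟩, by simp⟩
    by_cases e : j = i
    · exact e ▸ hp.1
    · exact zero_le_one.trans (hp.2 j e)
  obtain ⟨β, a, b⟩ := s2_push hPUSH hy ⟨γ, h0, EE_mono h1 subset_rfl h⟩ subset_rfl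
  obtain ⟨N, z, c, d⟩ := s2_nil hy subset_rfl
  have e := add_mem d (EE_of_mem (sp_mono (fun p hp => by
    exact ⟨hp.1.1.1, fun ⟨F, a, b⟩ => absurd b (hp.2 F a).ne'⟩) c))
  rw [sub_add_cancel] at e
  obtain ⟨u, v, w⟩ : IsCoprime β (Polynomial.X ^ N) :=
    (Polynomial.irreducible_X.coprime_iff_not_dvd.2 (by
      rwa [Polynomial.X_dvd_iff, Polynomial.coeff_zero_eq_eval_zero])).symm.pow_right
  have st := fun x => EE_Dp (fun i => Dat.cl_A (D := D) s2_mono {i}) (Dat.cl_B0 (D := D)) kk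
    (x := x)
  convert add_mem (aeval_mem st u (EE_mono (fun i p hp => by
    exact ⟨⟨⟨hp.2, hp.1.1⟩, fun _ => trivial⟩, hp.1.2⟩) subset_rfl b)) (aeval_mem st v e) using 1
  simpa using (congrArg (fun q => Polynomial.aeval (Dp f kk) q y) w).symm

end Pool.Agent.P.MP_9321be_ag.SM
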