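import Pool.Agent.P.MP_9321be_ag.SM.Iface

/-! Step SHP. -/

set_option autoImplicit false
set_option linter.unusedSectionVars false

namespace Pool.Agent.P.MP_9321be_ag.SM

open Finset

theorem shp_diff {n : ℕ} {f : MvPolynomial (Fin n) ℂ} (Φ : Fan f) {F : Finset (Gn n)}
    (hF : F ∈ Φ.FF) (v z : Fin n → ℝ) :
    v ⬝ᵥ z = Φ.u F ⬝ᵥ z + ∑ j ∈ F, (Φ.d F j ⬝ᵥ z) * ps v (pt j) := by
  rw [Φ.dot_expand hF v z, Φ.dot_expand hF (Φ.u F) z, ← sum_add_distrib]
  refine sum_congr rfl fun j hj => ?_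
  rw [Φ.dt_u hF hj, show ps v (pt j) = dt v (pt j) - kp j from rfl]
  ring

theorem p_SHP :
    S_SHP := by
  classical
  intro n f D J z hz
  refine ⟨fun p hp hJ ⟨F1, hF1, h1⟩ => ?_, fun F hF p h0 h => ?_⟩
  · obtain ⟨F, hF, hm⟩ := exists_max_image (D.FS.filter fun F => ps (D.u F) p = 0)
      (fun F => D.u F ⬝ᵥ z) ⟨F1, mem_filter.2 ⟨hF1, h1⟩⟩
    obtain ⟨hF, h0⟩ := mem_filter.1 hF
    have hF' := Dat.FS_FF hF
    refine ⟨F, hF, h0, fun j hj hG hd => (Dat.dt_nonneg hp hF h0 hG).lt_of_ne fun e => ?_⟩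
    have hs : ∀ g ∈ D.Gs, g ∈ F.erase j := fun g hg =>
      mem_erase.2 ⟨fun e => hG (e ▸ hg), (Dat.mem_FS.1 hF).2 hg⟩
    obtain ⟨F', h2, h3, h4⟩ | ⟨i, h2, h3⟩ := D.pivot F hF' j hj
    · have h5 : ∀ g ∈ F, g ≠ j → ps (D.u F') (pt g) = 0 := fun g hg e =>
        D.tight F' h2 g (h3 (mem_erase.2 ⟨e, hg⟩))
      have h6 : ps (D.u F') p = 0 := by
        rw [D.ps_expand hF', h0, zero_add,
          sum_eq_single_of_mem j hj fun g hg e => by rw [h5 g hg e, mul_zero], ← e, zero_mul]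
      have h7 := hm F' (mem_filter.2 ⟨Dat.mem_FS.2 ⟨h2, fun g hg => h3 (hs g hg)⟩, h6⟩)
      have h8 := shp_diff D.toFan hF' (D.u F') z
      rw [sum_eq_single_of_mem j hj fun g hg e => by rw [h5 g hg e, mul_zero]] at h8
      have h9 := mul_pos hd (D.ps_pos h2 hF' hj h4)
      linarith
    · have hi : i ∈ D.I0 := Dat.mem_I0.2 fun g hg => h3 g (hs g hg)
      have h5 : (p.2.1 i : ℝ) = 0 := by
        rw [D.mi_expand hF', sum_eq_single_of_mem j hj fun g hg e => by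
          rw [h3 g (mem_erase.2 ⟨e, hg⟩)]; simp, ← e, zero_mul]
      have h6 : 0 < z i := by
        rw [D.expand F hF' z i, sum_eq_single_of_mem j hj fun g hg e => by
          rw [h3 g (mem_erase.2 ⟨e, hg⟩)]; simp]
        exact mul_pos hd (by exact_mod_cast Nat.pos_of_ne_zero h2)
      have h7 := hJ i hi fun e => (hz.neg i hi e).not_gt h6
      have h8 : p.2.1 i = 0 := by exact_mod_cast h5
      omega
  · have hF' := Dat.FS_FF hF
    have hw : ∀ i ∈ D.I0, ∀ g ∈ F, 0 ≤ dt (D.d F g) p * wv g i := fun i hi g hg => by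
      by_cases e : g ∈ D.Gs
      · rw [Dat.mem_I0.1 hi g e]; simp
      · exact mul_nonneg (h g hg e).1 (Nat.cast_nonneg _)
    have hp : p ∈ D.R0 := by
      refine ⟨fun F' h1 => ?_, fun i hi => ?_⟩
      · rw [D.ps_expand hF', h0, zero_add]
        refine sum_nonneg fun g hg => ?_
        by_cases e : g ∈ D.Gs
        · rw [D.tight F' (Dat.FS_FF h1) g ((Dat.mem_FS.1 h1).2 e), mul_zero]
        · exact mul_nonneg (h g hg e).1 (D.pos F' (Dat.FS_FF h1) g (D.sub F hF' hg))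
      · have h1 : (0 : ℝ) ≤ p.2.1 i := by
          rw [D.mi_expand hF']
          exact sum_nonneg (hw i hi)
        exact_mod_cast h1
    refine ⟨hp, fun i hi hJ => ?_, fun F' h1 h2 h3 => ?_⟩
    · have h1 := hz.pos i hi hJ
      rw [D.expand F hF' z i] at h1
      obtain ⟨g, hg, h2⟩ : ∃ g ∈ F, 0 < (D.d F g ⬝ᵥ z) * wv g i := by
        by_contra e
        exact h1.not_ge (sum_nonpos fun g hg => not_lt.1 fun e' => e ⟨g, hg, e'⟩)
      have h3 : (0 : ℝ) < wv g i := (Nat.cast_nonneg _).lt_of_ne fun e => by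
        rw [← e, mul_zero] at h2
        exact h2.false
      have h4 : g ∉ D.Gs := fun e => by
        rw [Dat.mem_I0.1 hi g e] at h3
        simp at h3
      have h5 : (0 : ℝ) < p.2.1 i := by
        rw [D.mi_expand hF']
        exact sum_pos' (hw i hi) ⟨g, hg, mul_pos ((h g hg h4).2 ((mul_pos_iff_of_pos_right h3).1 h2)) h3⟩
      have h6 : 0 < p.2.1 i := by exact_mod_cast h5
      omega
    · have hn : ∀ g ∈ F, g ∉ F' → (D.d F g ⬝ᵥ z) * ps (D.u F') (pt g) < 0 := fun g hg e => by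
        have h4 : g ∉ D.Gs := fun e' => e ((Dat.mem_FS.1 h1).2 e')
        have h5 : dt (D.d F g) p = 0 := by
          rw [← Dat.dt_eq_dt hp hF h1 h0 h2 g, D.dt_off e]
        have h6 : D.d F g ⬝ᵥ z < 0 :=
          (not_lt.1 fun e' => ((h g hg h4).2 e').ne' h5).lt_of_ne (hz.gen F hF g hg)
        exact mul_neg_of_neg_of_pos h6 (D.ps_pos (Dat.FS_FF h1) hF' hg e)
      obtain ⟨g, hg, e⟩ : ∃ g ∈ F, g ∉ F' := by
        by_contra e
        refine h3 (eq_of_subset_of_card_le (fun g hg => by_contra fun e' => e ⟨g, hg, e'⟩) ?_).symm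
        rw [D.card F hF', D.card F' (Dat.FS_FF h1)]
      have h4 : ∑ g ∈ F, (D.d F g ⬝ᵥ z) * ps (D.u F') (pt g) < 0 := by
        refine sum_neg' (fun g hg => ?_) ⟨g, hg, hn g hg e⟩
        by_cases e : g ∈ F'
        · rw [D.tight F' (Dat.FS_FF h1) g e, mul_zero]
        · exact (hn g hg e).le
      have h5 := shp_diff D.toFan hF' (D.u F') z
      linarith

end Pool.Agent.P.MP_9321be_ag.SM
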