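import Pool.Agent.P.MP_9321be_ag.SM.Iface

/-! Step SHR. -/

set_option autoImplicit false
set_option linter.unusedSectionVars false

namespace Pool.Agent.P.MP_9321be_ag.SM

open Finset

open Dat

section

variable {n : ℕ} {f : MvPolynomial (Fin n) ℂ} {D : Dat f} {J : Finset (Fin n)} {z : Fin n → ℝ}
  {c : Prop} {U U' : Set ℝ} {F F' : Finset (Gn n)} {p q : L n}

theorem shr_B (hSHP : S_SHP) (hz : D.GZ J z) (hF : F ∈ D.FS) (hp : p ∈ D.W z c U U' F) :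
    p ∈ D.R0 ∧ p ∈ D.DJ J ∧
      ∀ F' ∈ D.FS, ps (D.u F') p = 0 → F' ≠ F → D.u F' ⬝ᵥ z < D.u F ⬝ᵥ z :=
  (hSHP n f D J z hz).2 F hF p hp.1 fun j hj => (hp.2.1 j hj).2.1

theorem shr_two (hSHP : S_SHP) (hz : D.GZ J z) (hF : F ∈ D.FS) (hc : c ↔ ¬ D.t2 ⊆ F)
    (hp : p ∈ D.W z c U U' F) : p ∈ D.A (D.PP c U) J ∧ p ∉ D.Rg (D.QQ c U') := by
  obtain ⟨h0, h1, -⟩ := shr_B hSHP hz hF hp
  refine ⟨⟨⟨h0, fun _ => ⟨fun j hj => ?_, fun h j hj => ?_, hp.2.2.1⟩⟩, h1⟩, fun h => ?_⟩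
  · rw [lm_eq h0 hF hp.1]
    exact (hp.2.1 j ((mem_FS.1 hF).2 hj)).1 hj
  · rw [lm_eq h0 hF hp.1]
    exact (hp.2.1 j (not_not.1 (mt hc.2 h) hj)).2.2 h hj
  · obtain ⟨a, b⟩ | a := h.2 ⟨F, hF, hp.1⟩
    · obtain ⟨j, hj, hj'⟩ := not_subset.1 (hc.1 a)
      exact (b j hj).ne' (lm_off h0 hF hp.1 hj')
    · exact hp.2.2.2 a

theorem shr_one (hSHP : S_SHP) (hz : D.GZ J z) (hp : p ∈ D.A (D.PP c U) J) :
    p ∈ D.Rg (D.QQ c U') ∨ ∃ F ∈ D.FS, (c ↔ ¬ D.t2 ⊆ F) ∧ p ∈ D.W z c U U' F := by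
  refine or_iff_not_imp_left.2 fun h => ?_
  have h0 := hp.1.1
  obtain ⟨ho, hq⟩ := Classical.not_imp.1 (not_and.1 h h0)
  obtain ⟨F, hF, h1, h2⟩ := (hSHP n f D J z hz).1 p h0 hp.2 ho
  obtain ⟨a, b, d⟩ := hp.1.2 ho
  refine ⟨F, hF, ⟨fun hc ht => hq (.inl ⟨hc, fun j hj => ?_⟩), fun ht => by_contra fun hc => ?_⟩,
    h1, fun j hj => ⟨fun e => ?_, fun e => ⟨dt_nonneg h0 hF h1 e, h2 j hj e⟩, fun hc e => ?_⟩, d,
    fun e => hq (.inr e)⟩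
  · rw [lm_eq h0 hF h1]
    exact h2 j (ht hj) (fun e => (mem_t2.1 hj).2.1.not_ge (mem_Gs.1 e).2) (hz.big F hF ht j hj)
  · obtain ⟨j, hj, hj'⟩ := not_subset.1 ht
    exact (mem_t2.1 hj).2.1.not_ge ((b hc j hj).trans_eq (lm_off h0 hF h1 hj'))
  · exact (a j e).trans_eq (lm_eq h0 hF h1 j)
  · exact (b hc j e).trans_eq (lm_eq h0 hF h1 j)

theorem shr_three (hSHP : S_SHP) (hz : D.GZ J z) (hU : IsUpperSet U) (hF : F ∈ D.FS)
    (hc : c ↔ ¬ D.t2 ⊆ F) (hp : p ∈ D.W z c U U' F) (hq : q ∈ D.Gam 0) :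
    p + q ∈ D.Rg (D.QQ c U') ∨ ∃ F' ∈ D.FS, (c ↔ ¬ D.t2 ⊆ F') ∧ p + q ∈ D.W z c U U' F' ∧
      (F' ≠ F → D.u F' ⬝ᵥ z < D.u F ⬝ᵥ z) := by
  obtain ⟨h0, -, h1⟩ := shr_B hSHP hz hF hp
  exact (shr_one hSHP hz (A_add (mono_PP c hU) le_rfl (shr_two hSHP hz hF hc hp).1 hq)).imp_right
    fun ⟨F', a, b, d⟩ => ⟨F', a, b, d, h1 F' a (ps_add_zero h0 hq.1 a d.1).1⟩

end

theorem p_SHR (hGZ : S_GZ) (hSHP : S_SHP) (hSHW : S_SHW) (hRX : S_RX) :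
    S_SHR := by
  classical
  intro n f D J c U U' t M hU hU' hM ht
  obtain ⟨z, hz⟩ := hGZ n f D J
  set B := D.Rg (D.QQ c U') with hB
  let X : Finset (Finset (Gn n)) → Set (L n) := fun S =>
    {p | p ∈ B ∨ ∃ F ∈ S, p ∈ D.W z c U U' F}
  let Ok : Finset (Finset (Gn n)) → Prop := fun S => ∀ F ∈ S, F ∈ D.FS ∧ (c ↔ ¬ D.t2 ⊆ F) ∧
    ∀ F' ∈ D.FS, (c ↔ ¬ D.t2 ⊆ F') → D.u F' ⬝ᵥ z < D.u F ⬝ᵥ z → F' ∈ S
  have hBc : ∀ p ∈ B, ∀ q ∈ D.Gam 0, p + q ∈ B := fun p hp q hq =>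
    Rg_add (mono_QQ c hU') le_rfl hp hq
  have hcl : ∀ S, Ok S → ∀ p ∈ X S, ∀ q ∈ D.Gam 0, p + q ∈ X S := by
    rintro S hS p (hp | ⟨F, hF, hp⟩) q hq
    · exact .inl (hBc p hp q hq)
    · refine (shr_three hSHP hz hU (hS F hF).1 (hS F hF).2.1 hp hq).imp_right
        fun ⟨F', a, b, d, e⟩ => ⟨F', ?_, d⟩
      by_cases h : F' = F
      exacts [h ▸ hF, (hS F hF).2.2 F' a b (e h)]
  have hst : ∀ Y : Set (L n), (∀ p ∈ Y, ∀ q ∈ D.Gam 0, p + q ∈ Y) →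
      ∀ r, ∀ x ∈ sp Y, D.eta t M r * x ∈ sp Y := fun Y h r x hx =>
    mul_comm x _ ▸ mul_mem h hx (eta_mem t M r)
  have key : ∀ S, Ok S → Reg (D.eta t M) (sp (X S)) (sp B) := by
    intro S
    induction S using Finset.induction_on_max_value (fun F => D.u F ⬝ᵥ z) with
    | empty =>
      refine fun _ r x hx _ => Submodule.mem_sup_left (sp_mono ?_ hx)
      rintro p (hp | ⟨F, hF, -⟩)
      exacts [hp, absurd hF (notMem_empty _)]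
    | insert F S hF hmax ih =>
      intro hS
      obtain ⟨f1, f2, f3⟩ := hS F (mem_insert_self _ _)
      have hS' : Ok S := fun G hG => by
        obtain ⟨g1, g2, g3⟩ := hS G (mem_insert_of_mem hG)
        exact ⟨g1, g2, fun F' a b d => (mem_insert.1 (g3 F' a b d)).resolve_left fun e =>
          (e ▸ d).not_ge (hmax G hG)⟩
      have hX : X (insert F S) = D.W z c U U' F ∪ X S := Set.ext fun p => by
        simp only [X, Set.mem_ofPred_eq, Set.mem_union, mem_insert, exists_eq_or_imp, or_left_comm]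
      refine hRX n _ _ (sp (X S)) _ (sp_mono fun p => .inl) (sp_mono (hX ▸ Set.subset_union_right))
        (hst _ (hcl _ hS)) (hst _ (hcl _ hS')) (hst _ hBc) ?_ (ih hS')
      rw [hX]
      refine hSHW n f D J z c U U' t M F _ hz hM ht f1 (Set.disjoint_left.2 ?_)
        (fun p hp j hj hj' => ?_) (hcl _ hS')
      · rintro p hp (h | ⟨G, hG, h⟩)
        · exact (shr_two hSHP hz f1 f2 hp).2 h
        · exact ((shr_B hSHP hz (hS' G hG).1 h).2.2 F f1 hp.1 fun e => hF (e ▸ hG)).not_ge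
            (hmax G hG)
      · obtain ⟨G, hG, hjG⟩ := mem_VS.1 hj
        refine (shr_three hSHP hz hU f1 f2 hp (nsmul_Gam (pt_Gam (D.sub G (FS_FF hG) hjG))
          M)).imp_right fun ⟨F', a, b, d, e⟩ => ⟨F', ?_, d⟩
        have h : F' ≠ F := fun h => by
          have h1 := (h ▸ d).1
          rw [map_add, hp.1, zero_add, map_nsmul, nsmul_eq_mul] at h1
          exact (mul_pos (Nat.cast_pos.2 hM) (D.ps_pos (FS_FF f1) (FS_FF hG) hjG hj')).ne' h1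
        exact (mem_insert.1 (f3 F' a b (e h))).resolve_left h
  have e : D.A (D.PP c U) J ∪ B = X (D.FS.filter fun F => c ↔ ¬ D.t2 ⊆ F) := by
    refine Set.Subset.antisymm ?_ ?_
    · rintro p (hp | hp)
      · exact (shr_one hSHP hz hp).imp_right fun ⟨F, a, b, d⟩ => ⟨F, mem_filter.2 ⟨a, b⟩, d⟩
      · exact .inl hp
    · rintro p (hp | ⟨F, hF, hp⟩)
      · exact .inr hp
      · exact .inl (shr_two hSHP hz (mem_filter.1 hF).1 (mem_filter.1 hF).2 hp).1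
  rw [e]
  exact key _ fun F hF => ⟨(mem_filter.1 hF).1, (mem_filter.1 hF).2,
    fun F' a b _ => mem_filter.2 ⟨a, b⟩⟩

end Pool.Agent.P.MP_9321be_ag.SM
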