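import Pool.Agent.P.MP_9321be_ag.SM.Iface

/-! Step SHW. -/

set_option autoImplicit false
set_option linter.unusedSectionVars false

namespace Pool.Agent.P.MP_9321be_ag.SM

open Finset

theorem shw_nu {P : ℝ → Prop} (a : ℝ) (lo : ∀ x, P x → a ≤ x) {M : ℝ} (hM : 0 < M) :
    ∃ ν : ℝ → ℕ, ∀ x, P x → ν (x + M) = ν x + 1 ∧ (ν x ≠ 0 → P (x - M)) := by
  classical
  have ex : ∀ x, ∃ t : ℕ, ¬ P (x - (t + 1) * M) := fun x => by
    obtain ⟨t, ht⟩ := exists_nat_gt ((x - a) / M)
    rw [div_lt_iff₀ hM] at ht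
    exact ⟨t, fun h => by linarith [lo _ h]⟩
  have e : ∀ (x : ℝ) (t : ℕ), x + M - ((t + 1 : ℕ) + 1) * M = x - (t + 1) * M := fun x t => by
    push_cast
    ring
  refine ⟨fun x => Nat.find (ex x), fun x hx => ⟨?_, fun h => ?_⟩⟩
  · beta_reduce
    rw [Nat.find_comp_succ (ex (x + M)) ((ex x).imp fun t h => by rwa [e]) (by simpa using hx)]
    exact congrArg (· + 1) (Nat.find_congr' (by intro t; rw [e]))
  · simpa using Nat.find_min (ex x) (Nat.pos_of_ne_zero h)

theorem p_SHW (hWP : S_WP) (hSHP : S_SHP) :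
    S_SHW := by
  intro n f D J z c U U' t M F B hz hM ht hF hd h1 h2
  have hFF := Dat.FS_FF hF
  have hV : F ⊆ D.VS := fun j hj => Dat.mem_VS.2 ⟨F, hF, hj⟩
  choose ν hν using fun j => shw_nu (P := D.Ray z c F j) (min (D.l j) 0) (fun x h => by
    by_cases e : j ∈ D.Gs
    exacts [(min_le_left _ _).trans (h.1 e), (min_le_right _ _).trans (h.2.1 e).1])
    (M := M) (by exact_mod_cast hM)
  have od : ∀ p, ps (D.u F) p = 0 → (∀ j ∈ F, D.Ray z c F j (dt (D.d F j) p)) →
      D.od p = ∑ i, dt (D.d F (Sum.inr i)) p - p.2.2 := fun p a b =>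
    Dat.od_eq ((hSHP n f D J z hz).2 F hF p a fun j hj e => (b j hj).2.1 e).1 hF a
  have key : ∀ p ∈ D.W z c U U' F, ∀ j ∈ F, ∀ s : ℤ,
      D.Ray z c F j (dt (D.d F j) p + s) → p + s • pt j ∈ D.W z c U U' F := by
    intro p hp j hj s hs
    have a : ps (D.u F) (p + s • pt j) = 0 := by
      rw [map_add, map_zsmul, hp.1, D.tight F hFF j hj, smul_zero, add_zero]
    have b : ∀ k ∈ F, D.Ray z c F k (dt (D.d F k) (p + s • pt j)) := fun k hk => by
      rw [map_add, map_zsmul, D.dual F hFF k hk j hj]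
      split_ifs with e
      · simpa [e] using hs
      · simpa using hp.2.1 k hk
    have o := Dat.od_vertex hF hj
    rw [Dat.od_eq (Dat.pt_R0 (D.sub F hFF hj)) hF (D.tight F hFF j hj), sub_eq_zero] at o
    have e : D.od (p + s • pt j) = D.od p := by
      rw [od _ a b, od p hp.1 hp.2.1]
      simp only [map_add, map_zsmul, sum_add_distrib, ← smul_sum, o, Prod.snd_add, Prod.smul_snd]
      ring
    exact ⟨a, b, e ▸ hp.2.2⟩
  refine hWP n _ _ B F (fun j => M • pt j) (fun j p => ν j (dt (D.d F j) p)) t (D.card F hFF)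
    (ht.mono hV) hd (fun p hp j hj => ?_) (fun r p hp => ?_) fun r x hx =>
      mul_mem (fun q hq p hp => add_comm p q ▸ h2 p hp q hq) (Dat.eta_mem t M r) hx
  · obtain ⟨⟨a, b, d⟩, h3, h4⟩ := And.intro (hp.2.1 j hj) (hν j _ (hp.2.1 j hj))
    have m : (0 : ℝ) ≤ (M : ℤ) := by positivity
    refine ⟨by
      simpa using key p hp j hj M ⟨fun e => le_add_of_le_of_nonneg (a e) m, fun e =>
        ⟨add_nonneg (b e).1 m, fun e' => add_pos_of_pos_of_nonneg ((b e).2 e') m⟩,
        fun e e' => le_add_of_le_of_nonneg (d e e') m⟩, ?_, fun k hk e => ?_, fun h => ?_⟩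
    · rwa [map_add, map_nsmul, D.dual F hFF j hj j hj, if_pos rfl, nsmul_one]
    · rw [map_add, map_nsmul, D.dual F hFF k hk j hj, if_neg e, smul_zero, add_zero]
    · simpa [sub_eq_add_neg] using key p hp j hj (-M) (by simpa [sub_eq_add_neg] using h4 h)
  · classical
    rw [Dat.eta, sum_mul, ← sum_sdiff hV]
    simp only [smul_mul_assoc, ← e_add, add_comm _ p, add_sub_cancel_right]
    exact sum_mem fun j hj => Submodule.smul_mem _ _
      (e_mem (h1 p hp j (mem_sdiff.1 hj).1 (mem_sdiff.1 hj).2))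

end Pool.Agent.P.MP_9321be_ag.SM
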