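import Pool.Agent.P.MP_9321be_ag.SM.Iface

/-! Step TW. -/

set_option autoImplicit false
set_option linter.unusedSectionVars false

namespace Pool.Agent.P.MP_9321be_ag.SM

open Finset

theorem tw_small {ι : Type} (s : Finset ι) (A B : ι → ℝ) :
    ∃ t : ℝ, 0 < t ∧ ∀ g ∈ s, 0 < A g → 0 < A g + t * B g := by
  have h : ∀ᶠ t : ℝ in nhds 0, ∀ g ∈ s, 0 < A g → 0 < A g + t * B g :=
    (Filter.eventually_all_finset s).2 fun g _ => by
      by_cases h : 0 < A g
      · have c : Continuous fun t : ℝ => A g + t * B g := by fun_prop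
        exact (c.continuousAt.eventually (lt_mem_nhds (by simpa using h))).mono fun _ e _ => e
      · exact Filter.Eventually.of_forall fun _ e => absurd e h
  exact ((eventually_mem_nhdsWithin (s := Set.Ioi (0 : ℝ))).and
    (h.filter_mono nhdsWithin_le_nhds)).exists

theorem p_TW :
    S_TW := by
  intro n f Φ F hF S hS ⟨j0, hj0⟩ hr
  obtain ⟨t, ht, h⟩ := tw_small (gens f) (fun g => ps (Φ.u F) (pt g))
    fun g => ∑ j ∈ F \ S, dt (Φ.d F j) (pt g)
  set w := Φ.u F + t • ∑ j ∈ F \ S, Φ.d F j with hw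
  have e (p : L n) : ps w p = ps (Φ.u F) p + t * ∑ j ∈ F \ S, dt (Φ.d F j) p := by
    simp only [hw, ps_apply, dt_apply, add_dotProduct, smul_dotProduct, sum_dotProduct, smul_eq_mul]
    ring
  have key (g) (hg : g ∈ gens f) : 0 ≤ ps w (pt g) ∧ (ps w (pt g) = 0 ↔
      ps (Φ.u F) (pt g) = 0 ∧ ∀ j ∉ S, dt (Φ.d F j) (pt g) = 0) := by
    rw [e]
    rcases (Φ.pos F hF g hg).eq_or_lt with h0 | h0
    · have c := Φ.cone F hF g hg h0.symm
      rw [← h0, zero_add, mul_eq_zero, sum_eq_zero_iff_of_nonneg fun j _ => c j]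
      refine ⟨mul_nonneg ht.le (sum_nonneg fun j _ => c j), fun h1 => ⟨rfl, fun j hj => ?_⟩,
        fun h1 => Or.inr fun j hj => h1.2 j (mem_sdiff.1 hj).2⟩
      by_cases hjF : j ∈ F
      exacts [h1.resolve_left ht.ne' j (mem_sdiff.2 ⟨hjF, hj⟩), Φ.dt_off hjF _]
    · have := h g hg h0
      exact ⟨this.le, fun h1 => absurd h1 this.ne', fun h1 => absurd h1.1 h0.ne'⟩
  have er (v : Fin n → ℝ) (i : Fin n) : ps v (pt (Sum.inr i)) = v i * 2 := by
    simp [ps_apply, pt, kp, rv, wv, dotProduct, Pi.single_apply]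
  have ea (a : Fin n →₀ ℕ) : ∑ i, (a i : ℝ) * w i = ps w (pt (Sum.inl a)) + 1 := by
    simp [ps_apply, pt, kp, rv, wv, dotProduct, mul_comm]
  have ga {a : Fin n →₀ ℕ} : Sum.inl a ∈ gens f ↔ a ∈ f.support := inl_mem_disjSum
  refine ⟨w, fun i => ?_, fun a ha => ?_⟩
  · obtain ⟨h1, h2⟩ := key _ (inr_mem_gens f i)
    have h3 : 0 < ps w (pt (Sum.inr i)) := h1.lt_of_ne fun h3 => by
      obtain ⟨h4, h5⟩ := h2.1 h3.symm
      have h6 := Φ.ray F hF i (by simpa [er] using h4)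
      simpa [h5 _ (hr i)] using Φ.dual F hF _ h6 _ h6
    rw [er] at h3
    linarith
  · obtain ⟨h1, h2⟩ := key _ (ga.2 ha)
    simp only [ea, add_le_add_iff_right]
    refine ⟨fun h3 => ?_, fun h3 b hb => (h2.2 ⟨h3.1, h3.2.1⟩).trans_le (key _ (ga.2 hb)).1⟩
    obtain a0 | i := j0
    swap
    · exact absurd hj0 (hr i)
    have g0 := Φ.sub F hF (hS hj0)
    have h4 := (key _ g0).2.2 ⟨Φ.tight F hF _ (hS hj0), fun j hj => by
      by_cases hjF : j ∈ F
      · rw [Φ.dual F hF j hjF _ (hS hj0), if_neg fun e' : j = _ => hj (e' ▸ hj0)]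
      · exact Φ.dt_off hjF _⟩
    obtain ⟨h5, h6⟩ := h2.1 (le_antisymm ((h3 a0 (ga.1 g0)).trans_eq h4) h1)
    refine ⟨h5, h6, ?_⟩
    rw [sum_eq_zero fun i _ => h6 _ (hr i)]
    simp [pt, kp]

end Pool.Agent.P.MP_9321be_ag.SM
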