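import Pool.Agent.P.MP_9321be_ag.SM.Iface

/-! Step WEYL. -/

set_option autoImplicit false
set_option linter.unusedSectionVars false

namespace Pool.Agent.P.MP_9321be_ag.SM

open Finset

variable {n : ℕ} {f : MvPolynomial (Fin n) ℂ} {B : Set (L n)}

/-- Points with positive exponents. -/
def weyl_Pos (n : ℕ) : Set (L n) := {p | ∀ i, 1 ≤ p.2.1 i}

/-- Points of polynomial multipliers. -/
def weyl_Pol (n : ℕ) : Set (L n) := {p | p.1 = 0 ∧ ∀ i, 0 ≤ p.2.1 i}

variable (f B) in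
/-- Elements all of whose polynomial multiples are exact. -/
def weyl_Gd : Submodule ℂ (R n) where
  carrier := {x | x ∈ sp (weyl_Pos n) ∧ ∀ w ∈ sp (weyl_Pol n), w * x ∈ EE f TT B}
  zero_mem' := ⟨zero_mem _, fun w _ => by simp⟩
  add_mem' h h' := ⟨add_mem h.1 h'.1, fun w hw => by
    rw [mul_add]; exact add_mem (h.2 w hw) (h'.2 w hw)⟩
  smul_mem' c x h := ⟨Submodule.smul_mem _ _ h.1, fun w hw => by
    rw [mul_smul_comm]; exact Submodule.smul_mem _ _ (h.2 w hw)⟩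

theorem weyl_mem {x : R n} : x ∈ weyl_Gd f B ↔
    x ∈ sp (weyl_Pos n) ∧ ∀ w ∈ sp (weyl_Pol n), w * x ∈ EE f TT B := Iff.rfl

theorem weyl_cl (i : Fin n) : Cl f (TT i) := fun _ hp _ _ =>
  ⟨add_nonneg hp.1 (Nat.cast_nonneg _), fun j hj => le_add_of_le_of_nonneg (hp.2 j hj)
    (Nat.cast_nonneg _)⟩

theorem weyl_leib (ψ : L n →+ ℝ) (w x : R n) : Dp f ψ (w * x) = nd ψ w * x + w * Dp f ψ x := by
  simp only [Dp_apply, nd_mul]
  ring

theorem weyl_comm (m : Fin n → ℤ) (r : ℝ) :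
    Commute (LinearMap.mulLeft ℂ (e (0, m, r))) (Dp f kk) :=
  LinearMap.ext fun x => by simp [weyl_leib, kk_apply]

theorem weyl_mul {c x : R n} (hc : c ∈ sp (weyl_Pol n)) (hx : x ∈ weyl_Gd f B) :
    c * x ∈ weyl_Gd f B := by
  rw [weyl_mem] at hx ⊢
  refine ⟨mul_mem ?_ hc hx.1, fun w hw => ?_⟩
  · exact fun p hp q hq i => le_add_of_nonneg_of_le (hp.2 i) (hq i)
  · rw [← mul_assoc]
    refine hx.2 _ (mul_mem ?_ hw hc)
    exact fun p hp q hq => ⟨by simp [hp.1, hq.1], fun i => add_nonneg (hp.2 i) (hq.2 i)⟩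

theorem weyl_pol (i : Fin n) (r : ℝ) : e (0, Pi.single i 1, r) ∈ sp (weyl_Pol n) :=
  e_mem ⟨rfl, fun j => by simp only [Pi.single_apply]; split_ifs <;> simp⟩

theorem weyl_smul {A : Set (L n)} {p : L n} {c : ℂ} (h : c ≠ 0 → p ∈ A) : c • e p ∈ sp A := by
  by_cases e : c = 0
  · simp [e]
  · exact Submodule.smul_mem _ _ (e_mem (h e))

theorem weyl_d1 (i : Fin n) {x : R n} (hx : x ∈ sp (weyl_Pos n)) :
    Dp f (mi i) (e (0, -Pi.single i 1, 0) * x) ∈ sp (weyl_Pos n) := by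
  rw [← LinearMap.mulLeft_apply ℂ, ← LinearMap.comp_apply]
  refine map_mem _ (fun p hp => ?_) hx
  rw [LinearMap.comp_apply, LinearMap.mulLeft_apply, ← e_add, Dp_apply, nd_e, th_mul_e]
  refine add_mem (weyl_smul fun h j => ?_) (sum_mem fun g _ => weyl_smul fun h j => ?_)
  · have h1 := hp j
    have h2 : (-1 + p.2.1 i : ℤ) ≠ 0 := fun e => h (by
      simpa [mi_apply] using congrArg (Int.cast : ℤ → ℂ) e)
    rcases eq_or_ne j i with rfl | e
    · simp; omega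
    · simpa [e] using h1
  · have h1 := hp j
    have h2 : wv g i ≠ 0 := fun e => h (by simp [mi_pt, e])
    rcases eq_or_ne j i with rfl | e
    · simp [pt]; omega
    · simp [pt, e]; omega

theorem weyl_d2 (i : Fin n) {w : R n} (hw : w ∈ sp (weyl_Pol n)) :
    nd (mi i) w * e (0, -Pi.single i 1, 0) ∈ sp (weyl_Pol n) := by
  rw [← LinearMap.mulRight_apply ℂ, ← LinearMap.comp_apply]
  refine map_mem _ (fun p hp => ?_) hw
  rw [LinearMap.comp_apply, nd_e, map_smul, LinearMap.mulRight_apply, ← e_add]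
  refine weyl_smul fun h => ⟨by simp [hp.1], fun j => ?_⟩
  have h1 := hp.2 j
  have h2 : p.2.1 i ≠ 0 := fun e => h (by simp [mi_apply, e])
  rcases eq_or_ne j i with rfl | e
  · simp; omega
  · simpa [e] using h1

theorem weyl_d3 (i : Fin n) {w x : R n} (hw : w ∈ sp (weyl_Pol n)) (hx : x ∈ sp (weyl_Pos n)) :
    w * e (0, -Pi.single i 1, 0) * x ∈ sp (TT i) := by
  have h1 : w * e (0, -Pi.single i 1, 0) ∈
      sp {p | -1 ≤ p.2.1 i ∧ ∀ k, k ≠ i → 0 ≤ p.2.1 k} := by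
    refine mul_mem ?_ hw (e_mem (Set.mem_singleton _))
    rintro p hp q rfl
    exact ⟨by simpa using hp.2 i, fun k hk => by simpa [hk] using hp.2 k⟩
  refine mul_mem ?_ h1 hx
  exact fun p hp q hq => ⟨by simpa using add_le_add hp.1 (hq i),
    fun k hk => le_add_of_nonneg_of_le (hp.2 k hk) (hq k)⟩

theorem weyl_d4 (i : Fin n) {z : R n} (hz : z ∈ sp (TT i)) : Dp f (mi i) z ∈ EE f TT B := by
  refine mem_EE.2 ⟨Pi.single i z, fun j => ?_, ?_⟩
  · rcases eq_or_ne j i with rfl | e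
    · rwa [Pi.single_eq_same]
    · simp [e]
  · rw [sum_eq_single i (fun j _ e => by simp [e]) (by simp)]
    simp

theorem weyl_der (i : Fin n) {x : R n} (hx : x ∈ weyl_Gd f B) :
    Dp f (mi i) (e (0, -Pi.single i 1, 0) * x) ∈ weyl_Gd f B := by
  rw [weyl_mem] at hx ⊢
  refine ⟨weyl_d1 i hx.1, fun w hw => ?_⟩
  rw [← sub_eq_iff_eq_add'.2 (weyl_leib (mi i) w _), ← mul_assoc, ← mul_assoc]
  exact sub_mem (weyl_d4 i (weyl_d3 i hw hx.1)) (hx.2 _ (weyl_d2 i hw))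

/-- The embedding as a linear map. -/
noncomputable def weyl_U (α : ℝ) : NN n →ₗ[ℂ] R n := LinearMap.mulRight ℂ (e (p0 n α)) ∘ₗ
  (Polynomial.aevalTower em (e (1, 0, 0))).toLinearMap

theorem weyl_U_eq (α : ℝ) (y : NN n) : UU α y = weyl_U α y := rfl

theorem weyl_U_C (α : ℝ) (h : MvPolynomial (Fin n) ℂ) (y : NN n) :
    weyl_U α (Polynomial.C h * y) = em h * weyl_U α y := by
  simp [weyl_U, mul_assoc]

theorem weyl_op (hWU : S_WU) (α : ℝ) {Q : Module.End ℂ (NN n)} (hQ : Q ∈ AN f) :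
    ∃ T : Module.End ℂ (R n), (∀ y, weyl_U α (Q y) = T (weyl_U α y)) ∧ Commute T (Dp f kk) ∧
      ∀ x ∈ weyl_Gd f B, T x ∈ weyl_Gd f B := by
  induction hQ using Algebra.adjoin_induction with
  | mem Q hQ =>
    rcases hQ with ⟨i, rfl⟩ | ⟨i, rfl⟩
    · exact ⟨_, fun y => by simp [weyl_U_C, em], weyl_comm (Pi.single i 1) 0,
        fun x hx => weyl_mul (weyl_pol i 0) hx⟩
    · refine ⟨Dp f (mi i) * LinearMap.mulLeft ℂ (e (0, -Pi.single i 1, 0)) -
        (2 : ℂ) • LinearMap.mulLeft ℂ (e (0, Pi.single i 1, 1)), fun y => ?_,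
        ((Dp_commute f _ _).mul_left (weyl_comm _ _)).sub_left ((weyl_comm _ _).smul_left _),
        fun x hx => ?_⟩
      · rw [← weyl_U_eq, (hWU n f α y).1 i, weyl_U_eq]
        simp
      · simpa using sub_mem (weyl_der i hx)
          (Submodule.smul_mem _ (2 : ℂ) (weyl_mul (weyl_pol i 1) hx))
  | algebraMap c => exact ⟨algebraMap ℂ _ c, fun y => by simp, Algebra.commutes _ _,
      fun x hx => Submodule.smul_mem _ _ hx⟩
  | add Q Q' _ _ h h' =>
    obtain ⟨T, a1, a2, a3⟩ := h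
    obtain ⟨T', b1, b2, b3⟩ := h'
    exact ⟨T + T', fun y => by simp [a1, b1], a2.add_left b2,
      fun x hx => add_mem (a3 x hx) (b3 x hx)⟩
  | mul Q Q' _ _ h h' =>
    obtain ⟨T, a1, a2, a3⟩ := h
    obtain ⟨T', b1, b2, b3⟩ := h'
    exact ⟨T * T', fun y => by simp [a1, b1], a2.mul_left b2, fun x hx => a3 _ (b3 x hx)⟩

theorem weyl_aeval (hWU : S_WU) (α : ℝ) (b : Polynomial ℂ) (y : NN n) :
    weyl_U α (Polynomial.aeval (EN f) b y) =
      Polynomial.aeval (Dp f kk - algebraMap ℂ _ (α : ℂ)) b (weyl_U α y) := by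
  induction b using Polynomial.induction_on generalizing y with
  | C c => simp
  | add p q h h' => simp [h, h']
  | monomial k c h =>
    have := (hWU n f α y).2.1
    simp only [weyl_U_eq] at this
    rw [pow_succ, ← mul_assoc, map_mul, map_mul _ (_ * _), Module.End.mul_apply,
      Module.End.mul_apply, h, Polynomial.aeval_X, Polynomial.aeval_X, this]
    rfl

theorem p_WEYL (hWU : S_WU) :
    S_WEYL := by
  intro n f g b α B ⟨N, Q, hQ, h⟩ hB h0
  have h1 : em g * e (p0 n α) = weyl_U α (Polynomial.C g) := by simp [weyl_U]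
  have h2 : ∀ x ∈ EE f TT B, Dp f kk x ∈ EE f TT B := fun x => EE_Dp weyl_cl hB kk
  rw [Polynomial.aeval_comp, map_sub, Polynomial.aeval_X, Polynomial.aeval_C, h1,
    ← weyl_aeval hWU, h, map_sum]
  refine sum_mem fun j _ => ?_
  obtain ⟨T, a1, a2, a3⟩ := weyl_op (B := B) hWU α (hQ j)
  have h3 : T (e (p0 n (α - 1))) ∈ EE f TT B := by
    have h4 : e (p0 n (α - 1)) ∈ weyl_Gd f B := by
      refine weyl_mem.2 ⟨e_mem fun _ => le_rfl, fun w hw => EE_of_mem
        (mul_mem ?_ hw (e_mem (Set.mem_singleton _)))⟩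
      rintro p hp q rfl
      exact h0 _ (by simp [hp.1, p0]) fun i => by simpa [p0] using hp.2 i
    simpa using (weyl_mem.1 (a3 _ h4)).2 (e 0) (e_mem ⟨rfl, fun _ => le_rfl⟩)
  have h4 := weyl_aeval (f := f) hWU α (Polynomial.X ^ j) (Q j (Polynomial.C f))
  have h5 := LinearMap.congr_fun a2.eq (e (p0 n (α - 1)))
  rw [Module.End.mul_apply, Module.End.mul_apply] at h5
  rw [map_pow, Polynomial.aeval_X] at h4
  rw [h4, a1, ← weyl_U_eq, (hWU n f α 0).2.2, map_sub, map_smul, h5]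
  refine aeval_mem (fun x hx => ?_) _ (sub_mem (Submodule.smul_mem _ _ h3) (h2 _ h3))
  rw [LinearMap.sub_apply, Module.algebraMap_end_apply]
  exact sub_mem (h2 x hx) (Submodule.smul_mem _ _ hx)

end Pool.Agent.P.MP_9321be_ag.SM
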