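import Pool.Agent.P.MP_9321be_ag.SM.Iface

/-! Step WIN. -/

set_option autoImplicit false
set_option linter.unusedSectionVars false

namespace Pool.Agent.P.MP_9321be_ag.SM

open Finset

theorem win_un {n : ℕ} {X X' B : Set (L n)} {y : R n} (h : ∀ x ∈ sp X, y * x ∈ sp X')
    (h' : ∀ x ∈ sp B, y * x ∈ sp B) : ∀ x ∈ sp (X ∪ B), y * x ∈ sp (X' ∪ B) := fun _ hx =>
  map_mem (LinearMap.mulLeft ℂ y) (fun _ hp => hp.elim
    (fun a => sp_mono Set.subset_union_left (h _ (e_mem a)))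
    fun a => sp_mono Set.subset_union_right (h' _ (e_mem a))) hx

theorem p_WIN (hACY : S_ACY) (hSHR : S_SHR) (hNST : S_NST) :
    S_WIN := by
  intro n f D hf c U U' hU hU' h1 z hz hs
  obtain ⟨M, hM, hN⟩ := hNST n f D hf
  choose! s s0 s1 using hN
  obtain ⟨t, ht⟩ := Countable.exists_injective_nat D.VS
  let τ : Gn n → ℂ := fun j => if h : j ∈ D.VS then t ⟨j, h⟩ else 0
  have hτ : Set.InjOn τ D.VS := fun j hj j' hj' e => by
    simp only [τ, dif_pos (mem_coe.1 hj), dif_pos (mem_coe.1 hj'), Nat.cast_inj] at e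
    exact congrArg Subtype.val (ht e)
  have mP := Dat.mono_PP (D := D) c hU
  have mQ := Dat.mono_QQ (D := D) c hU'
  have gA : ∀ J, ∀ y ∈ sp (D.Gam 0), ∀ x ∈ sp (D.A (D.PP c U) J), y * x ∈ sp (D.A (D.PP c U) J) :=
    fun J y hy x => mul_mem (fun p hp q hq => add_comm q p ▸ Dat.A_add mP le_rfl hq hp) hy
  have gB : ∀ y ∈ sp (D.Gam 0), ∀ x ∈ sp (D.Rg (D.QQ c U')), y * x ∈ sp (D.Rg (D.QQ c U')) :=
    fun y hy x => mul_mem (fun p hp q hq => add_comm q p ▸ Dat.Rg_add mQ le_rfl hq hp) hy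
  have tB := fun i x => (Dat.cl_Rg (D := D) mQ).th (mi i) (x := x)
  have m : ∀ (r i : Fin n), ∑ j ∈ D.VS, τ j ^ r.1 • s j i ∈ sp (D.Gam 0) := fun r i =>
    sum_mem fun j hj => Submodule.smul_mem _ _ (s0 j hj i)
  have g1 : ∀ J, ∀ p ∈ D.Gam 1, ∀ q ∈ D.A (D.PP c U) J ∪ D.Rg (D.QQ c U'),
      p + q ∈ D.Rg (D.QQ c U') := by
    rintro J p hp q (hq | hq)
    · refine ⟨Dat.R0_add hp.1 hq.1.1, fun h => .inr ?_⟩
      obtain ⟨b1, b2, -, b3⟩ := Dat.on_add hp.1 hq.1.1 h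
      refine hU' ?_ (h1 _ (hq.1.2 b2).2.2)
      have := (hp.2 b1).2
      linarith
    · exact add_comm q p ▸ Dat.Rg_add mQ zero_le_one hq hp
  have g2 : ∀ r, D.eta τ M r - ∑ i, (∑ j ∈ D.VS, τ j ^ r.1 • s j i) * th f (mi i) ∈
      sp (D.Gam 1) := fun r => by
    simp only [Dat.eta, sum_mul, smul_mul_assoc]
    rw [sum_comm, ← sum_sub_distrib]
    refine sum_mem fun j hj => ?_
    rw [← smul_sum, ← smul_sub]
    exact Submodule.smul_mem _ _ (s1 j hj)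
  obtain ⟨v, a1, a2, a3⟩ := hACY n (fun i => th f (mi i)) (D.eta τ M)
    (fun r i => ∑ j ∈ D.VS, τ j ^ r.1 • s j i)
    (fun J => sp (D.A (D.PP c U) J ∪ D.Rg (D.QQ c U'))) (fun _ => sp (D.Rg (D.QQ c U')))
    (fun J J' h => sp_mono (Set.union_subset_union_left _ (Dat.A_mono (fun _ _ h => h) h)))
    (fun _ _ _ => le_rfl) (fun J i => win_un (fun x => Dat.th_A mP i) (tB i)) (fun _ => tB)
    (fun J r i => win_un (gA J _ (m r i)) (gB _ (m r i))) (fun _ r i => gB _ (m r i))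
    (fun J r => win_un (gA J _ (Dat.eta_mem τ M r)) (gB _ (Dat.eta_mem τ M r)))
    (fun _ r => gB _ (Dat.eta_mem τ M r)) (fun J r x => mul_mem (g1 J) (g2 r))
    (fun J => hSHR n f D J c U U' τ M hU hU' hM hτ) z
    (fun i => sp_mono Set.subset_union_left (hz i)) hs
  refine ⟨fun i j => v i j - fl (D.Rg (D.QQ c U')) (v i j), fun i j => ?_, fun i j =>
    sp_mono (fun p hp => hp.1.resolve_right hp.2) (sub_fl_mem _ (a2 i j)), fun i => ?_⟩
  · simp only [a1 i j, map_neg]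
    ring
  · simp only [mul_sub, sum_sub_distrib, ← sub_add]
    exact add_mem (a3 i) (sum_mem fun j _ => tB _ _
      (sp_mono Set.inter_subset_right (fl_mem _ (a2 i j))))

end Pool.Agent.P.MP_9321be_ag.SM
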