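import Pool.Agent.P.MP_9321be_ag.SM.TACY
import Pool.Agent.P.MP_9321be_ag.SM.TWP
import Pool.Agent.P.MP_9321be_ag.SM.TRX
import Pool.Agent.P.MP_9321be_ag.SM.TPUSH
import Pool.Agent.P.MP_9321be_ag.SM.TFB
import Pool.Agent.P.MP_9321be_ag.SM.TFE
import Pool.Agent.P.MP_9321be_ag.SM.TFM
import Pool.Agent.P.MP_9321be_ag.SM.TFD
import Pool.Agent.P.MP_9321be_ag.SM.TFAN
import Pool.Agent.P.MP_9321be_ag.SM.TLINK
import Pool.Agent.P.MP_9321be_ag.SM.TGZ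
import Pool.Agent.P.MP_9321be_ag.SM.TSHP
import Pool.Agent.P.MP_9321be_ag.SM.TSHW
import Pool.Agent.P.MP_9321be_ag.SM.TSHR
import Pool.Agent.P.MP_9321be_ag.SM.TTW
import Pool.Agent.P.MP_9321be_ag.SM.TTOR
import Pool.Agent.P.MP_9321be_ag.SM.TNST
import Pool.Agent.P.MP_9321be_ag.SM.TWIN
import Pool.Agent.P.MP_9321be_ag.SM.TGR2
import Pool.Agent.P.MP_9321be_ag.SM.TGR1
import Pool.Agent.P.MP_9321be_ag.SM.TWN
import Pool.Agent.P.MP_9321be_ag.SM.TONE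
import Pool.Agent.P.MP_9321be_ag.SM.TWU
import Pool.Agent.P.MP_9321be_ag.SM.TWEYL
import Pool.Agent.P.MP_9321be_ag.SM.TS2
import Pool.Agent.P.MP_9321be_ag.SM.TG0
import Pool.Agent.P.MP_9321be_ag.SM.TRAISE
import Pool.Agent.P.MP_9321be_ag.SM.TINT
import Pool.Agent.P.MP_9321be_ag.SM.TROOT
import Pool.Agent.P.MP_9321be_ag.SM.TCHI
import Pool.Agent.P.MP_9321be_ag.SM.TEV
import Pool.Agent.P.MP_9321be_ag.SM.TMAINB
import Pool.Agent.P.MP_9321be_ag.SM.Fin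

/-!
The strong monodromy conjecture for simplicial non-degenerate polynomials.
-/

set_option autoImplicit false

namespace Pool.Agent.P.MP_9321be_ag.SM

theorem s_ACY : S_ACY := p_ACY
theorem s_WP : S_WP := p_WP
theorem s_RX : S_RX := p_RX
theorem s_PUSH : S_PUSH := p_PUSH
theorem s_FB : S_FB := p_FB
theorem s_FE : S_FE := p_FE
theorem s_FM : S_FM := p_FM s_FE
theorem s_FD : S_FD := p_FD
theorem s_FAN : S_FAN := p_FAN s_FB s_FE s_FM s_FD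
theorem s_LINK : S_LINK := p_LINK
theorem s_GZ : S_GZ := p_GZ
theorem s_SHP : S_SHP := p_SHP
theorem s_SHW : S_SHW := p_SHW s_WP s_SHP
theorem s_SHR : S_SHR := p_SHR s_GZ s_SHP s_SHW s_RX
theorem s_TW : S_TW := p_TW
theorem s_TOR : S_TOR := p_TOR s_TW
theorem s_NST : S_NST := p_NST s_TOR
theorem s_WIN : S_WIN := p_WIN s_ACY s_SHR s_NST
theorem s_GR2 : S_GR2 := p_GR2 s_WIN
theorem s_GR1 : S_GR1 := p_GR1
theorem s_WN : S_WN := p_WN
theorem s_ONE : S_ONE := p_ONE s_WN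
theorem s_WU : S_WU := p_WU
theorem s_WEYL : S_WEYL := p_WEYL s_WU
theorem s_S2 : S_S2 := p_S2 s_PUSH
theorem s_G0 : S_G0 := p_G0
theorem s_RAISE : S_RAISE := p_RAISE s_PUSH
theorem s_INT : S_INT := p_INT
theorem s_ROOT : S_ROOT := p_ROOT
theorem s_CHI : S_CHI := p_CHI s_INT s_ROOT
theorem s_EV : S_EV := p_EV s_CHI
theorem s_MAINB : S_MAINB := p_MAINB s_WN s_WEYL s_S2 s_G0 s_RAISE s_GR2 s_GR1 s_EV

theorem conjecture (n : ℕ) (f : MvPolynomial (Fin n) ℂ) (h0 : MvPolynomial.coeff 0 f = 0)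
    (hn : ND.Nondeg f) (hs : Simplicial f) : StrongMonodromyConjecture f :=
  fin s_ONE s_FAN s_LINK s_MAINB n f h0 hn hs

end Pool.Agent.P.MP_9321be_ag.SM
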