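import Pool.Agent.P.MP_9321be_ag.SM.Defs

/-!
The group algebra in which the microlocal module lives, supports, the operators `D`.
-/

set_option autoImplicit false
set_option linter.unusedSectionVars false

namespace Pool.Agent.P.MP_9321be_ag.SM

open Finset

/-- Points `(k, m, r)`. -/
abbrev L (n : ℕ) : Type := ℝ × (Fin n → ℤ) × ℝ

/-- The group algebra. -/
abbrev R (n : ℕ) : Type := AddMonoidAlgebra ℂ (L n)

/-- Generators: exponents and rays. -/
abbrev Gn (n : ℕ) : Type := (Fin n →₀ ℕ) ⊕ Fin n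

variable {n : ℕ}

/-- Basis vectors. -/
noncomputable def e (p : L n) : R n := AddMonoidAlgebra.single p 1

/-- Elements supported on `A`. -/
noncomputable def sp (A : Set (L n)) : Submodule ℂ (R n) := AddMonoidAlgebra.supported ℂ ℂ A

/-- The linear map with given values on the basis. -/
noncomputable def lin {V : Type} [AddCommGroup V] [Module ℂ V] (φ : L n → V) : R n →ₗ[ℂ] V :=
  (AddMonoidAlgebra.basis (L n) ℂ).constr ℂ φ

/-- Diagonal operators. -/
noncomputable def dg (c : L n → ℂ) : R n →ₗ[ℂ] R n := lin fun p => c p • e p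

open Classical in
/-- The projection onto the elements supported on `A`. -/
noncomputable def fl (A : Set (L n)) : R n →ₗ[ℂ] R n := dg fun p => if p ∈ A then 1 else 0

theorem e_add (p q : L n) : e (p + q) = e p * e q := by
  simp [e, AddMonoidAlgebra.single_mul_single]

@[simp] theorem e_zero : e (0 : L n) = 1 := rfl

theorem e_nsmul (k : ℕ) (p : L n) : e (k • p) = e p ^ k := by
  induction k with
  | zero => simp
  | succ k ih => rw [succ_nsmul, e_add, ih, pow_succ]

@[simp] theorem lin_e {V : Type} [AddCommGroup V] [Module ℂ V] (φ : L n → V) (p : L n) :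
    lin φ (e p) = φ p := by
  have : e p = AddMonoidAlgebra.basis (L n) ℂ p := by rw [AddMonoidAlgebra.basis_apply]; rfl
  rw [this, lin, Module.Basis.constr_basis]

@[simp] theorem dg_e (c : L n → ℂ) (p : L n) : dg c (e p) = c p • e p := lin_e _ _

theorem fl_e_mem {A : Set (L n)} {p : L n} (h : p ∈ A) : fl A (e p) = e p := by simp [fl, h]

theorem fl_e_not {A : Set (L n)} {p : L n} (h : p ∉ A) : fl A (e p) = 0 := by simp [fl, h]

theorem mem_sp {A : Set (L n)} {x : R n} : x ∈ sp A ↔ ∀ p ∈ x.coeff.support, p ∈ A :=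
  AddMonoidAlgebra.mem_supported

theorem sp_eq (A : Set (L n)) : sp A = Submodule.span ℂ (e '' A) :=
  AddMonoidAlgebra.supported_eq_span_single ℂ A

theorem e_mem {A : Set (L n)} {p : L n} (h : p ∈ A) : e p ∈ sp A :=
  sp_eq A ▸ Submodule.subset_span ⟨p, h, rfl⟩

theorem mem_of_e_mem {A : Set (L n)} {p : L n} (h : e p ∈ sp A) : p ∈ A :=
  mem_sp.1 h p (by simp [e])

theorem sp_mono {A B : Set (L n)} (h : A ⊆ B) : sp A ≤ sp B := AddMonoidAlgebra.supported_mono h

theorem mem_sp_self (x : R n) : x ∈ sp (x.coeff.support : Set (L n)) := mem_sp.2 fun _ h => h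

theorem mem_sp_univ (x : R n) : x ∈ sp (Set.univ : Set (L n)) := mem_sp.2 fun _ _ => trivial

theorem mem_sp_inter {A B : Set (L n)} {x : R n} : x ∈ sp (A ∩ B) ↔ x ∈ sp A ∧ x ∈ sp B := by
  simp only [mem_sp, Set.mem_inter_iff]
  exact ⟨fun h => ⟨fun p hp => (h p hp).1, fun p hp => (h p hp).2⟩,
    fun h p hp => ⟨h.1 p hp, h.2 p hp⟩⟩

theorem sp_union (A B : Set (L n)) : sp (A ∪ B) = sp A ⊔ sp B := by
  rw [sp_eq, sp_eq, sp_eq, Set.image_union, Submodule.span_union]

/-- A linear map sends `sp A` into `S` as soon as it does so on basis vectors. -/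
theorem map_mem {V : Type} [AddCommGroup V] [Module ℂ V] {A : Set (L n)} {S : Submodule ℂ V}
    (T : R n →ₗ[ℂ] V) (h : ∀ p ∈ A, T (e p) ∈ S) {x : R n} (hx : x ∈ sp A) : T x ∈ S := by
  rw [sp_eq] at hx
  exact (Submodule.span_le (p := S.comap T)).2 (by rintro _ ⟨p, hp, rfl⟩; exact h p hp) hx

/-- Two linear maps agree on `sp A` as soon as they do on basis vectors. -/
theorem map_eq {V : Type} [AddCommGroup V] [Module ℂ V] {A : Set (L n)}
    (T T' : R n →ₗ[ℂ] V) (h : ∀ p ∈ A, T (e p) = T' (e p)) {x : R n} (hx : x ∈ sp A) :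
    T x = T' x := by
  have := map_mem (S := ⊥) (T - T') (fun p hp => by simp [h p hp]) hx
  simpa [sub_eq_zero] using this

theorem lin_ext {V : Type} [AddCommGroup V] [Module ℂ V] {T T' : R n →ₗ[ℂ] V}
    (h : ∀ p, T (e p) = T' (e p)) : T = T' :=
  LinearMap.ext fun x => map_eq T T' (fun p _ => h p) (mem_sp_univ x)

theorem mul_mem {A B C : Set (L n)} (h : ∀ p ∈ A, ∀ q ∈ B, p + q ∈ C) {x y : R n}
    (hx : x ∈ sp A) (hy : y ∈ sp B) : x * y ∈ sp C :=
  map_mem (LinearMap.mulRight ℂ y) (fun p hp =>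
    map_mem (LinearMap.mulLeft ℂ (e p)) (fun q hq => by
      simpa [← e_add] using e_mem (h p hp q hq)) hy) hx

theorem dg_mem {A : Set (L n)} (c : L n → ℂ) {x : R n} (hx : x ∈ sp A) : dg c x ∈ sp A :=
  map_mem _ (fun p hp => by simpa using Submodule.smul_mem _ _ (e_mem hp)) hx

theorem fl_mem {A : Set (L n)} (B : Set (L n)) {x : R n} (hx : x ∈ sp A) :
    fl B x ∈ sp (A ∩ B) :=
  map_mem _ (fun p hp => by
    by_cases h : p ∈ B
    · rw [fl_e_mem h]; exact e_mem ⟨hp, h⟩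
    · rw [fl_e_not h]; exact zero_mem _) hx

theorem sub_fl_mem {A : Set (L n)} (B : Set (L n)) {x : R n} (hx : x ∈ sp A) :
    x - fl B x ∈ sp (A \ B) :=
  map_mem (LinearMap.id - fl B) (fun p hp => by
    by_cases h : p ∈ B
    · simp [fl_e_mem h]
    · simpa [fl_e_not h] using e_mem (A := A \ B) ⟨hp, h⟩) hx

theorem fl_of_mem {A : Set (L n)} {x : R n} (hx : x ∈ sp A) : fl A x = x :=
  map_eq (fl A) LinearMap.id (fun _ hp => fl_e_mem hp) hx

theorem fl_of_disj {A B : Set (L n)} (h : ∀ p ∈ A, p ∉ B) {x : R n} (hx : x ∈ sp A) :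
    fl B x = 0 :=
  map_eq (fl B) 0 (fun p hp => fl_e_not (h p hp)) hx

/-- An additive function defines a derivation. -/
theorem dg_mul (c : L n → ℂ) (hc : ∀ p q, c (p + q) = c p + c q) (x y : R n) :
    dg c (x * y) = dg c x * y + x * dg c y := by
  have : ∀ p, dg c ∘ₗ LinearMap.mulLeft ℂ (e p) =
      LinearMap.mulLeft ℂ (dg c (e p)) + LinearMap.mulLeft ℂ (e p) ∘ₗ dg c := fun p =>
    lin_ext fun q => by simp [← e_add, hc, add_smul]
  exact map_eq (dg c ∘ₗ LinearMap.mulRight ℂ y)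
    (LinearMap.mulRight ℂ y ∘ₗ dg c + LinearMap.mulRight ℂ (dg c y))
    (fun p _ => by simpa using LinearMap.congr_fun (this p) y) (mem_sp_univ x)

/-- The exponent of a generator. -/
def wv : Gn n → Fin n → ℕ
  | .inl a => a
  | .inr i => Pi.single i 2

/-- The level of a generator. -/
def kp : Gn n → ℝ
  | .inl _ => 1
  | .inr _ => 0

/-- The point of a generator. -/
def pt (g : Gn n) : L n := (kp g, fun i => wv g i, 1 - kp g)

/-- The generators attached to `f`. -/
noncomputable def gens (f : MvPolynomial (Fin n) ℂ) : Finset (Gn n) := f.support.disjSum univ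

/-- Their coefficients. -/
noncomputable def cf (f : MvPolynomial (Fin n) ℂ) : Gn n → ℂ
  | .inl a => -MvPolynomial.coeff a f
  | .inr _ => 1

/-- The real exponent vector of a point. -/
def rv (p : L n) : Fin n → ℝ := fun i => p.2.1 i

/-- The functional `p ↦ x · m`. -/
def dt (x : Fin n → ℝ) : L n →+ ℝ where
  toFun p := x ⬝ᵥ rv p
  map_zero' := by simp [rv, dotProduct]
  map_add' p q := by simp [rv, dotProduct, mul_add, sum_add_distrib]

/-- The functional `p ↦ k`. -/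
def kk : L n →+ ℝ := AddMonoidHom.fst _ _

/-- The functional `p ↦ m i`. -/
def mi (i : Fin n) : L n →+ ℝ where
  toFun p := p.2.1 i
  map_zero' := by simp
  map_add' p q := by simp

/-- The functional `p ↦ u · m - k`. -/
def ps (u : Fin n → ℝ) : L n →+ ℝ := dt u - kk

/-- The weight `k + r`. -/
def wt : L n →+ ℝ where
  toFun p := p.1 + p.2.2
  map_zero' := by simp
  map_add' p q := by simp; ring

theorem dt_apply (x : Fin n → ℝ) (p : L n) : dt x p = x ⬝ᵥ rv p := rfl
theorem kk_apply (p : L n) : kk p = p.1 := rfl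
theorem mi_apply (i : Fin n) (p : L n) : mi i p = p.2.1 i := rfl
theorem ps_apply (u : Fin n → ℝ) (p : L n) : ps u p = u ⬝ᵥ rv p - p.1 := rfl
theorem wt_apply (p : L n) : wt p = p.1 + p.2.2 := rfl
theorem rv_pt (g : Gn n) (i : Fin n) : rv (pt g) i = wv g i := by simp [rv, pt]
theorem wt_pt (g : Gn n) : wt (pt g) = 1 := by simp [wt_apply, pt]
theorem mi_pt (i : Fin n) (g : Gn n) : mi i (pt g) = wv g i := by simp [mi_apply, pt]
theorem dt_eq (x : Fin n → ℝ) : dt x = ∑ i, x i • mi i := by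
  ext p; simp [dt_apply, rv, dotProduct, mi_apply]

theorem inl_mem_gens {f : MvPolynomial (Fin n) ℂ} {a : Fin n →₀ ℕ} :
    Sum.inl a ∈ gens f ↔ a ∈ f.support := inl_mem_disjSum

theorem inr_mem_gens (f : MvPolynomial (Fin n) ℂ) (i : Fin n) : Sum.inr i ∈ gens f :=
  inr_mem_disjSum.2 (mem_univ i)

theorem cf_ne {f : MvPolynomial (Fin n) ℂ} {g : Gn n} (h : g ∈ gens f) : cf f g ≠ 0 := by
  cases g with
  | inl a => simpa [cf] using inl_mem_gens.1 h
  | inr i => simp [cf]

variable (f : MvPolynomial (Fin n) ℂ)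

/-- The multiplication part of `D ψ`. -/
noncomputable def th (ψ : L n →+ ℝ) : R n := ∑ g ∈ gens f, (cf f g * ψ (pt g)) • e (pt g)

/-- The diagonal part of `D ψ`. -/
noncomputable def nd (ψ : L n →+ ℝ) : R n →ₗ[ℂ] R n := dg fun p => (ψ p : ℂ)

/-- The twisted logarithmic derivative along `ψ`. -/
noncomputable def Dp (ψ : L n →+ ℝ) : Module.End ℂ (R n) := nd ψ + LinearMap.mulLeft ℂ (th f ψ)

theorem Dp_apply (ψ : L n →+ ℝ) (x : R n) : Dp f ψ x = nd ψ x + th f ψ * x := rfl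

@[simp] theorem nd_e (ψ : L n →+ ℝ) (p : L n) : nd ψ (e p) = (ψ p : ℂ) • e p := dg_e _ _

theorem th_mul_e (ψ : L n →+ ℝ) (p : L n) :
    th f ψ * e p = ∑ g ∈ gens f, (cf f g * ψ (pt g)) • e (p + pt g) := by
  simp only [th, sum_mul, smul_mul_assoc, e_add]
  simp only [mul_comm]

theorem nd_mul (ψ : L n →+ ℝ) (x y : R n) : nd ψ (x * y) = nd ψ x * y + x * nd ψ y :=
  dg_mul _ (fun p q => by simp) x y

theorem Dp_comm (ψ φ : L n →+ ℝ) (x : R n) : Dp f ψ (Dp f φ x) = Dp f φ (Dp f ψ x) := by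
  have h1 : nd ψ (th f φ) = nd φ (th f ψ) := by
    simp only [th, map_sum, map_smul, nd_e, smul_smul]
    exact sum_congr rfl fun g _ => by congr 1; ring
  have h2 : nd ψ (nd φ x) = nd φ (nd ψ x) :=
    map_eq (nd ψ ∘ₗ nd φ) (nd φ ∘ₗ nd ψ) (fun p _ => by simp [smul_smul, mul_comm])
      (mem_sp_univ x)
  simp only [Dp_apply, map_add, nd_mul, h1, h2]
  ring

theorem Dp_commute (ψ φ : L n →+ ℝ) : Commute (Dp f ψ) (Dp f φ) :=
  LinearMap.ext (Dp_comm f ψ φ)

theorem Dp_sub (ψ φ : L n →+ ℝ) : Dp f (ψ - φ) = Dp f ψ - Dp f φ :=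
  lin_ext fun p => by
    simp only [LinearMap.sub_apply, Dp_apply, nd_e, th_mul_e, AddMonoidHom.sub_apply,
      Complex.ofReal_sub, mul_sub, sub_smul, sum_sub_distrib]
    abel

theorem th_dt (x : Fin n → ℝ) : th f (dt x) = ∑ i, (x i : ℂ) • th f (mi i) := by
  simp only [th, dt_eq, smul_sum, smul_smul]
  rw [sum_comm]
  refine sum_congr rfl fun g _ => ?_
  rw [← sum_smul]
  congr 1
  simp [mul_sum, mul_left_comm]

theorem Dp_dt (x : Fin n → ℝ) (y : R n) : Dp f (dt x) y = ∑ i, Dp f (mi i) ((x i : ℂ) • y) := by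
  have : nd (dt x) y = ∑ i, (x i : ℂ) • nd (mi i) y := by
    have := map_eq (nd (dt x)) (∑ i, (x i : ℂ) • nd (mi i)) (fun p _ => by
      simp only [nd_e, LinearMap.sum_apply, LinearMap.smul_apply, smul_smul, ← sum_smul, dt_eq]
      simp) (mem_sp_univ y)
    simpa using this
  simp only [Dp_apply, this, th_dt, map_smul, sum_mul, smul_add, sum_add_distrib, smul_mul_assoc]

/-- Sets closed under adding generators. -/
def Cl (A : Set (L n)) : Prop := ∀ p ∈ A, ∀ g ∈ gens f, p + pt g ∈ A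

variable {f}

theorem Cl.th {A : Set (L n)} (h : Cl f A) (ψ : L n →+ ℝ) {x : R n} (hx : x ∈ sp A) :
    th f ψ * x ∈ sp A :=
  map_mem (LinearMap.mulLeft ℂ (SM.th f ψ)) (fun p hp => by
    rw [LinearMap.mulLeft_apply, th_mul_e]
    exact sum_mem fun g hg => Submodule.smul_mem _ _ (e_mem (h p hp g hg))) hx

theorem Cl.Dp {A : Set (L n)} (h : Cl f A) (ψ : L n →+ ℝ) {x : R n} (hx : x ∈ sp A) :
    Dp f ψ x ∈ sp A := add_mem (dg_mem _ hx) (h.th ψ hx)

theorem Cl.inter {A B : Set (L n)} (h : Cl f A) (h' : Cl f B) : Cl f (A ∩ B) :=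
  fun p hp g hg => ⟨h p hp.1 g hg, h' p hp.2 g hg⟩

theorem Cl.union {A B : Set (L n)} (h : Cl f A) (h' : Cl f B) : Cl f (A ∪ B) :=
  fun p hp g hg => hp.imp (h p · g hg) (h' p · g hg)

/-- A submodule stable under `T` is stable under polynomials in `T`. -/
theorem aeval_mem {S : Submodule ℂ (R n)} {T : Module.End ℂ (R n)} (h : ∀ x ∈ S, T x ∈ S)
    (β : Polynomial ℂ) {x : R n} (hx : x ∈ S) : Polynomial.aeval T β x ∈ S := by
  rw [Polynomial.aeval_eq_sum_range, LinearMap.sum_apply]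
  refine sum_mem fun k hk => Submodule.smul_mem _ _ ?_
  clear hk
  induction k with
  | zero => simpa using hx
  | succ k ih => rw [pow_succ']; exact h _ ih

variable (f)

/-- Exact elements with primitives supported on the `A i`, modulo elements supported on `B`. -/
def EE (A : Fin n → Set (L n)) (B : Set (L n)) : Submodule ℂ (R n) where
  carrier := {x | ∃ z : Fin n → R n, (∀ i, z i ∈ sp (A i)) ∧ x - ∑ i, Dp f (mi i) (z i) ∈ sp B}
  zero_mem' := ⟨0, fun _ => zero_mem _, by simp⟩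
  add_mem' := by
    rintro x y ⟨z, h1, h2⟩ ⟨w, h3, h4⟩
    refine ⟨z + w, fun i => add_mem (h1 i) (h3 i), ?_⟩
    convert add_mem h2 h4 using 1
    simp only [Pi.add_apply, map_add, sum_add_distrib]
    abel
  smul_mem' := by
    rintro c x ⟨z, h1, h2⟩
    refine ⟨c • z, fun i => Submodule.smul_mem _ _ (h1 i), ?_⟩
    convert Submodule.smul_mem _ c h2 using 1
    simp only [Pi.smul_apply, map_smul, smul_sub, smul_sum]

variable {f}

theorem mem_EE {A : Fin n → Set (L n)} {B : Set (L n)} {x : R n} : x ∈ EE f A B ↔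
    ∃ z : Fin n → R n, (∀ i, z i ∈ sp (A i)) ∧ x - ∑ i, Dp f (mi i) (z i) ∈ sp B := Iff.rfl

theorem EE_of_mem {A : Fin n → Set (L n)} {B : Set (L n)} {x : R n} (h : x ∈ sp B) :
    x ∈ EE f A B := ⟨0, fun _ => zero_mem _, by simpa using h⟩

theorem EE_mono {A A' : Fin n → Set (L n)} {B B' : Set (L n)} (h : ∀ i, A i ⊆ A' i)
    (h' : B ⊆ B') : EE f A B ≤ EE f A' B' :=
  fun _ ⟨z, h1, h2⟩ => ⟨z, fun i => sp_mono (h i) (h1 i), sp_mono h' h2⟩

theorem EE_Dp {A : Fin n → Set (L n)} {B : Set (L n)} (hA : ∀ i, Cl f (A i)) (hB : Cl f B)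
    (ψ : L n →+ ℝ) {x : R n} (hx : x ∈ EE f A B) : Dp f ψ x ∈ EE f A B := by
  obtain ⟨z, h1, h2⟩ := hx
  refine ⟨fun i => Dp f ψ (z i), fun i => (hA i).Dp ψ (h1 i), ?_⟩
  convert hB.Dp ψ h2 using 1
  simp only [map_sub, map_sum, Dp_comm f ψ]

theorem Dp_dt_mem {A : Fin n → Set (L n)} {B : Set (L n)} (x : Fin n → ℝ) {y : R n}
    (hy : ∀ i, y ∈ sp (A i)) : Dp f (dt x) y ∈ EE f A B :=
  ⟨fun i => (x i : ℂ) • y, fun i => Submodule.smul_mem _ _ (hy i), by rw [Dp_dt]; simp⟩

variable (f)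

/-- Exactness in degree one of the Koszul complex of the `th f (mi i)`. -/
def EX (A : Finset (Fin n) → Set (L n)) (B : Set (L n)) : Prop :=
  ∀ z : Fin n → R n, (∀ i, z i ∈ sp (A {i})) → ∑ i, th f (mi i) * z i ∈ sp B →
    ∃ v : Fin n → Fin n → R n, (∀ i j, v i j = -v j i) ∧ (∀ i j, v i j ∈ sp (A {i, j})) ∧
      ∀ i, z i - ∑ j, th f (mi j) * v i j ∈ sp B

/-- The submodule generated by the `η r' A`, `r' < r`. -/
noncomputable def Isp (η : Fin n → R n) (A : Submodule ℂ (R n)) (r : ℕ) : Submodule ℂ (R n) :=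
  ⨆ r' : Fin n, ⨆ _ : r'.1 < r, A.map (LinearMap.mulLeft ℂ (η r'))

/-- `η` is a regular sequence on `A / B`. -/
def Reg (η : Fin n → R n) (A B : Submodule ℂ (R n)) : Prop :=
  ∀ r : Fin n, ∀ x ∈ A, η r * x ∈ B ⊔ Isp η A r → x ∈ B ⊔ Isp η A r

/-- The point of the volume form. -/
def p0 (n : ℕ) (α : ℝ) : L n := (α, fun _ => 1, 0)

/-- Polynomials inside the group algebra. -/
noncomputable def em : MvPolynomial (Fin n) ℂ →ₐ[ℂ] R n :=
  MvPolynomial.aeval fun i => e (0, Pi.single i 1, 0)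

theorem em_monomial (a : Fin n →₀ ℕ) (c : ℂ) :
    em (MvPolynomial.monomial a c) = c • e ((0, fun i => a i, 0) : L n) := by
  have : ∀ s : Finset (Fin n), ∏ i ∈ s, e ((0, Pi.single i 1, 0) : L n) ^ a i =
      e (∑ i ∈ s, a i • ((0, Pi.single i 1, 0) : L n)) := fun s => by
    induction s using Finset.induction_on with
    | empty => simp
    | insert i s hi ih => rw [prod_insert hi, sum_insert hi, e_add, ih, e_nsmul]
  rw [em, MvPolynomial.aeval_monomial, Finsupp.prod_fintype _ _ (by simp), this, Algebra.smul_def]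
  congr 2
  ext i <;> simp [Prod.fst_sum, Prod.snd_sum, Pi.single_apply]

end Pool.Agent.P.MP_9321be_ag.SM
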