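import Pool.Agent.P.MP_9321be_ag.SM.Base

/-!
The fan of a simplicial Newton polyhedron, the data of a contributing face, regions.
-/

set_option autoImplicit false
set_option linter.unusedSectionVars false

namespace Pool.Agent.P.MP_9321be_ag.SM

open Finset

variable {n : ℕ}

/-- The facets of the cone over a simplicial Newton polyhedron, with normals and dual bases. -/
structure Fan (f : MvPolynomial (Fin n) ℂ) where
  FF : Finset (Finset (Gn n))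
  u : Finset (Gn n) → Fin n → ℝ
  d : Finset (Gn n) → Gn n → Fin n → ℝ
  sub : ∀ F ∈ FF, F ⊆ gens f
  card : ∀ F ∈ FF, F.card = n
  pos : ∀ F ∈ FF, ∀ g ∈ gens f, 0 ≤ ps (u F) (pt g)
  tight : ∀ F ∈ FF, ∀ j ∈ F, ps (u F) (pt j) = 0
  off : ∀ F, ∀ j ∉ F, d F j = 0
  dual : ∀ F ∈ FF, ∀ j ∈ F, ∀ j' ∈ F, dt (d F j) (pt j') = if j = j' then 1 else 0
  expand : ∀ F ∈ FF, ∀ (x : Fin n → ℝ) (i : Fin n), x i = ∑ j ∈ F, (d F j ⬝ᵥ x) * wv j i
  cone : ∀ F ∈ FF, ∀ g ∈ gens f, ps (u F) (pt g) = 0 → ∀ j, 0 ≤ dt (d F j) (pt g)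
  ext : ∀ F ∈ FF, ∀ F' ∈ FF, ∀ j ∈ F', ps (u F) (pt j) = 0 → j ∈ F
  ray : ∀ F ∈ FF, ∀ i, u F i = 0 → Sum.inr i ∈ F
  pivot : ∀ F ∈ FF, ∀ j ∈ F, (∃ F' ∈ FF, F.erase j ⊆ F' ∧ j ∉ F') ∨
    ∃ i, wv j i ≠ 0 ∧ ∀ j' ∈ F.erase j, wv j' i = 0
  face : ∀ v : Fin n → ℝ, (∀ g ∈ gens f, 0 ≤ ps v (pt g)) → ∃ F ∈ FF, ∀ g ∈ gens f,
    ps v (pt g) = 0 → ps (u F) (pt g) = 0 ∧ ∀ j, dt (d F j) (pt g) ≠ 0 → ps v (pt j) = 0

/-- A face `G` spanning the point of the volume form, without `U`-apex. -/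
structure Dat (f : MvPolynomial (Fin n) ℂ) extends Fan f where
  α : ℝ
  F0 : Finset (Gn n)
  G : Finset (Gn n)
  hF0 : F0 ∈ FF
  hG : G ⊆ F0
  on0 : ps (u F0) (p0 n α) = 0
  offG : ∀ j ∉ G, dt (d F0 j) (p0 n α) = 0
  noU : ∀ a ∈ G, ∀ i, wv a i = 1 → (∀ j ∈ G, j ≠ a → wv j i = 0) →
    ∃ i', i' ≠ i ∧ wv a i' ≠ 0 ∧ ∀ j ∈ G, j ≠ a → wv j i' = 0

variable {f : MvPolynomial (Fin n) ℂ}

namespace Fan

variable (Φ : Fan f) {F F' : Finset (Gn n)}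

theorem u_nonneg (hF : F ∈ Φ.FF) (i : Fin n) : 0 ≤ Φ.u F i := by
  have := Φ.pos F hF _ (inr_mem_gens f i)
  simpa [ps_apply, pt, kp, rv, wv, dotProduct, Pi.single_apply] using this

theorem dot_expand (hF : F ∈ Φ.FF) (y x : Fin n → ℝ) :
    y ⬝ᵥ x = ∑ j ∈ F, (Φ.d F j ⬝ᵥ x) * dt y (pt j) := by
  have : y ⬝ᵥ x = ∑ i, y i * ∑ j ∈ F, (Φ.d F j ⬝ᵥ x) * wv j i :=
    sum_congr rfl fun i _ => by rw [← Φ.expand F hF x i]
  rw [this]
  simp only [mul_sum]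
  rw [sum_comm]
  refine sum_congr rfl fun j _ => ?_
  rw [dt_apply, show y ⬝ᵥ rv (pt j) = ∑ i, y i * rv (pt j) i from rfl, mul_sum]
  exact sum_congr rfl fun i _ => by rw [rv_pt]; ring

theorem dt_expand (hF : F ∈ Φ.FF) (y : Fin n → ℝ) (p : L n) :
    dt y p = ∑ j ∈ F, dt (Φ.d F j) p * dt y (pt j) := Φ.dot_expand hF y (rv p)

theorem mi_expand (hF : F ∈ Φ.FF) (p : L n) (i : Fin n) :
    (p.2.1 i : ℝ) = ∑ j ∈ F, dt (Φ.d F j) p * wv j i := Φ.expand F hF (rv p) i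

theorem dt_u (hF : F ∈ Φ.FF) {j : Gn n} (hj : j ∈ F) : dt (Φ.u F) (pt j) = kp j :=
  sub_eq_zero.1 (Φ.tight F hF j hj)

/-- The basic identity between the functionals of two weights. -/
theorem ps_expand (hF : F ∈ Φ.FF) (v : Fin n → ℝ) (p : L n) :
    ps v p = ps (Φ.u F) p + ∑ j ∈ F, dt (Φ.d F j) p * ps v (pt j) := by
  have h1 := Φ.dt_expand hF v p
  have h2 := Φ.dt_expand hF (Φ.u F) p
  have h3 : ∑ j ∈ F, dt (Φ.d F j) p * ps v (pt j) = ∑ j ∈ F, dt (Φ.d F j) p * dt v (pt j) -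
      ∑ j ∈ F, dt (Φ.d F j) p * dt (Φ.u F) (pt j) := by
    rw [← sum_sub_distrib]
    exact sum_congr rfl fun j hj => by rw [Φ.dt_u hF hj, ← mul_sub]; rfl
  rw [h3, ← h1, ← h2]
  simp [ps]

theorem k_expand (hF : F ∈ Φ.FF) {p : L n} (h : ps (Φ.u F) p = 0) :
    p.1 = ∑ j ∈ F, dt (Φ.d F j) p * kp j := by
  have h1 : dt (Φ.u F) p = p.1 := sub_eq_zero.1 h
  rw [← h1, Φ.dt_expand hF]
  exact sum_congr rfl fun j hj => by rw [Φ.dt_u hF hj]

theorem ps_pos (hF : F ∈ Φ.FF) (hF' : F' ∈ Φ.FF) {j : Gn n} (hj : j ∈ F') (h : j ∉ F) :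
    0 < ps (Φ.u F) (pt j) :=
  (Φ.pos F hF j (Φ.sub F' hF' hj)).lt_of_ne fun e => h (Φ.ext F hF F' hF' j hj e.symm)

theorem dt_off {j : Gn n} (hj : j ∉ F) (p : L n) : dt (Φ.d F j) p = 0 := by
  simp [dt_apply, Φ.off F j hj]

/-- Coordinates are unique. -/
theorem dt_unique (hF : F ∈ Φ.FF) {p : L n} {c : Gn n → ℝ} {S : Finset (Gn n)} (hS : S ⊆ F)
    (h : ∀ i, (p.2.1 i : ℝ) = ∑ j ∈ S, c j * wv j i) (j : Gn n) :
    dt (Φ.d F j) p = if j ∈ S then c j else 0 := by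
  by_cases hj : j ∈ F
  · have : dt (Φ.d F j) p = ∑ j' ∈ S, c j' * dt (Φ.d F j) (pt j') := by
      simp only [dt_apply, dotProduct, rv, h, mul_sum]
      rw [sum_comm]
      exact sum_congr rfl fun j' _ => sum_congr rfl fun i _ => by simp [pt]; ring
    rw [this, sum_congr rfl fun j' hj' => by rw [Φ.dual F hF j hj j' (hS hj')]]
    simp
  · rw [Φ.dt_off hj, if_neg fun h => hj (hS h)]

end Fan

theorem exists_gap_aux {ι : Type} (s : Finset ι) (c : ι → ℝ) :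
    ∃ δ : ℝ, 0 < δ ∧ ∀ g ∈ s, 0 < c g → δ ≤ c g := by
  classical
  induction s using Finset.induction_on with
  | empty => exact ⟨1, one_pos, by simp⟩
  | insert g s _ ih =>
    obtain ⟨δ, h1, h2⟩ := ih
    by_cases h : 0 < c g
    · refine ⟨min δ (c g), lt_min h1 h, fun g' hg' h' => ?_⟩
      rcases mem_insert.1 hg' with rfl | hg'
      exacts [min_le_right _ _, (min_le_left _ _).trans (h2 g' hg' h')]
    · refine ⟨δ, h1, fun g' hg' h' => ?_⟩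
      rcases mem_insert.1 hg' with rfl | hg'
      exacts [absurd h' h, h2 g' hg' h']

/-- Monotone predicates in the coordinates and the order. -/
def Mono (P : (Gn n → ℝ) → ℝ → Prop) : Prop :=
  ∀ ⦃a b : Gn n → ℝ⦄ ⦃o o' : ℝ⦄, a ≤ b → o ≤ o' → P a o → P b o'

namespace Dat

variable (D : Dat f)

/-- The coordinates of the volume form. -/
def l (j : Gn n) : ℝ := dt (D.d D.F0 j) (p0 n D.α)

/-- The vertices with nonpositive coordinate. -/
noncomputable def Gs : Finset (Gn n) := D.G.filter fun j => D.l j ≤ 0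

/-- The coordinates not touched by `Gs`. -/
noncomputable def I0 : Finset (Fin n) := univ.filter fun i => ∀ j ∈ D.Gs, wv j i = 0

/-- The vertices with positive coordinate that do not touch `I0`. -/
noncomputable def t2 : Finset (Gn n) := D.G.filter fun j => 0 < D.l j ∧ ∀ i ∈ D.I0, wv j i = 0

/-- The facets containing `Gs`. -/
noncomputable def FS : Finset (Finset (Gn n)) := D.FF.filter fun F => D.Gs ⊆ F

/-- The vertices of the star. -/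
noncomputable def VS : Finset (Gn n) := D.FS.biUnion id

/-- The localised cone. -/
def R0 : Set (L n) := {p | (∀ F ∈ D.FS, 0 ≤ ps (D.u F) p) ∧ ∀ i ∈ D.I0, 0 ≤ p.2.1 i}

/-- The point lies on a facet of the star. -/
def ON (p : L n) : Prop := ∃ F ∈ D.FS, ps (D.u F) p = 0

open Classical in
/-- A facet through `p`. -/
noncomputable def ch (p : L n) : Finset (Gn n) := if h : D.ON p then h.choose else D.F0

/-- The coordinates of `p`. -/
noncomputable def lm (p : L n) (j : Gn n) : ℝ := dt (D.d (D.ch p) j) p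

/-- The order of `p`. -/
noncomputable def od (p : L n) : ℝ := ∑ i, D.lm p (Sum.inr i) - p.2.2

/-- The order of the volume form. -/
noncomputable def o0 : ℝ := D.od (p0 n D.α)

/-- Regions. -/
def Rg (P : (Gn n → ℝ) → ℝ → Prop) : Set (L n) := {p | p ∈ D.R0 ∧ (D.ON p → P (D.lm p) (D.od p))}

/-- The conditions along the coordinate hyperplanes. -/
def DJ (J : Finset (Fin n)) : Set (L n) := {p | ∀ i ∈ D.I0, i ∉ J → 1 ≤ p.2.1 i}

/-- The terms of the complex. -/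
def A (P : (Gn n → ℝ) → ℝ → Prop) (J : Finset (Fin n)) : Set (L n) := D.Rg P ∩ D.DJ J

/-- The monoid acting on all regions, from order `c` on. -/
def Gam (c : ℝ) : Set (L n) := D.Rg fun a o => 0 ≤ a ∧ c ≤ o

/-- The points that are neglected. -/
def B0 : Set (L n) := D.Rg fun _ o => D.o0 < o

/-- The thresholds. -/
def PP (c : Prop) (U : Set ℝ) (a : Gn n → ℝ) (o : ℝ) : Prop :=
  (∀ j ∈ D.Gs, D.l j ≤ a j) ∧ (¬ c → ∀ j ∈ D.t2, D.l j ≤ a j) ∧ o ∈ U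

/-- The neglected part. -/
def QQ (c : Prop) (U : Set ℝ) (a : Gn n → ℝ) (o : ℝ) : Prop :=
  (c ∧ ∀ j ∈ D.t2, 0 < a j) ∨ o ∈ U

/-- The regular sequence. -/
noncomputable def eta (t : Gn n → ℂ) (M : ℕ) (r : Fin n) : R n :=
  ∑ j ∈ D.VS, t j ^ r.1 • e (M • pt j)

variable {D} {F F' : Finset (Gn n)} {p q : L n} {P Q : (Gn n → ℝ) → ℝ → Prop}

theorem mem_FS : F ∈ D.FS ↔ F ∈ D.FF ∧ D.Gs ⊆ F := mem_filter
theorem mem_Gs {j : Gn n} : j ∈ D.Gs ↔ j ∈ D.G ∧ D.l j ≤ 0 := mem_filter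
theorem mem_I0 {i : Fin n} : i ∈ D.I0 ↔ ∀ j ∈ D.Gs, wv j i = 0 := by simp [I0]
theorem mem_t2 {j : Gn n} : j ∈ D.t2 ↔ j ∈ D.G ∧ 0 < D.l j ∧ ∀ i ∈ D.I0, wv j i = 0 := mem_filter
theorem mem_VS {j : Gn n} : j ∈ D.VS ↔ ∃ F ∈ D.FS, j ∈ F := by simp [VS]
theorem FS_FF (h : F ∈ D.FS) : F ∈ D.FF := (mem_FS.1 h).1

theorem F0_mem (D : Dat f) : D.F0 ∈ D.FS := mem_FS.2 ⟨D.hF0, (filter_subset _ _).trans D.hG⟩

theorem ch_mem (D : Dat f) (p : L n) : D.ch p ∈ D.FS := by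
  unfold ch
  split_ifs with h
  exacts [h.choose_spec.1, D.F0_mem]

theorem ch_on (h : D.ON p) : ps (D.u (D.ch p)) p = 0 := by
  rw [ch, dif_pos h]
  exact h.choose_spec.2

theorem dt_nonneg (hp : p ∈ D.R0) (hF : F ∈ D.FS) (h : ps (D.u F) p = 0) {j : Gn n}
    (hj : j ∉ D.Gs) : 0 ≤ dt (D.d F j) p := by
  by_cases hjF : j ∈ F
  swap
  · rw [D.dt_off hjF]
  obtain ⟨F', h1, h2, h3⟩ | ⟨i, h1, h2⟩ := D.pivot F (FS_FF hF) j hjF
  · have h4 := hp.1 F' (mem_FS.2 ⟨h1, fun g hg => h2 (mem_erase.2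
      ⟨fun e => hj (e ▸ hg), (mem_FS.1 hF).2 hg⟩)⟩)
    rw [D.ps_expand (FS_FF hF), h, zero_add, sum_eq_single_of_mem j hjF fun g hg e => by
      rw [D.tight F' h1 g (h2 (mem_erase.2 ⟨e, hg⟩)), mul_zero]] at h4
    exact nonneg_of_mul_nonneg_left h4 (D.ps_pos h1 (FS_FF hF) hjF h3)
  · have h4 : (0 : ℝ) ≤ p.2.1 i := by
      exact_mod_cast hp.2 i (mem_I0.2 fun g hg => h2 g (mem_erase.2
        ⟨fun e => hj (e ▸ hg), (mem_FS.1 hF).2 hg⟩))
    rw [D.mi_expand (FS_FF hF), sum_eq_single_of_mem j hjF fun g hg e => by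
      rw [h2 g (mem_erase.2 ⟨e, hg⟩)]; simp] at h4
    exact nonneg_of_mul_nonneg_left h4 (by exact_mod_cast Nat.pos_of_ne_zero h1)

theorem dt_eq_dt (hp : p ∈ D.R0) (hF : F ∈ D.FS) (hF' : F' ∈ D.FS) (h : ps (D.u F) p = 0)
    (h' : ps (D.u F') p = 0) (j : Gn n) : dt (D.d F' j) p = dt (D.d F j) p := by
  have h1 := D.ps_expand (FS_FF hF) (D.u F') p
  rw [h, h', zero_add, eq_comm, sum_eq_zero_iff_of_nonneg fun g hg => by
    by_cases e : g ∈ D.Gs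
    · rw [D.tight F' (FS_FF hF') g ((mem_FS.1 hF').2 e), mul_zero]
    · exact mul_nonneg (dt_nonneg hp hF h e) (D.pos F' (FS_FF hF') g (D.sub F (FS_FF hF) hg))] at h1
  have h2 : ∀ g ∉ F', dt (D.d F g) p = 0 := fun g hg => by
    by_cases e : g ∈ F
    · exact (mul_eq_zero.1 (h1 g e)).resolve_right (D.ps_pos (FS_FF hF') (FS_FF hF) e hg).ne'
    · exact D.dt_off e p
  rw [D.dt_unique (FS_FF hF') (S := F ∩ F') (c := fun g => dt (D.d F g) p) inter_subset_right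
    fun i => by
      rw [D.mi_expand (FS_FF hF)]
      exact (sum_subset inter_subset_left fun g h3 h4 => by
        rw [h2 g fun e => h4 (mem_inter.2 ⟨h3, e⟩), zero_mul]).symm]
  split_ifs with e
  · rfl
  · by_cases e' : j ∈ F
    · exact (h2 j fun e'' => e (mem_inter.2 ⟨e', e''⟩)).symm
    · exact (D.dt_off e' p).symm

theorem lm_eq (hp : p ∈ D.R0) (hF : F ∈ D.FS) (h : ps (D.u F) p = 0) (j : Gn n) :
    D.lm p j = dt (D.d F j) p := dt_eq_dt hp hF (D.ch_mem p) h (ch_on ⟨F, hF, h⟩) j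

theorem od_eq (hp : p ∈ D.R0) (hF : F ∈ D.FS) (h : ps (D.u F) p = 0) :
    D.od p = ∑ i, dt (D.d F (Sum.inr i)) p - p.2.2 := by simp only [od, lm_eq hp hF h]

theorem lm_nonneg (hp : p ∈ D.R0) (h : D.ON p) {j : Gn n} (hj : j ∉ D.Gs) : 0 ≤ D.lm p j :=
  dt_nonneg hp (D.ch_mem p) (ch_on h) hj

theorem lm_off (hp : p ∈ D.R0) (hF : F ∈ D.FS) (h : ps (D.u F) p = 0) {j : Gn n} (hj : j ∉ F) :
    D.lm p j = 0 := by rw [lm_eq hp hF h, D.dt_off hj]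

theorem R0_add (hp : p ∈ D.R0) (hq : q ∈ D.R0) : p + q ∈ D.R0 :=
  ⟨fun F hF => by rw [map_add]; exact add_nonneg (hp.1 F hF) (hq.1 F hF),
    fun i hi => add_nonneg (hp.2 i hi) (hq.2 i hi)⟩

theorem ps_add_zero (hp : p ∈ D.R0) (hq : q ∈ D.R0) (hF : F ∈ D.FS)
    (h : ps (D.u F) (p + q) = 0) : ps (D.u F) p = 0 ∧ ps (D.u F) q = 0 := by
  rw [map_add] at h
  have := hp.1 F hF
  have := hq.1 F hF
  constructor <;> linarith

theorem on_add (hp : p ∈ D.R0) (hq : q ∈ D.R0) (h : D.ON (p + q)) :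
    D.ON p ∧ D.ON q ∧ D.lm (p + q) = D.lm p + D.lm q ∧ D.od (p + q) = D.od p + D.od q := by
  obtain ⟨F, hF, h⟩ := h
  obtain ⟨h1, h2⟩ := ps_add_zero hp hq hF h
  refine ⟨⟨F, hF, h1⟩, ⟨F, hF, h2⟩, funext fun j => ?_, ?_⟩
  · rw [Pi.add_apply, lm_eq (R0_add hp hq) hF h, lm_eq hp hF h1, lm_eq hq hF h2, map_add]
  · rw [od_eq (R0_add hp hq) hF h, od_eq hp hF h1, od_eq hq hF h2]
    simp only [map_add, sum_add_distrib, Prod.snd_add]
    ring

theorem pt_R0 {g : Gn n} (hg : g ∈ gens f) : pt g ∈ D.R0 :=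
  ⟨fun F hF => D.pos F (FS_FF hF) g hg, fun i _ => by simp [pt]⟩

theorem pt_Gam {g : Gn n} (hg : g ∈ gens f) : pt g ∈ D.Gam 0 := by
  refine ⟨pt_R0 hg, fun h => ?_⟩
  have h1 : ∀ j, 0 ≤ D.lm (pt g) j := D.cone _ (FS_FF (D.ch_mem _)) g hg (ch_on h)
  refine ⟨h1, ?_⟩
  cases g with
  | inl a => simpa [od, pt, kp] using sum_nonneg fun i _ => h1 (Sum.inr i)
  | inr i =>
    have h2 : Sum.inr i ∈ D.ch (pt (Sum.inr i)) := D.ray _ (FS_FF (D.ch_mem _)) i (by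
      simpa [ps_apply, pt, kp, rv, wv, dotProduct, Pi.single_apply] using ch_on h)
    have h3 : D.lm (pt (Sum.inr i)) (Sum.inr i) = 1 := by
      rw [lm, D.dual _ (FS_FF (D.ch_mem _)) _ h2 _ h2, if_pos rfl]
    have := single_le_sum (f := fun i' => D.lm (pt (Sum.inr i)) (Sum.inr i'))
      (fun i' _ => h1 _) (mem_univ i)
    have h4 : (pt (Sum.inr i : Gn n)).2.2 = 1 := by simp [pt, kp]
    rw [od, h4]
    linarith

theorem lm_vertex (hF : F ∈ D.FS) {j : Gn n} (hj : j ∈ F) (g : Gn n) :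
    D.lm (pt j) g = if g = j then 1 else 0 := by
  rw [lm_eq (pt_R0 (D.sub F (FS_FF hF) hj)) hF (D.tight F (FS_FF hF) j hj)]
  by_cases h : g ∈ F
  · exact D.dual F (FS_FF hF) g h j hj
  · rw [D.dt_off h, if_neg fun e : g = j => h (e ▸ hj)]

theorem od_vertex (hF : F ∈ D.FS) {j : Gn n} (hj : j ∈ F) : D.od (pt j) = 0 := by
  simp only [od, lm_vertex hF hj]
  cases j <;> simp [pt, kp]

theorem Rg_add (hP : Mono P) {c : ℝ} (hc : 0 ≤ c) (hp : p ∈ D.Rg P) (hq : q ∈ D.Gam c) :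
    p + q ∈ D.Rg P := by
  refine ⟨R0_add hp.1 hq.1, fun h => ?_⟩
  obtain ⟨h1, h2, h3, h4⟩ := on_add hp.1 hq.1 h
  rw [h3, h4]
  exact hP (le_add_of_nonneg_right (hq.2 h2).1) (le_add_of_nonneg_right (hc.trans (hq.2 h2).2))
    (hp.2 h1)

theorem DJ_add {J : Finset (Fin n)} (hp : p ∈ D.DJ J) (hq : q ∈ D.R0) : p + q ∈ D.DJ J :=
  fun i hi h => le_add_of_le_of_nonneg (hp i hi h) (hq.2 i hi)

theorem A_add (hP : Mono P) {J : Finset (Fin n)} {c : ℝ} (hc : 0 ≤ c) (hp : p ∈ D.A P J)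
    (hq : q ∈ D.Gam c) : p + q ∈ D.A P J := ⟨Rg_add hP hc hp.1 hq, DJ_add hp.2 hq.1⟩

theorem cl_Rg (hP : Mono P) : Cl f (D.Rg P) := fun _ hp _ hg => Rg_add hP le_rfl hp (pt_Gam hg)

theorem cl_A (hP : Mono P) (J : Finset (Fin n)) : Cl f (D.A P J) :=
  fun _ hp _ hg => A_add hP le_rfl hp (pt_Gam hg)

theorem Rg_mono (h : ∀ a o, P a o → Q a o) : D.Rg P ⊆ D.Rg Q :=
  fun _ hp => ⟨hp.1, fun h' => h _ _ (hp.2 h')⟩

theorem DJ_mono {J J' : Finset (Fin n)} (h : J ⊆ J') : D.DJ J ⊆ D.DJ J' :=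
  fun _ hp i hi h' => hp i hi fun e => h' (h e)

theorem A_mono (h : ∀ a o, P a o → Q a o) {J J' : Finset (Fin n)} (h' : J ⊆ J') :
    D.A P J ⊆ D.A Q J' := Set.inter_subset_inter (Rg_mono h) (DJ_mono h')

theorem mono_PP (c : Prop) {U : Set ℝ} (hU : IsUpperSet U) : Mono (D.PP c U) :=
  fun _ _ _ _ h1 h2 h => ⟨fun j hj => (h.1 j hj).trans (h1 j),
    fun hc j hj => (h.2.1 hc j hj).trans (h1 j), hU h2 h.2.2⟩

theorem mono_QQ (c : Prop) {U : Set ℝ} (hU : IsUpperSet U) : Mono (D.QQ c U) :=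
  fun _ _ _ _ h1 h2 h => h.imp (fun h => ⟨h.1, fun j hj => (h.2 j hj).trans_le (h1 j)⟩) (hU h2)

theorem cl_B0 : Cl f D.B0 := cl_Rg fun _ _ _ _ _ h2 h => h.trans_le h2

theorem Gam_add {c c' : ℝ} (hp : p ∈ D.Gam c) (hq : q ∈ D.Gam c') : p + q ∈ D.Gam (c + c') := by
  refine ⟨R0_add hp.1 hq.1, fun h => ?_⟩
  obtain ⟨h1, h2, h3, h4⟩ := on_add hp.1 hq.1 h
  rw [h3, h4]
  exact ⟨add_nonneg (hp.2 h1).1 (hq.2 h2).1, add_le_add (hp.2 h1).2 (hq.2 h2).2⟩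

theorem zero_Gam : (0 : L n) ∈ D.Gam 0 :=
  ⟨⟨fun _ _ => by simp, fun _ _ => le_rfl⟩, fun _ => ⟨fun j => by simp [lm], by simp [od, lm]⟩⟩

theorem nsmul_Gam (hp : p ∈ D.Gam 0) (M : ℕ) : M • p ∈ D.Gam 0 := by
  induction M with
  | zero => simpa using zero_Gam
  | succ M ih => rw [succ_nsmul]; simpa using Gam_add ih hp

theorem eta_mem (t : Gn n → ℂ) (M : ℕ) (r : Fin n) : D.eta t M r ∈ sp (D.Gam 0) :=
  sum_mem fun j hj => by
    obtain ⟨F, hF, hj⟩ := mem_VS.1 hj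
    exact Submodule.smul_mem _ _ (e_mem (nsmul_Gam (pt_Gam (D.sub F (FS_FF hF) hj)) M))

/-- The Koszul differential of the `th` respects the conditions along the hyperplanes. -/
theorem th_A (hP : Mono P) {J : Finset (Fin n)} (i : Fin n) {x : R n}
    (hx : x ∈ sp (D.A P (insert i J))) : th f (mi i) * x ∈ sp (D.A P J) :=
  map_mem (LinearMap.mulLeft ℂ (th f (mi i))) (fun p hp => by
    rw [LinearMap.mulLeft_apply, th_mul_e]
    refine sum_mem fun g hg => ?_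
    by_cases h : wv g i = 0
    · simp [mi_pt, h]
    refine Submodule.smul_mem _ _ (e_mem ⟨cl_Rg hP p hp.1 g hg, fun i' hi' h' => ?_⟩)
    by_cases e : i' = i
    · subst e
      have := hp.1.1.2 i' hi'
      simp only [pt, Prod.snd_add, Prod.fst_add, Pi.add_apply]
      omega
    · exact DJ_add hp.2 (pt_R0 hg) i' hi' (by simp [e, h'])) hx

/-- So does the diagonal part. -/
theorem nd_A {J : Finset (Fin n)} (i : Fin n) {x : R n}
    (hx : x ∈ sp (D.A P (insert i J))) : nd (mi i) x ∈ sp (D.A P J) :=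
  map_mem (nd (mi i)) (fun p hp => by
    rw [nd_e]
    by_cases h : p.2.1 i = 0
    · simp [mi_apply, h]
    refine Submodule.smul_mem _ _ (e_mem ⟨hp.1, fun i' hi' h' => ?_⟩)
    by_cases e : i' = i
    · subst e
      have := hp.1.1.2 i' hi'
      omega
    · exact hp.2 i' hi' (by simp [e, h'])) hx

theorem l_off {j : Gn n} (hj : j ∉ D.G) : D.l j = 0 := D.offG j hj

theorem l_nonneg {j : Gn n} (hj : j ∉ D.Gs) : 0 ≤ D.l j := by
  by_cases h : j ∈ D.G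
  · exact (not_le.1 fun e => hj (mem_Gs.2 ⟨h, e⟩)).le
  · rw [l_off h]

theorem p0_R0 (D : Dat f) : p0 n D.α ∈ D.R0 := by
  refine ⟨fun F hF => ?_, fun i _ => by simp [p0]⟩
  rw [D.ps_expand D.hF0, D.on0, zero_add]
  refine sum_nonneg fun j hj => ?_
  by_cases e : j ∈ D.Gs
  · rw [D.tight F (FS_FF hF) j ((mem_FS.1 hF).2 e), mul_zero]
  · exact mul_nonneg (l_nonneg e) (D.pos F (FS_FF hF) j (D.sub _ D.hF0 hj))

theorem lm_p0 (D : Dat f) : D.lm (p0 n D.α) = D.l := funext (lm_eq D.p0_R0 D.F0_mem D.on0)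

theorem wt_eq (hp : p ∈ D.R0) (hF : F ∈ D.FS) (h : ps (D.u F) p = 0) :
    wt p = ∑ j ∈ F, D.lm p j - D.od p := by
  have h1 : ∑ i, D.lm p (Sum.inr i) = ∑ j ∈ F, D.lm p j * (1 - kp j) := by
    rw [← sum_subset (s₁ := univ.filter fun i => Sum.inr i ∈ F) (subset_univ _) fun i _ hi =>
      lm_off hp hF h (by simpa using hi)]
    symm
    refine sum_bij_ne_zero (fun j _ hj => ?_) ?_ ?_ ?_ ?_
    · cases j with
      | inl a => exact absurd (by simp [kp]) hj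
      | inr i => exact i
    · rintro (a | i) h1 h2
      · exact absurd (by simp [kp]) h2
      · simpa using h1
    · rintro (a | i) h1 h2 (a' | i') h3 h4 e
      · exact absurd (by simp [kp]) h2
      · exact absurd (by simp [kp]) h2
      · exact absurd (by simp [kp]) h4
      · exact congrArg _ e
    · intro i h1 h2
      exact ⟨Sum.inr i, by simpa using h1, by simpa [kp] using h2, rfl⟩
    · rintro (a | i) h1 h2
      · exact absurd (by simp [kp]) h2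
      · simp [kp]
  rw [wt_apply, od, h1, D.k_expand (FS_FF hF) h]
  simp only [lm_eq hp hF h, mul_sub, mul_one, sum_sub_distrib]
  ring

end Dat

end Pool.Agent.P.MP_9321be_ag.SM
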