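import Pool.Agent.P.MP_9321be_ag.ND.Defs

/-!
Roots of the local Bernstein-Sato polynomial, simplicial Newton polyhedra, and the strong
monodromy conjecture.
-/

namespace Pool.Agent.P.MP_9321be_ag.SM

open MvPolynomial
open scoped NNReal

variable {σ : Type} [Fintype σ] [DecidableEq σ]

/-- The Weyl algebra: the operators on polynomials generated by the multiplications by the
variables and the derivatives with respect to the variables. -/
noncomputable def weyl (σ : Type) : Subalgebra ℂ (Module.End ℂ (MvPolynomial σ ℂ)) :=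
  Algebra.adjoin ℂ (Set.range (fun i : σ => LinearMap.mulLeft ℂ (X i : MvPolynomial σ ℂ)) ∪
    Set.range (fun i : σ => (pderiv i : Derivation ℂ (MvPolynomial σ ℂ) _).toLinearMap))

/-- `b` satisfies a local functional equation `g b(s) f ^ s = P(s) f ^ (s + 1)` at the origin,
with `g(0) ≠ 0` and `P(s) = ∑ j, s ^ j P j` a polynomial in `s` over the Weyl algebra. -/
def BSRel (f : MvPolynomial σ ℂ) (b : Polynomial ℂ) : Prop :=
  ∃ (g : MvPolynomial σ ℂ) (N : ℕ) (P : ℕ → Module.End ℂ (MvPolynomial σ ℂ)),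
    eval 0 g ≠ 0 ∧ (∀ j, P j ∈ weyl σ) ∧
    ∀ k : ℕ, b.eval (k : ℂ) • (g * f ^ k) = ∑ j ∈ Finset.range N, (k : ℂ) ^ j • P j (f ^ (k + 1))

/-- `c` is a root of the local Bernstein-Sato polynomial of `f` at the origin, the generator of
the ideal of all `b` with a local functional equation. -/
def IsBSRoot (f : MvPolynomial σ ℂ) (c : ℂ) : Prop := ∀ b, BSRel f b → b.eval c = 0

/-- The generators of the cone over the face of the Newton polyhedron cut out by `u`: the
exponents of weight one and the unbounded directions. -/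
def faceGens (f : MvPolynomial σ ℂ) (u : σ → ℝ) : Set (σ → ℝ) :=
  {x | (∃ a ∈ f.support, ∑ i, (a i : ℝ) * u i = 1 ∧ x = fun i => (a i : ℝ)) ∨
    ∃ i, u i = 0 ∧ x = Pi.single i 1}

/-- The Newton polyhedron of `f` is simplicial: the cone over every face visible from the origin
is generated by linearly independent vectors. -/
def Simplicial (f : MvPolynomial σ ℂ) : Prop :=
  ∀ u : σ → ℝ, (∀ i, 0 ≤ u i) → (∀ a ∈ f.support, 1 ≤ ∑ i, (a i : ℝ) * u i) →
    ∃ S ⊆ faceGens f u, LinearIndepOn ℝ id S ∧ faceGens f u ⊆ Submodule.span ℝ≥0 S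

/-- The strong monodromy conjecture for `f` at the origin. -/
def StrongMonodromyConjecture (f : MvPolynomial σ ℂ) : Prop :=
  ∃ S : Finset (ℕ × ℕ), (∀ q ∈ S, 0 < q.1 ∧ 0 < q.2) ∧ RationalWith lefInv S (zeta f) ∧
    ∀ q ∈ S, IsBSRoot f (-((q.2 : ℂ) / q.1))

end Pool.Agent.P.MP_9321be_ag.SM
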