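import Pool.Agent.P.MP_9321be_ag.SM.BaseG
import Pool.Agent.P.MP_9321be_ag.NC.Defs

/-!
The steps of the proof of the strong monodromy conjecture in the simplicial case.
-/

set_option autoImplicit false
set_option linter.unusedSectionVars false

namespace Pool.Agent.P.MP_9321be_ag.SM

open Finset

variable {n : ℕ}

/-- Feasible weights. -/
def Feas (f : MvPolynomial (Fin n) ℂ) (v : Fin n → ℝ) : Prop := ∀ g ∈ gens f, 0 ≤ ps v (pt g)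

/-- `B` is an independent set of generators of the cone over the face of `v`. -/
structure IsB (f : MvPolynomial (Fin n) ℂ) (v : Fin n → ℝ) (B : Finset (Gn n)) : Prop where
  sub : B ⊆ gens f
  tight : ∀ b ∈ B, ps v (pt b) = 0
  ind : ∀ μ : Gn n → ℝ, (∀ i, ∑ b ∈ B, μ b * wv b i = 0) → ∀ b ∈ B, μ b = 0
  cone : ∀ g ∈ gens f, ps v (pt g) = 0 →
    ∃ μ : Gn n → ℝ, (∀ b, 0 ≤ μ b) ∧ ∀ i, (wv g i : ℝ) = ∑ b ∈ B, μ b * wv b i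

/-- The points of order zero in the span of a face. -/
def Fan.Sp {f : MvPolynomial (Fin n) ℂ} (Φ : Fan f) (F S : Finset (Gn n)) : Set (L n) :=
  {q | ps (Φ.u F) q = 0 ∧ (∀ j ∉ S, dt (Φ.d F j) q = 0) ∧
    ∑ i, dt (Φ.d F (Sum.inr i)) q = q.2.2}

namespace Dat

variable {f : MvPolynomial (Fin n) ℂ} (D : Dat f)

/-- A generic direction adapted to `J`. -/
structure GZ (J : Finset (Fin n)) (z : Fin n → ℝ) : Prop where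
  pos : ∀ i ∈ D.I0, i ∉ J → 0 < z i
  neg : ∀ i ∈ D.I0, i ∈ J → z i < 0
  gen : ∀ F ∈ D.FS, ∀ j ∈ F, D.d F j ⬝ᵥ z ≠ 0
  big : ∀ F ∈ D.FS, D.t2 ⊆ F → ∀ j ∈ D.t2, 0 < D.d F j ⬝ᵥ z

/-- The allowed values of the coordinate `j` on the piece of `F`. -/
def Ray (z : Fin n → ℝ) (c : Prop) (F : Finset (Gn n)) (j : Gn n) (x : ℝ) : Prop :=
  (j ∈ D.Gs → D.l j ≤ x) ∧ (j ∉ D.Gs → 0 ≤ x ∧ (0 < D.d F j ⬝ᵥ z → 0 < x)) ∧
    (¬ c → j ∈ D.t2 → D.l j ≤ x)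

/-- The piece of the facet `F` in the shelling. -/
def W (z : Fin n → ℝ) (c : Prop) (U U' : Set ℝ) (F : Finset (Gn n)) : Set (L n) :=
  {p | ps (D.u F) p = 0 ∧ (∀ j ∈ F, D.Ray z c F j (dt (D.d F j) p)) ∧ D.od p ∈ U ∧ D.od p ∉ U'}

/-- The vertices of `G` whose part in `I0` is the unit vector `i`. -/
noncomputable def Z (i : Fin n) : Finset (Gn n) :=
  D.G.filter fun j => 0 < D.l j ∧ wv j i = 1 ∧ ∀ i' ∈ D.I0, i' ≠ i → wv j i' = 0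

open Classical in
/-- The exponents in the cone over `Z i`. -/
noncomputable def PZ (i : Fin n) : Finset (Fin n →₀ ℕ) :=
  f.support.filter fun a => ps (D.u D.F0) (pt (Sum.inl a)) = 0 ∧
    ∀ j ∉ D.Z i, dt (D.d D.F0 j) (pt (Sum.inl a)) = 0

end Dat

/-- The module `ℂ[x][τ]`. -/
abbrev NN (n : ℕ) : Type := Polynomial (MvPolynomial (Fin n) ℂ)

/-- The derivative `∂ i` on `ℂ[x][τ] e ^ (- τ f)`. -/
noncomputable def dN (f : MvPolynomial (Fin n) ℂ) (i : Fin n) : Module.End ℂ (NN n) :=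
  Polynomial.lsum (R := ℂ) (fun j =>
    (Polynomial.monomial j).restrictScalars ℂ ∘ₗ (MvPolynomial.pderiv i).toLinearMap) -
  LinearMap.mulLeft ℂ (Polynomial.C (MvPolynomial.pderiv i f) * Polynomial.X)

/-- The operator `s` on `ℂ[x][τ] e ^ (- τ f)`. -/
noncomputable def EN (f : MvPolynomial (Fin n) ℂ) : Module.End ℂ (NN n) :=
  LinearMap.mulLeft ℂ Polynomial.X ∘ₗ Polynomial.derivative.restrictScalars ℂ -
  LinearMap.mulLeft ℂ (Polynomial.C f * Polynomial.X)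

theorem dN_monomial (f : MvPolynomial (Fin n) ℂ) (i : Fin n) (j : ℕ) (h : MvPolynomial (Fin n) ℂ) :
    dN f i (Polynomial.monomial j h) = Polynomial.monomial j (MvPolynomial.pderiv i h) -
      Polynomial.monomial (j + 1) (MvPolynomial.pderiv i f * h) := by
  simp [dN, Polynomial.sum_monomial_index, Polynomial.X_mul_monomial,
    Polynomial.C_mul_monomial]

theorem EN_monomial (f : MvPolynomial (Fin n) ℂ) (j : ℕ) (h : MvPolynomial (Fin n) ℂ) :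
    EN f (Polynomial.monomial j h) = (j : ℂ) • Polynomial.monomial j h -
      Polynomial.monomial (j + 1) (f * h) := by
  have : (Polynomial.X : NN n) * Polynomial.derivative (Polynomial.monomial j h) =
      (j : ℂ) • Polynomial.monomial j h := by
    cases j with
    | zero => simp
    | succ j =>
      rw [Polynomial.derivative_monomial_succ, Polynomial.X_mul_monomial, Polynomial.smul_monomial,
        MvPolynomial.smul_eq_C_mul, mul_comm]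
      simp
  simp [EN, this, Polynomial.X_mul_monomial, Polynomial.C_mul_monomial]

/-- The differential operators on `ℂ[x][τ] e ^ (- τ f)`. -/
noncomputable def AN (f : MvPolynomial (Fin n) ℂ) : Subalgebra ℂ (Module.End ℂ (NN n)) :=
  Algebra.adjoin ℂ (Set.range (fun i : Fin n =>
    LinearMap.mulLeft ℂ (Polynomial.C (MvPolynomial.X i) : NN n)) ∪ Set.range (dN f))

/-- The functional equation in `ℂ[x][τ] e ^ (- τ f)`. -/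
def NRel (f : MvPolynomial (Fin n) ℂ) (b : Polynomial ℂ) (g : MvPolynomial (Fin n) ℂ) : Prop :=
  ∃ (N : ℕ) (Q : ℕ → Module.End ℂ (NN n)), (∀ j, Q j ∈ AN f) ∧
    Polynomial.aeval (EN f) b (Polynomial.C g) = ∑ j ∈ range N, (EN f ^ j) (Q j (Polynomial.C f))

/-- The embedding of `ℂ[x][τ]` in the group algebra. -/
noncomputable def UU (α : ℝ) (y : NN n) : R n :=
  y.eval₂ (em : MvPolynomial (Fin n) ℂ →ₐ[ℂ] R n).toRingHom (e (1, 0, 0)) * e (p0 n α)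

/-- The primitives of polynomial forms. -/
def TT (i : Fin n) : Set (L n) := {p | 0 ≤ p.2.1 i ∧ ∀ j, j ≠ i → 1 ≤ p.2.1 j}

-- deps:
def S_ACY : Prop :=
  ∀ (n : ℕ) (θ η : Fin n → R n) (s : Fin n → Fin n → R n)
    (A B : Finset (Fin n) → Submodule ℂ (R n)), Monotone A → Monotone B →
    (∀ J i, ∀ x ∈ A (insert i J), θ i * x ∈ A J) → (∀ J i, ∀ x ∈ B (insert i J), θ i * x ∈ B J) →
    (∀ J r i, ∀ x ∈ A J, s r i * x ∈ A J) → (∀ J r i, ∀ x ∈ B J, s r i * x ∈ B J) →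
    (∀ J r, ∀ x ∈ A J, η r * x ∈ A J) → (∀ J r, ∀ x ∈ B J, η r * x ∈ B J) →
    (∀ J r, ∀ x ∈ A J, (η r - ∑ i, s r i * θ i) * x ∈ B J) → (∀ J, Reg η (A J) (B J)) →
    ∀ z : Fin n → R n, (∀ i, z i ∈ A {i}) → ∑ i, θ i * z i ∈ B ∅ →
    ∃ v : Fin n → Fin n → R n, (∀ i j, v i j = -v j i) ∧ (∀ i j, v i j ∈ A {i, j}) ∧
      ∀ i, z i - ∑ j, θ j * v i j ∈ B {i}

-- deps:
def S_WP : Prop :=
  ∀ (n : ℕ) (η : Fin n → R n) (W B : Set (L n)) (F : Finset (Gn n)) (b : Gn n → L n)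
    (ν : Gn n → L n → ℕ) (t : Gn n → ℂ), F.card = n → Set.InjOn t F → Disjoint W B →
    (∀ p ∈ W, ∀ j ∈ F, p + b j ∈ W ∧ ν j (p + b j) = ν j p + 1 ∧
      (∀ k ∈ F, k ≠ j → ν k (p + b j) = ν k p) ∧ (ν j p ≠ 0 → p - b j ∈ W)) →
    (∀ r : Fin n, ∀ p ∈ W, η r * e p - ∑ j ∈ F, t j ^ r.1 • e (p + b j) ∈ sp B) →
    (∀ r, ∀ x ∈ sp B, η r * x ∈ sp B) → Reg η (sp (W ∪ B)) (sp B)

-- deps:
def S_RX : Prop :=
  ∀ (n : ℕ) (η : Fin n → R n) (A A' B : Submodule ℂ (R n)), B ≤ A' → A' ≤ A →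
    (∀ r, ∀ x ∈ A, η r * x ∈ A) → (∀ r, ∀ x ∈ A', η r * x ∈ A') → (∀ r, ∀ x ∈ B, η r * x ∈ B) →
    Reg η A A' → Reg η A' B → Reg η A B

-- deps:
def S_PUSH : Prop :=
  ∀ (n : ℕ) (f : MvPolynomial (Fin n) ℂ) (ψ : L n →+ ℝ) (On : L n → Prop) (θ : ℝ)
    (A : Fin n → Set (L n)) (B : Set (L n)), (∀ i, Cl f (A i)) → Cl f B →
    (∀ i, ∀ p ∈ A i, ∀ g ∈ gens f, On (p + pt g) → On p ∧ 0 ≤ ψ (pt g)) →
    (∀ i, ∀ p ∈ A i, On p → ψ p < θ → ψ p ≠ 0) →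
    ∀ y ∈ EE f A B, ∃ β : Polynomial ℂ, β.eval 0 ≠ 0 ∧
      Polynomial.aeval (Dp f ψ) β y ∈ EE f (fun i => {p | p ∈ A i ∧ (On p → θ ≤ ψ p)}) B

-- deps:
def S_FB : Prop :=
  ∀ (n : ℕ) (f : MvPolynomial (Fin n) ℂ), Simplicial f → ∀ v, Feas f v → ∃ B, IsB f v B

-- deps:
def S_FE : Prop :=
  ∀ (n : ℕ) (f : MvPolynomial (Fin n) ℂ) (v : Fin n → ℝ) (B : Finset (Gn n)), IsB f v B →
    (∀ i, v i = 0 → Sum.inr i ∈ B) ∧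
    ∀ v' B', Feas f v' → IsB f v' B' → ∀ j ∈ B', ps v (pt j) = 0 → j ∈ B

-- deps: FE
def S_FM : Prop :=
  ∀ (n : ℕ) (f : MvPolynomial (Fin n) ℂ), (∀ v, Feas f v → ∃ B, IsB f v B) →
    ∀ v B, Feas f v → IsB f v B → ∀ x : Fin n → ℝ, (∀ b ∈ B, 0 ≤ dt x (pt b)) →
    (∃ g ∈ gens f, dt x (pt g) < 0) → ∃ v' B', Feas f v' ∧ IsB f v' B' ∧
      (∀ b ∈ B, b ∈ B' ↔ dt x (pt b) = 0) ∧ ∃ b ∈ B', b ∉ B

-- deps:
def S_FD : Prop :=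
  ∀ (n : ℕ) (B : Finset (Gn n)),
    (∀ μ : Gn n → ℝ, (∀ i, ∑ b ∈ B, μ b * wv b i = 0) → ∀ b ∈ B, μ b = 0) →
    B.card ≤ n ∧ (B.card < n → ∃ x : Fin n → ℝ, x ≠ 0 ∧ ∀ b ∈ B, dt x (pt b) = 0) ∧
    (B.card = n → ∃ d : Gn n → Fin n → ℝ, (∀ j ∉ B, d j = 0) ∧
      (∀ j ∈ B, ∀ j' ∈ B, dt (d j) (pt j') = if j = j' then 1 else 0) ∧
      ∀ (x : Fin n → ℝ) (i : Fin n), x i = ∑ j ∈ B, (d j ⬝ᵥ x) * wv j i)

-- deps: FB FE FM FD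
def S_FAN : Prop :=
  ∀ (n : ℕ) (f : MvPolynomial (Fin n) ℂ), Simplicial f → Nonempty (Fan f)

-- deps:
def S_LINK : Prop :=
  ∀ (n : ℕ) (f : MvPolynomial (Fin n) ℂ) (_ : Fan f) (u ω h : Fin n → ℝ)
    (s : Finset (Fin n →₀ ℕ)) (J : Finset (Fin n)) (α : ℚ), NC.Allowed f.support u ω h s J →
    ND.Contrib (NC.vs s J) → (∀ a, ¬ ND.UApex (NC.vs s J) a) → ∑ i, u i = α →
    ∃ D : Dat f, D.α = α

-- deps:
def S_GZ : Prop :=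
  ∀ (n : ℕ) (f : MvPolynomial (Fin n) ℂ) (D : Dat f) (J : Finset (Fin n)), ∃ z, D.GZ J z

-- deps:
def S_SHP : Prop :=
  ∀ (n : ℕ) (f : MvPolynomial (Fin n) ℂ) (D : Dat f) (J : Finset (Fin n)) (z : Fin n → ℝ),
    D.GZ J z →
    (∀ p ∈ D.R0, p ∈ D.DJ J → D.ON p → ∃ F ∈ D.FS, ps (D.u F) p = 0 ∧
      ∀ j ∈ F, j ∉ D.Gs → 0 < D.d F j ⬝ᵥ z → 0 < dt (D.d F j) p) ∧
    ∀ F ∈ D.FS, ∀ p : L n, ps (D.u F) p = 0 →
      (∀ j ∈ F, j ∉ D.Gs → 0 ≤ dt (D.d F j) p ∧ (0 < D.d F j ⬝ᵥ z → 0 < dt (D.d F j) p)) →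
      p ∈ D.R0 ∧ p ∈ D.DJ J ∧
        ∀ F' ∈ D.FS, ps (D.u F') p = 0 → F' ≠ F → D.u F' ⬝ᵥ z < D.u F ⬝ᵥ z

-- deps: WP SHP
def S_SHW : Prop :=
  ∀ (n : ℕ) (f : MvPolynomial (Fin n) ℂ) (D : Dat f) (J : Finset (Fin n)) (z : Fin n → ℝ)
    (c : Prop) (U U' : Set ℝ) (t : Gn n → ℂ) (M : ℕ) (F : Finset (Gn n)) (B : Set (L n)),
    D.GZ J z → 0 < M → Set.InjOn t D.VS → F ∈ D.FS → Disjoint (D.W z c U U' F) B →
    (∀ p ∈ D.W z c U U' F, ∀ j ∈ D.VS, j ∉ F → p + M • pt j ∈ B) →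
    (∀ p ∈ B, ∀ q ∈ D.Gam 0, p + q ∈ B) → Reg (D.eta t M) (sp (D.W z c U U' F ∪ B)) (sp B)

-- deps: GZ SHP SHW RX
def S_SHR : Prop :=
  ∀ (n : ℕ) (f : MvPolynomial (Fin n) ℂ) (D : Dat f) (J : Finset (Fin n)) (c : Prop)
    (U U' : Set ℝ) (t : Gn n → ℂ) (M : ℕ), IsUpperSet U → IsUpperSet U' → 0 < M →
    Set.InjOn t D.VS →
    Reg (D.eta t M) (sp (D.A (D.PP c U) J ∪ D.Rg (D.QQ c U'))) (sp (D.Rg (D.QQ c U')))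

-- deps:
def S_TW : Prop :=
  ∀ (n : ℕ) (f : MvPolynomial (Fin n) ℂ) (Φ : Fan f), ∀ F ∈ Φ.FF, ∀ S ⊆ F, S.Nonempty →
    (∀ i, Sum.inr i ∉ S) → ∃ w : Fin n → ℝ, (∀ i, 0 < w i) ∧ ∀ a ∈ f.support,
      (∀ b ∈ f.support, ∑ i, (a i : ℝ) * w i ≤ ∑ i, (b i : ℝ) * w i) ↔ pt (Sum.inl a) ∈ Φ.Sp F S

-- deps: TW
def S_TOR : Prop :=
  ∀ (n : ℕ) (f : MvPolynomial (Fin n) ℂ) (Φ : Fan f), ND.Nondeg f → ∀ F ∈ Φ.FF, ∀ S ⊆ F,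
    S.Nonempty → ∃ s : Fin n → R n, (∀ i, s i ∈ sp (Φ.Sp F S)) ∧
      ∑ i, s i * fl (Φ.Sp F S) (th f (mi i)) = 1

-- deps: TOR
def S_NST : Prop :=
  ∀ (n : ℕ) (f : MvPolynomial (Fin n) ℂ) (D : Dat f), ND.Nondeg f →
    ∃ M : ℕ, 0 < M ∧ ∀ j ∈ D.VS, ∃ s : Fin n → R n, (∀ i, s i ∈ sp (D.Gam 0)) ∧
      e (M • pt j) - ∑ i, s i * th f (mi i) ∈ sp (D.Gam 1)

-- deps: ACY SHR NST
def S_WIN : Prop :=
  ∀ (n : ℕ) (f : MvPolynomial (Fin n) ℂ) (D : Dat f), ND.Nondeg f →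
    ∀ (c : Prop) (U U' : Set ℝ), IsUpperSet U → IsUpperSet U' → (∀ o ∈ U, o + 1 ∈ U') →
    EX f (D.A (D.PP c U)) (D.Rg (D.QQ c U'))

-- deps: WIN
def S_GR2 : Prop :=
  ∀ (n : ℕ) (f : MvPolynomial (Fin n) ℂ) (D : Dat f), ND.Nondeg f →
    ∀ (c : Prop) (U : Set ℝ), IsUpperSet U → U.Nonempty →
    EX f (D.A (D.PP c Set.univ)) (D.Rg (D.QQ c U))

-- deps:
def S_GR1 : Prop :=
  ∀ (n : ℕ) (f : MvPolynomial (Fin n) ℂ) (A : Finset (Fin n) → Set (L n)) (B : Set (L n)),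
    EX f A B → Cl f B → (∀ i j, ∀ x ∈ sp (A {i, j}), Dp f (mi j) x ∈ sp (A {i})) →
    ∀ (w : ℝ) (z : Fin n → R n), (∀ i, z i ∈ sp (A {i})) →
    ∑ i, Dp f (mi i) (z i) ∈ sp (B ∪ {p | wt p ≤ w}) →
    ∃ z' : Fin n → R n, (∀ i, z' i ∈ sp (A {i} ∩ (B ∪ {p | wt p ≤ w - 1}))) ∧
      ∑ i, Dp f (mi i) (z' i) = ∑ i, Dp f (mi i) (z i)

-- deps:
def S_WN : Prop :=
  ∀ (n : ℕ) (f : MvPolynomial (Fin n) ℂ) (b : Polynomial ℂ), BSRel f b →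
    ∃ g, MvPolynomial.eval 0 g ≠ 0 ∧ NRel f b g

-- deps: WN
def S_ONE : Prop :=
  ∀ (n : ℕ) (f : MvPolynomial (Fin n) ℂ), f ≠ 0 → MvPolynomial.coeff 0 f = 0 → IsBSRoot f (-1)

-- deps:
def S_WU : Prop :=
  ∀ (n : ℕ) (f : MvPolynomial (Fin n) ℂ) (α : ℝ) (y : NN n),
    (∀ i, UU α (dN f i y) = Dp f (mi i) (e (0, -Pi.single i 1, 0) * UU α y) -
      (2 : ℂ) • e (0, Pi.single i 1, 1) * UU α y) ∧
    UU α (EN f y) = Dp f kk (UU α y) - (α : ℂ) • UU α y ∧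
    UU α (Polynomial.C f) = ((α : ℂ) - 1) • e (p0 n (α - 1)) - Dp f kk (e (p0 n (α - 1)))

-- deps: WU
def S_WEYL : Prop :=
  ∀ (n : ℕ) (f g : MvPolynomial (Fin n) ℂ) (b : Polynomial ℂ) (α : ℝ) (B : Set (L n)),
    NRel f b g → Cl f B → (∀ p : L n, p.1 = α - 1 → (∀ i, 1 ≤ p.2.1 i) → p ∈ B) →
    Polynomial.aeval (Dp f kk) (b.comp (Polynomial.X - Polynomial.C (α : ℂ)))
      (em g * e (p0 n α)) ∈ EE f TT B

-- deps: PUSH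
def S_S2 : Prop :=
  ∀ (n : ℕ) (f : MvPolynomial (Fin n) ℂ) (D : Dat f),
    (∀ p : L n, p.1 = D.α - 1 → (∀ i, 1 ≤ p.2.1 i) → p ∈ D.B0) ∧
    ∀ (y : R n) (γ : Polynomial ℂ), γ.eval 0 ≠ 0 → y ∈ sp (D.A (fun _ _ => True) ∅) →
      Polynomial.aeval (Dp f kk) γ y ∈ EE f TT D.B0 →
      y ∈ EE f (fun i => D.A (fun _ _ => True) {i}) D.B0

-- deps:
def S_G0 : Prop :=
  ∀ (n : ℕ) (f g : MvPolynomial (Fin n) ℂ) (D : Dat f),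
    em g * e (p0 n D.α) ∈ sp (D.A (fun _ _ => True) ∅) ∧
    em g * e (p0 n D.α) - MvPolynomial.eval 0 g • e (p0 n D.α) ∈ sp D.B0

-- deps: PUSH
def S_RAISE : Prop :=
  ∀ (n : ℕ) (f : MvPolynomial (Fin n) ℂ) (D : Dat f) (P : (Gn n → ℝ) → ℝ → Prop)
    (S : Finset (Gn n)), Mono P → (∀ a o, P a o → ∀ j ∈ S, a j < D.l j → a j ≠ 0) →
    P D.l D.o0 → e (p0 n D.α) ∈ EE f (fun i => D.A P {i}) D.B0 →
    e (p0 n D.α) ∈ EE f (fun i => D.A (fun a o => P a o ∧ ∀ j ∈ S, D.l j ≤ a j) {i}) D.B0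

-- deps:
def S_INT : Prop :=
  ∀ (n : ℕ) (f : MvPolynomial (Fin n) ℂ) (Φ : Fan f), ∀ F ∈ Φ.FF, ∃ N : ℕ, 0 < N ∧
    ∀ j, ∃ w : Fin n → ℤ, ∀ i, (w i : ℝ) = N * Φ.d F j i

-- deps:
def S_ROOT : Prop :=
  ∀ (ι : Type) (P : Finset ι) (c : ι → ℂ) (k : ι → ℤ) (b b' : ι), b ∈ P → b' ∈ P → b ≠ b' →
    c b ≠ 0 → c b' ≠ 0 → (∀ a ∈ P, a ≠ b' → k b' < k a) → (∀ a ∈ P, a ≠ b → k a ≠ k b) →
    ∃ y : ℂ, y ≠ 0 ∧ ∑ a ∈ P, c a * y ^ k a = 0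

-- deps: INT ROOT
def S_CHI : Prop :=
  ∀ (n : ℕ) (f : MvPolynomial (Fin n) ℂ) (D : Dat f), ∃ χ : (Fin n → ℤ) → ℂ,
    (∀ m, χ m ≠ 0) ∧ (∀ m m', χ (m + m') = χ m * χ m') ∧
    ∀ i ∈ D.I0, 1 ≤ ∑ j ∈ D.Z i, D.l j →
      ∑ a ∈ D.PZ i, MvPolynomial.coeff a f * χ (fun i' => a i') = 0

-- deps: CHI
def S_EV : Prop :=
  ∀ (n : ℕ) (f : MvPolynomial (Fin n) ℂ) (D : Dat f) (z : Fin n → R n),
    (∀ i, z i ∈ sp (D.A (D.PP False Set.univ) {i} ∩ (D.B0 ∪ {p | wt p ≤ D.α - 1}))) →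
    e (p0 n D.α) - ∑ i, Dp f (mi i) (z i) ∉ sp D.B0

-- deps: WN WEYL S2 G0 RAISE GR2 GR1 EV
def S_MAINB : Prop :=
  ∀ (n : ℕ) (f : MvPolynomial (Fin n) ℂ) (D : Dat f), ND.Nondeg f → IsBSRoot f (-(D.α : ℂ))

end Pool.Agent.P.MP_9321be_ag.SM
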