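import Pool.Agent.P.MP_9321be_ag.SM.Iface

/-! Step ACY. -/

set_option autoImplicit false
set_option linter.unusedSectionVars false

namespace Pool.Agent.P.MP_9321be_ag.SM

open Finset

variable {n : ℕ} {i j : Fin n} {J : Finset (Fin n)}

/-- Signs. -/
noncomputable def acy_sg (i : Fin n) (J : Finset (Fin n)) : ℂ := (-1) ^ #(J.filter (· < i))

lemma acy_ins (h : j ∉ J) :
    acy_sg i (insert j J) = if j < i then -acy_sg i J else acy_sg i J := by
  unfold acy_sg
  rw [filter_insert]
  split_ifs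
  · rw [card_insert_of_notMem (by simp [h]), pow_succ, mul_neg_one]
  · rfl

lemma acy_sq : acy_sg i J * acy_sg i J = 1 := by
  rw [acy_sg, ← mul_pow]
  simp

/-- Contraction. -/
noncomputable def acy_a (i : Fin n) : Module.End (R n) (Finset (Fin n) → R n) where
  toFun z J := if i ∈ J then 0 else acy_sg i J • z (insert i J)
  map_add' z w := funext fun J => by by_cases h : i ∈ J <;> simp [h]
  map_smul' c z := funext fun J => by by_cases h : i ∈ J <;> simp [h]

/-- Exterior multiplication. -/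
noncomputable def acy_c (i : Fin n) : Module.End (R n) (Finset (Fin n) → R n) where
  toFun z J := if i ∈ J then acy_sg i J • z (J.erase i) else 0
  map_add' z w := funext fun J => by by_cases h : i ∈ J <;> simp [h]
  map_smul' c z := funext fun J => by by_cases h : i ∈ J <;> simp [h]

lemma acy_a_eq (z : Finset (Fin n) → R n) :
    acy_a i z J = if i ∈ J then 0 else acy_sg i J • z (insert i J) := rfl

lemma acy_c_eq (z : Finset (Fin n) → R n) :
    acy_c i z J = if i ∈ J then acy_sg i J • z (J.erase i) else 0 := rfl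

lemma acy_ii (i : Fin n) : acy_a i * acy_a i = 0 := by
  refine LinearMap.ext fun z => funext fun J => ?_
  simp [acy_a_eq]

lemma acy_aa (i j : Fin n) : acy_a i * acy_a j + acy_a j * acy_a i = 0 := by
  rcases eq_or_ne i j with rfl | h
  · simp [acy_ii]
  refine LinearMap.ext fun z => funext fun J => ?_
  by_cases a : i ∈ J
  · simp [acy_a_eq, a]
  by_cases b : j ∈ J
  · simp [acy_a_eq, b]
  rcases h.lt_or_gt with e | e <;>
    simp [acy_a_eq, a, b, h, h.symm, acy_ins, e, e.not_gt, smul_smul, mul_comm, insert_comm i j]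

lemma acy_ac (i j : Fin n) : acy_a i * acy_c j + acy_c j * acy_a i = if i = j then 1 else 0 := by
  refine LinearMap.ext fun z => funext fun J => ?_
  rcases eq_or_ne i j with rfl | h
  · by_cases a : i ∈ J
    · obtain ⟨J, b, rfl⟩ : ∃ J', i ∉ J' ∧ insert i J' = J :=
        ⟨_, notMem_erase i J, insert_erase a⟩
      simp [acy_a_eq, acy_c_eq, b, acy_ins, smul_smul, acy_sq]
    · simp [acy_a_eq, acy_c_eq, a, acy_ins, smul_smul, acy_sq]
  by_cases a : i ∈ J
  · simp [acy_a_eq, acy_c_eq, a, h]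
  by_cases b : j ∈ J
  · obtain ⟨J, c, rfl⟩ : ∃ J', j ∉ J' ∧ insert j J' = J := ⟨_, notMem_erase j J, insert_erase b⟩
    have d : i ∉ J := fun e => a (mem_insert_of_mem e)
    rcases h.lt_or_gt with e | e <;>
      simp [acy_a_eq, acy_c_eq, c, d, h, h.symm, acy_ins, e, e.not_gt, smul_smul, mul_comm,
        erase_insert_of_ne]
  · simp [acy_a_eq, acy_c_eq, a, b, h, h.symm]

/-- The differential. -/
noncomputable def acy_d (θ : Fin n → R n) : Module.End (R n) (Finset (Fin n) → R n) :=
  ∑ i, θ i • acy_a i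

/-- The homotopy. -/
noncomputable def acy_h (s : Fin n → R n) : Module.End (R n) (Finset (Fin n) → R n) :=
  ∑ i, s i • acy_c i

variable {θ η s : Fin n → R n} {z : Finset (Fin n) → R n}

lemma acy_d_eq : acy_d θ z J = ∑ i, θ i * acy_a i z J := by simp [acy_d]

lemma acy_h_eq : acy_h s z J = ∑ i, s i * acy_c i z J := by simp [acy_h]

lemma acy_dd : acy_d θ * acy_d θ = 0 := by
  rw [acy_d, sum_mul_sum, ← sum_product']
  refine sum_involution (fun p _ => p.swap) (fun p _ => ?_) (fun p _ h e => h ?_) (by simp) (by simp)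
  · simp only [smul_mul_smul_comm, Prod.fst_swap, Prod.snd_swap]
    rw [mul_comm (θ p.2), ← smul_add, acy_aa, smul_zero]
  · rw [smul_mul_smul_comm, show p.2 = p.1 from congrArg Prod.fst e, acy_ii, smul_zero]

lemma acy_dh : acy_d θ * acy_h s + acy_h s * acy_d θ = (∑ i, s i * θ i) • 1 := by
  rw [acy_d, acy_h, sum_mul_sum, sum_mul_sum, sum_comm, ← sum_add_distrib, sum_smul]
  refine sum_congr rfl fun j _ => ?_
  rw [← sum_add_distrib, sum_congr rfl fun i _ => by
    rw [smul_mul_smul_comm, smul_mul_smul_comm, mul_comm (θ i), ← smul_add, acy_ac]]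
  simp

lemma acy_dm {S : Finset (Fin n) → Submodule ℂ (R n)}
    (h : ∀ J i, ∀ x ∈ S (insert i J), θ i * x ∈ S J) (hz : ∀ J, z J ∈ S J) (J : Finset (Fin n)) :
    acy_d θ z J ∈ S J := by
  rw [acy_d_eq]
  refine sum_mem fun i _ => ?_
  rw [acy_a_eq]
  split_ifs
  · simp
  · exact h _ _ _ (Submodule.smul_mem _ _ (hz _))

lemma acy_hm {S : Finset (Fin n) → Submodule ℂ (R n)}
    (h : ∀ J i, ∀ x ∈ S (J.erase i), s i * x ∈ S J) (hz : ∀ J, z J ∈ S J) (J : Finset (Fin n)) :
    acy_h s z J ∈ S J := by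
  rw [acy_h_eq]
  refine sum_mem fun i _ => ?_
  rw [acy_c_eq]
  split_ifs
  · exact h _ _ _ (Submodule.smul_mem _ _ (hz _))
  · simp

variable {A A' B B' : Submodule ℂ (R n)} {x : R n} {r : ℕ}

lemma acy_mem {r' : Fin n} (h : r'.1 < r) (hx : x ∈ A) : η r' * x ∈ B ⊔ Isp η A r :=
  Submodule.mem_sup_right (Submodule.mem_iSup_of_mem r' (Submodule.mem_iSup_of_mem h ⟨x, hx, rfl⟩))

lemma acy_st {t : R n} {r' : ℕ} (hr : r' ≤ r) (hA : ∀ x ∈ A', t * x ∈ A)
    (hB : ∀ x ∈ B', t * x ∈ B) : ∀ x ∈ B' ⊔ Isp η A' r', t * x ∈ B ⊔ Isp η A r := by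
  refine (sup_le (fun x hx => Submodule.mem_sup_left (hB x hx)) (iSup₂_le fun r'' h => ?_) :
    _ ≤ (B ⊔ Isp η A r).comap (LinearMap.mulLeft ℂ t))
  rintro _ ⟨x, hx, rfl⟩
  have := acy_mem (B := B) (η := η) (h.trans_le hr) (hA x hx)
  rwa [mul_left_comm] at this

lemma acy_dec (r : Fin n) (hx : x ∈ B ⊔ Isp η A (r + 1)) :
    ∃ v ∈ A, x - η r * v ∈ B ⊔ Isp η A r := by
  have : B ⊔ Isp η A (r + 1) ≤ (B ⊔ Isp η A r) ⊔ A.map (LinearMap.mulLeft ℂ (η r)) :=
    sup_le (le_sup_left.trans le_sup_left) (iSup₂_le fun r' h => by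
      rcases eq_or_ne r' r with rfl | e
      · exact le_sup_right
      · rintro _ ⟨x, hx, rfl⟩
        exact Submodule.mem_sup_left (acy_mem (by have := Fin.val_ne_of_ne e; omega) hx))
  obtain ⟨b, hb, _, ⟨v, hv, rfl⟩, rfl⟩ := Submodule.mem_sup.1 (this hx)
  exact ⟨v, hv, by simpa using hb⟩

theorem p_ACY :
    S_ACY := by
  intro n θ η s A B mA mB tA tB sA sB _ _ er rg z hz h0
  have key : ∀ k r, r + k = n → ∀ z : Finset (Fin n) → R n, (∀ J, z J ∈ A J) →
      (∀ J, #J ≤ r → z J = 0) → (∀ J, acy_d θ z J ∈ B J ⊔ Isp η (A J) r) →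
      ∃ w : Finset (Fin n) → R n, (∀ J, w J ∈ A J) ∧
        ∀ J, z J - acy_d θ w J ∈ B J ⊔ Isp η (A J) r := fun k => by
    induction k with
    | zero =>
      exact fun r e z _ h _ => ⟨0, by simp, fun J => by
        simp [h J ((card_le_univ J).trans (by simp [← e]))]⟩
    | succ k ih =>
      intro r e z h1 h2 h3
      obtain ⟨r, rfl⟩ : ∃ r' : Fin n, r'.1 = r := ⟨⟨r, by omega⟩, rfl⟩
      have a1 : ∀ J i, ∀ x ∈ A (J.erase i), s r i * x ∈ A J := fun J i x hx =>
        sA _ _ _ _ (mA (erase_subset i J) hx)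
      have a2 := acy_hm (S := fun J => B J ⊔ Isp η (A J) r) (fun J i => acy_st le_rfl (a1 J i)
        fun x hx => sB _ _ _ _ (mB (erase_subset i J) hx)) h3
      have a3 : ∀ J, η r * z J - acy_d θ (acy_h (s r) z) J ∈ B J ⊔ Isp η (A J) r := fun J => by
        have := congrFun (LinearMap.congr_fun (acy_dh (θ := θ) (s := s r)) z) J
        simp only [LinearMap.add_apply, Module.End.mul_apply, Pi.add_apply, LinearMap.smul_apply,
          Module.End.one_apply, Pi.smul_apply, smul_eq_mul] at this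
        convert add_mem (Submodule.mem_sup_left (er J r _ (h1 J))) (a2 J) using 1
        linear_combination -this
      obtain ⟨w, -, b2⟩ := ih (r + 1) (by omega) _ (acy_hm a1 h1) (fun J hJ => by
        rw [acy_h_eq]
        refine sum_eq_zero fun i _ => ?_
        rw [acy_c_eq]
        split_ifs with h
        · rw [h2 _ (by rw [card_erase_of_mem h]; omega), smul_zero, mul_zero]
        · exact mul_zero _) fun J => by
        convert sub_mem (acy_mem (lt_add_one r.1) (h1 J)) (acy_st (t := 1) r.1.le_succ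
          (fun x hx => by rwa [one_mul]) (fun x hx => by rwa [one_mul]) _ (a3 J)) using 1
        ring
      choose v v1 v2 using fun J => acy_dec r (b2 J)
      refine ⟨v, v1, fun J => rg J r _ (sub_mem (h1 J) (acy_dm tA v1 J)) ?_⟩
      have a4 := acy_dm (z := acy_h (s r) z - acy_d θ w - η r • v)
        (S := fun J => B J ⊔ Isp η (A J) r) (fun J i => acy_st le_rfl (tA J i) (tB J i)) v2 J
      rw [map_sub, map_sub, map_smul, ← Module.End.mul_apply (acy_d θ) (acy_d θ), acy_dd] at a4
      convert add_mem (a3 J) a4 using 1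
      simp only [Pi.sub_apply, Pi.smul_apply, smul_eq_mul, LinearMap.zero_apply, Pi.zero_apply]
      ring
  have i0 : ∀ J, B J ⊔ Isp η (A J) 0 = B J := fun J => by simp [Isp]
  obtain ⟨w, w1, w2⟩ := key n 0 (zero_add n) (fun J => ∑ i, if J = {i} then z i else 0)
    (fun J => sum_mem fun i _ => by
      split_ifs with h
      · exact h ▸ hz i
      · exact zero_mem _) (fun J h => by simp [card_eq_zero.1 (Nat.le_zero.1 h)])
    fun J => by
      rw [i0, acy_d_eq]
      rcases J.eq_empty_or_nonempty with rfl | ⟨j, hj⟩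
      · simpa [acy_a_eq, acy_sg] using h0
      refine sum_mem fun i _ => ?_
      rw [acy_a_eq]
      split_ifs with h
      · simp
      · rw [sum_eq_zero fun k _ => if_neg fun e => h (by
          rwa [mem_singleton.1 (e.subset (mem_insert_self i J)),
            ← mem_singleton.1 (e.subset (mem_insert_of_mem hj))]), smul_zero, mul_zero]
        exact zero_mem _
  refine ⟨fun i j => acy_a j w {i}, fun i j => ?_, fun i j => ?_, fun i => ?_⟩
  · have := congrFun (LinearMap.congr_fun (acy_aa i j) w) ∅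
    simpa [acy_a_eq (J := ∅), acy_sg, add_eq_zero_iff_eq_neg] using this
  · simp only [acy_a_eq]
    split_ifs
    · exact zero_mem _
    · exact Submodule.smul_mem _ _ (pair_comm j i ▸ w1 _)
  · simpa [i0, acy_d_eq] using w2 {i}

end Pool.Agent.P.MP_9321be_ag.SM
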