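import Pool.Agent.P.MP_9321be_ag.SM.Iface

/-! Step GZ. -/

set_option autoImplicit false
set_option linter.unusedSectionVars false

namespace Pool.Agent.P.MP_9321be_ag.SM

open Finset

open Filter in
lemma gz_step {n : ℕ} {S : Finset (Fin n → ℝ)} {w y : Fin n → ℝ}
    (h : ∀ d ∈ S, d ⬝ᵥ w ≠ 0 ∨ d ⬝ᵥ y ≠ 0) :
    ∀ᶠ T : ℝ in atTop, ∀ d ∈ S, d ⬝ᵥ (w + T • y) ≠ 0 := by
  refine (eventually_all_finset S).2 fun d hd => ?_
  simp only [dotProduct_add, dotProduct_smul, smul_eq_mul]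
  by_cases e : d ⬝ᵥ y = 0
  · exact .of_forall fun T => by simpa [e] using h d hd
  · exact (eventually_ne_atTop (-(d ⬝ᵥ w) / d ⬝ᵥ y)).mono fun T a b =>
      a (by rw [eq_div_iff e]; linarith)

lemma gz_ex {n : ℕ} (S : Finset (Fin n → ℝ)) (h : ∀ d ∈ S, d ≠ 0) : ∃ w, ∀ d ∈ S, d ⬝ᵥ w ≠ 0 := by
  classical
  induction S using Finset.induction_on with
  | empty => simp
  | insert d S _ ih =>
    obtain ⟨w, hw⟩ := ih fun x hx => h x (mem_insert_of_mem hx)
    exact (gz_step (S := insert d S) (w := w) (y := d) (forall_mem_insert _ _ _ |>.2 ⟨.inr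
      (mt dotProduct_self_eq_zero.1 (h d (mem_insert_self _ _))),
      fun x hx => .inl (hw x hx)⟩)).exists.elim fun _ a => ⟨_, a⟩

open Filter in
theorem p_GZ :
    S_GZ := by
  classical
  intro n f D J
  obtain ⟨w, hw⟩ := gz_ex (D.FS.biUnion fun F => F.image (D.d F)) fun d hd e => by
    obtain ⟨F, a, b⟩ := mem_biUnion.1 hd
    obtain ⟨j, c, rfl⟩ := mem_image.1 b
    simpa [dt_apply, e] using D.dual F (Dat.FS_FF a) j c j c
  obtain ⟨T, t1, t2⟩ := ((gz_step (y := fun i => if i ∈ J then -1 else 1)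
    fun d hd => .inl (hw d hd)).and (eventually_all.2 fun i => eventually_gt_atTop |w i|)).exists
  obtain ⟨T', t3, t4⟩ := ((gz_step (y := fun i => ∑ j ∈ D.t2, (wv j i : ℝ))
    fun d hd => .inl (t1 d hd)).and ((eventually_all_finset D.FS).2 fun F _ =>
      (eventually_all_finset D.t2).2 fun j _ => eventually_gt_atTop
        (-(D.d F j ⬝ᵥ (w + T • fun i => if i ∈ J then -1 else 1))))).exists
  have e : ∀ i ∈ D.I0, ∑ j ∈ D.t2, (wv j i : ℝ) = 0 := fun i hi =>
    sum_eq_zero fun j hj => by simp [(Dat.mem_t2.1 hj).2.2 i hi]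
  refine ⟨_, fun i a b => ?_, fun i a b => ?_,
    fun F a j b => t3 _ (mem_biUnion.2 ⟨F, a, mem_image_of_mem _ b⟩), fun F a b j c => ?_⟩
  · simp only [Pi.add_apply, Pi.smul_apply, e i a, if_neg b, smul_eq_mul]
    linarith [t2 i, neg_abs_le (w i)]
  · simp only [Pi.add_apply, Pi.smul_apply, e i a, if_pos b, smul_eq_mul]
    linarith [t2 i, le_abs_self (w i)]
  · have := D.dt_unique (Dat.FS_FF a) (p := ∑ j ∈ D.t2, pt j) (c := fun _ => 1) b
      (fun i => by simp [Prod.fst_sum, Prod.snd_sum, pt]) j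
    rw [if_pos c, dt_apply, show rv (∑ j ∈ D.t2, pt j) = fun i => ∑ j ∈ D.t2, (wv j i : ℝ) from
      funext fun i => by simp [rv, Prod.fst_sum, Prod.snd_sum, pt]] at this
    rw [dotProduct_add, dotProduct_smul, this, smul_eq_mul]
    linarith [t4 F a j c]

end Pool.Agent.P.MP_9321be_ag.SM
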